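import Pool.Agent.H40.VT.Chain

/-!
# Acyclic carriers
-/

namespace H40.VT

open Finsupp

variable {R : Type*} [CommRing R] {X Y Z : Type*}

/-- a family is acyclic: every cycle is a boundary (in all degrees `≥ -1`) -/
def Acy (R : Type*) [CommRing R] (F : Set (Set X)) : Prop :=
  ∀ c : Ch R X, c ∈ In F → bd c = 0 → ∃ b ∈ In F, bd b = c

/-- redefine a linear map on the lists of length `n` -/
noncomputable def redef (n : ℕ) (φ : Ch R X →ₗ[R] Ch R Y) (b : List X → Ch R Y) :
    Ch R X →ₗ[R] Ch R Y := lext (fun l => if l.length = n then b l else φ (s l))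

theorem redef_s {n : ℕ} {φ : Ch R X →ₗ[R] Ch R Y} {b : List X → Ch R Y} {l : List X}
    (h : l.length = n) : redef n φ b (s l) = b l := by
  unfold redef
  rw [lext_s, if_pos h]

theorem redef_of {n m : ℕ} {φ : Ch R X →ₗ[R] Ch R Y} {b : List X → Ch R Y} {c : Ch R X}
    (hc : c ∈ Len m) (h : m ≠ n) : redef n φ b c = φ c := by
  apply eq_supported _ hc
  intro l hl
  have hl' : l.length = m := hl
  unfold redef
  rw [lext_s, if_neg (by omega)]

/-- existence of carried chain maps -/
theorem exists_carrier {K : Set (Set X)} (hK : Down K) (h0 : ∅ ∈ K) {S : Set X → Set (Set Y)}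
    (hmono : ∀ A ∈ K, ∀ B, B ⊆ A → S B ⊆ S A) (hac : ∀ A ∈ K, A.Nonempty → Acy R (S A))
    (hempty : ∀ A ∈ K, ∅ ∈ S A) (n : ℕ) :
    ∃ φ : Ch R X →ₗ[R] Ch R Y, φ (s []) = s [] ∧
      ∀ l : List X, {x | x ∈ l} ∈ K → l.length ≤ n →
        φ (s l) ∈ In (S {x | x ∈ l}) ∧ φ (s l) ∈ Len l.length ∧ bd (φ (s l)) = φ (bd (s l)) := by
  induction n with
  | zero =>
    refine ⟨lext (fun _ => s []), ?_, ?_⟩
    · rw [lext_s]
    · intro l hl hl0
      have : l = [] := List.length_eq_zero_iff.1 (by omega)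
      subst this
      rw [lext_s]
      refine ⟨?_, ?_, ?_⟩
      · apply s_mem
        have := hempty _ hl
        simpa using this
      · exact s_mem_len rfl
      · simp
  | succ n ih =>
    obtain ⟨φ, hφ0, hφ⟩ := ih
    have hφK : ∀ A ∈ K, ∀ m ≤ n, ∀ c : Ch R X, c ∈ In {B : Set X | B ⊆ A} → c ∈ Len m →
        φ c ∈ In (S A) ∧ φ c ∈ Len m ∧ bd (φ c) = φ (bd c) := by
      intro A hA m hm c hc hcm
      have hc2 : c ∈ Finsupp.supported R R
          {l : List X | {x | x ∈ l} ⊆ A ∧ l.length = m} := by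
        intro l hl
        exact ⟨hc hl, hcm hl⟩
      refine ⟨?_, ?_, ?_⟩
      · apply map_supported _ hc2
        rintro l ⟨hl1, hl2⟩
        exact In_mono (hmono A hA _ hl1) (hφ l (hK _ hA _ hl1) (by omega)).1
      · apply map_supported _ hc2
        rintro l ⟨hl1, hl2⟩
        have := (hφ l (hK _ hA _ hl1) (by omega)).2.1
        rwa [hl2] at this
      · have h1 : (bd ∘ₗ φ) c = (φ ∘ₗ bd) c := by
          apply eq_supported _ hc2
          rintro l ⟨hl1, hl2⟩
          rw [LinearMap.comp_apply, LinearMap.comp_apply, (hφ l (hK _ hA _ hl1) (by omega)).2.2]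
        exact h1
    have key : ∀ l : List X, ∃ b : Ch R Y, {x | x ∈ l} ∈ K → l.length = n + 1 →
        b ∈ In (S {x | x ∈ l}) ∧ b ∈ Len (n + 1) ∧ bd b = φ (bd (s l)) := by
      intro l
      by_cases h : {x | x ∈ l} ∈ K ∧ l.length = n + 1
      · obtain ⟨hl, hln⟩ := h
        have h1 : bd (s l : Ch R X) ∈ In {B : Set X | B ⊆ {x | x ∈ l}} := by
          apply bdL_mem
          · intro A hA B hB
            exact hB.trans hA
          · exact fun x hx => hx
        have h2 : bd (s l : Ch R X) ∈ Len n := bdL_len hln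
        obtain ⟨g1, g2, g3⟩ := hφK _ hl n le_rfl _ h1 h2
        have hne : ({x | x ∈ l} : Set X).Nonempty := by
          cases l with
          | nil => simp at hln
          | cons x l => exact ⟨x, List.mem_cons_self⟩
        obtain ⟨b, hb1, hb2⟩ := hac _ hl hne _ g1 (by rw [g3, bd_bd, map_zero])
        obtain ⟨b', hb3, hb4, hb5⟩ := hom_prim hb1 g2 hb2
        exact ⟨b', fun _ _ => ⟨hb3, hb4, hb5⟩⟩
      · exact ⟨0, fun h1 h2 => absurd ⟨h1, h2⟩ h⟩
    choose b hb using key
    refine ⟨redef (n + 1) φ b, ?_, ?_⟩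
    · rw [redef_of (m := 0) (s_mem_len rfl) (by omega)]
      exact hφ0
    · intro l hl hln
      by_cases h : l.length = n + 1
      · rw [redef_s h]
        obtain ⟨g1, g2, g3⟩ := hb l hl h
        refine ⟨g1, ?_, ?_⟩
        · rw [h]
          exact g2
        · rw [g3, redef_of (m := n) (bdL_len h) (by omega)]
      · have h' : l.length ≤ n := by omega
        rw [redef_of (m := l.length) (s_mem_len rfl) (by omega)]
        obtain ⟨g1, g2, g3⟩ := hφ l hl h'
        refine ⟨g1, g2, ?_⟩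
        rw [g3]
        rcases l.eq_nil_or_concat with h0 | ⟨l0, x0, h0⟩
        · subst h0
          simp
        · obtain ⟨m, hm⟩ : ∃ m, l.length = m + 1 := ⟨l0.length, by rw [h0]; simp⟩
          rw [redef_of (m := m) (bdL_len hm) (by omega)]

/-- two carried chain maps are homotopic -/
theorem carrier_homotopy {K : Set (Set X)} (hK : Down K) {S : Set X → Set (Set Y)}
    (hmono : ∀ A ∈ K, ∀ B, B ⊆ A → S B ⊆ S A) (hac : ∀ A ∈ K, A.Nonempty → Acy R (S A))
    {φ ψ : Ch R X →ₗ[R] Ch R Y} (h0 : φ (s []) = ψ (s [])) {n : ℕ}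
    (hφ : ∀ l : List X, {x | x ∈ l} ∈ K → l.length ≤ n →
      φ (s l) ∈ In (S {x | x ∈ l}) ∧ bd (φ (s l)) = φ (bd (s l)))
    (hψ : ∀ l : List X, {x | x ∈ l} ∈ K → l.length ≤ n →
      ψ (s l) ∈ In (S {x | x ∈ l}) ∧ bd (ψ (s l)) = ψ (bd (s l))) :
    ∃ h : Ch R X →ₗ[R] Ch R Y, ∀ l : List X, {x | x ∈ l} ∈ K → l.length ≤ n →
      h (s l) ∈ In (S {x | x ∈ l}) ∧ bd (h (s l)) + h (bd (s l)) = φ (s l) - ψ (s l) := by
  induction n with
  | zero =>
    refine ⟨0, ?_⟩
    intro l _ hl0
    have : l = [] := List.length_eq_zero_iff.1 (by omega)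
    subst this
    refine ⟨Submodule.zero_mem _, ?_⟩
    rw [h0, sub_self]
    simp
  | succ n ih =>
    obtain ⟨h, hh⟩ := ih (fun l hl hln => hφ l hl (by omega)) (fun l hl hln => hψ l hl (by omega))
    have hhK : ∀ A ∈ K, ∀ m ≤ n, ∀ c : Ch R X, c ∈ In {B : Set X | B ⊆ A} → c ∈ Len m →
        h c ∈ In (S A) ∧ bd (h c) + h (bd c) = φ c - ψ c := by
      intro A hA m hm c hc hcm
      have hc2 : c ∈ Finsupp.supported R R
          {l : List X | {x | x ∈ l} ⊆ A ∧ l.length = m} := by
        intro l hl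
        exact ⟨hc hl, hcm hl⟩
      refine ⟨?_, ?_⟩
      · apply map_supported _ hc2
        rintro l ⟨hl1, hl2⟩
        exact In_mono (hmono A hA _ hl1) (hh l (hK _ hA _ hl1) (by omega)).1
      · have h1 : (bd ∘ₗ h + h ∘ₗ bd) c = (φ - ψ) c := by
          apply eq_supported _ hc2
          rintro l ⟨hl1, hl2⟩
          rw [LinearMap.add_apply, LinearMap.comp_apply, LinearMap.comp_apply,
            LinearMap.sub_apply, (hh l (hK _ hA _ hl1) (by omega)).2]
        exact h1
    have key : ∀ l : List X, ∃ b : Ch R Y, {x | x ∈ l} ∈ K → l.length = n + 1 →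
        b ∈ In (S {x | x ∈ l}) ∧ bd b + h (bd (s l)) = φ (s l) - ψ (s l) := by
      intro l
      by_cases hc : {x | x ∈ l} ∈ K ∧ l.length = n + 1
      · obtain ⟨hl, hln⟩ := hc
        have h1 : bd (s l : Ch R X) ∈ In {B : Set X | B ⊆ {x | x ∈ l}} := by
          apply bdL_mem
          · intro A hA B hB
            exact hB.trans hA
          · exact fun x hx => hx
        have h2 : bd (s l : Ch R X) ∈ Len n := bdL_len hln
        obtain ⟨g1, g2⟩ := hhK _ hl n le_rfl _ h1 h2
        rw [bd_bd, map_zero, add_zero] at g2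
        have hne : ({x | x ∈ l} : Set X).Nonempty := by
          cases l with
          | nil => simp at hln
          | cons x l => exact ⟨x, List.mem_cons_self⟩
        obtain ⟨p1, p2⟩ := hφ l hl (by omega)
        obtain ⟨q1, q2⟩ := hψ l hl (by omega)
        obtain ⟨b, hb1, hb2⟩ := hac _ hl hne (φ (s l) - ψ (s l) - h (bd (s l)))
          (Submodule.sub_mem _ (Submodule.sub_mem _ p1 q1) g1) (by
            rw [map_sub, map_sub, g2, p2, q2, sub_self])
        refine ⟨b, fun _ _ => ⟨hb1, ?_⟩⟩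
        rw [hb2, sub_add_cancel]
      · exact ⟨0, fun h1 h2 => absurd ⟨h1, h2⟩ hc⟩
    choose b hb using key
    refine ⟨redef (n + 1) h b, ?_⟩
    intro l hl hln
    by_cases hc : l.length = n + 1
    · rw [redef_s hc]
      obtain ⟨g1, g2⟩ := hb l hl hc
      refine ⟨g1, ?_⟩
      rw [redef_of (m := n) (bdL_len hc) (by omega)]
      exact g2
    · have h' : l.length ≤ n := by omega
      rw [redef_of (m := l.length) (s_mem_len rfl) (by omega)]
      obtain ⟨g1, g2⟩ := hh l hl h'
      refine ⟨g1, ?_⟩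
      rw [← g2]
      congr 1
      rcases l.eq_nil_or_concat with h0 | ⟨l0, x0, h0⟩
      · subst h0
        simp
      · obtain ⟨m, hm⟩ : ∃ m, l.length = m + 1 := ⟨l0.length, by rw [h0]; simp⟩
        rw [redef_of (m := m) (bdL_len hm) (by omega)]

end H40.VT
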