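import Mathlib

/-!
# Ordered chains on a set of points

Chains are formal sums of lists (tuples) of points with coefficients in a commutative ring; the
boundary is the alternating sum of all deletions (augmented: the boundary of `[x]` is the empty
list). All lengths are treated together.
-/

namespace H40.VT

open Finsupp

variable {R : Type*} [CommRing R] {X Y Z : Type*}

/-- chains on lists of points -/
abbrev Ch (R : Type*) [CommRing R] (X : Type*) := List X →₀ R

/-- the basis vector of a list -/
noncomputable def s (l : List X) : Ch R X := Finsupp.single l 1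

/-- put a point in front -/
noncomputable def cone (x : X) : Ch R X →ₗ[R] Ch R X := Finsupp.lmapDomain _ _ (List.cons x)

/-- the boundary of a list -/
noncomputable def bdL : List X → Ch R X
  | [] => 0
  | x :: l => s l - cone x (bdL l)

/-- the boundary -/
noncomputable def bd : Ch R X →ₗ[R] Ch R X := Finsupp.linearCombination R bdL

/-- the chain map induced by a map of points -/
noncomputable def mp (f : X → Y) : Ch R X →ₗ[R] Ch R Y := Finsupp.lmapDomain _ _ (List.map f)

/-- the prism of a list -/
noncomputable def prL (f g : X → Y) : List X → Ch R Y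
  | [] => 0
  | x :: l => s (f x :: g x :: l.map g) - cone (f x) (prL f g l)

/-- the prism operator -/
noncomputable def pr (f g : X → Y) : Ch R X →ₗ[R] Ch R Y := Finsupp.linearCombination R (prL f g)

/-- linear maps which agree on lists are equal -/
theorem ext_s {M : Type*} [AddCommGroup M] [Module R M] {f g : Ch R X →ₗ[R] M}
    (h : ∀ l, f (s l) = g (s l)) : f = g := by
  apply Finsupp.lhom_ext
  intro l b
  have e : (Finsupp.single l b : Ch R X) = b • s l := by
    unfold s
    rw [Finsupp.smul_single, smul_eq_mul, mul_one]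
  rw [e, map_smul, map_smul, h]

/-- the linear extension of a function on lists -/
noncomputable def lext {M : Type*} [AddCommGroup M] [Module R M] (f : List X → M) :
    Ch R X →ₗ[R] M := Finsupp.linearCombination R f

@[simp] theorem lext_s {M : Type*} [AddCommGroup M] [Module R M] (f : List X → M) (l : List X) :
    lext (R := R) f (s l) = f l := by
  unfold lext s
  rw [Finsupp.linearCombination_single, one_smul]

@[simp] theorem cone_s (x : X) (l : List X) : cone (R := R) x (s l) = s (x :: l) := by
  unfold cone s
  rw [Finsupp.lmapDomain_apply, Finsupp.mapDomain_single]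

@[simp] theorem mp_s (f : X → Y) (l : List X) : mp (R := R) f (s l) = s (l.map f) := by
  unfold mp s
  rw [Finsupp.lmapDomain_apply, Finsupp.mapDomain_single]

theorem bd_s (l : List X) : bd (R := R) (s l) = bdL l := by
  unfold bd s
  rw [Finsupp.linearCombination_single, one_smul]

theorem pr_s (f g : X → Y) (l : List X) : pr (R := R) f g (s l) = prL f g l := by
  unfold pr s
  rw [Finsupp.linearCombination_single, one_smul]

@[simp] theorem bd_nil : bd (R := R) (s ([] : List X)) = 0 := by
  rw [bd_s]
  rfl

@[simp] theorem bd_s_cons (x : X) (l : List X) :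
    bd (R := R) (s (x :: l)) = s l - cone x (bd (s l)) := by
  rw [bd_s, bd_s]
  rfl

@[simp] theorem pr_nil (f g : X → Y) : pr (R := R) f g (s []) = 0 := by
  rw [pr_s]
  rfl

@[simp] theorem pr_s_cons (f g : X → Y) (x : X) (l : List X) :
    pr (R := R) f g (s (x :: l)) = s (f x :: g x :: l.map g) - cone (f x) (pr f g (s l)) := by
  rw [pr_s, pr_s]
  rfl

theorem bd_cone (x : X) (c : Ch R X) : bd (cone x c) = c - cone x (bd c) := by
  have h : bd ∘ₗ cone x = LinearMap.id - cone x ∘ₗ (bd : Ch R X →ₗ[R] Ch R X) := by
    apply ext_s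
    intro l
    simp
  have := LinearMap.congr_fun h c
  simpa using this

theorem bd_bd (c : Ch R X) : bd (bd c) = 0 := by
  have h : bd ∘ₗ bd = (0 : Ch R X →ₗ[R] Ch R X) := by
    apply ext_s
    intro l
    induction l with
    | nil => simp
    | cons x l ih =>
      simp only [LinearMap.comp_apply, LinearMap.zero_apply] at ih ⊢
      rw [bd_s_cons, map_sub, bd_cone, ih, map_zero, sub_zero, sub_self]
  have := LinearMap.congr_fun h c
  simpa using this

theorem mp_cone (f : X → Y) (x : X) (c : Ch R X) : mp f (cone x c) = cone (f x) (mp f c) := by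
  have h : mp f ∘ₗ cone x = cone (f x) ∘ₗ (mp f : Ch R X →ₗ[R] Ch R Y) := by
    apply ext_s
    intro l
    simp
  exact LinearMap.congr_fun h c

theorem bd_mp (f : X → Y) (c : Ch R X) : bd (mp f c) = mp f (bd c) := by
  have h : bd ∘ₗ mp f = mp f ∘ₗ (bd : Ch R X →ₗ[R] Ch R X) := by
    apply ext_s
    intro l
    induction l with
    | nil => simp
    | cons x l ih =>
      simp only [LinearMap.comp_apply] at ih ⊢
      rw [mp_s, List.map_cons, bd_s_cons, bd_s_cons, map_sub, mp_s, mp_cone, ← mp_s, ih]
  exact LinearMap.congr_fun h c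

theorem mp_mp (f : X → Y) (g : Y → Z) (c : Ch R X) :
    mp g (mp f c) = mp (fun x => g (f x)) c := by
  have h : mp g ∘ₗ mp f = (mp (fun x => g (f x)) : Ch R X →ₗ[R] Ch R Z) := by
    apply ext_s
    intro l
    simp only [LinearMap.comp_apply, mp_s, List.map_map]
    rfl
  exact LinearMap.congr_fun h c

theorem mp_id (c : Ch R X) : mp (fun x => x) c = c := by
  have h : mp (fun x : X => x) = (LinearMap.id : Ch R X →ₗ[R] Ch R X) := by
    apply ext_s
    intro l
    simp
  exact LinearMap.congr_fun h c

theorem pr_cone (f g : X → Y) (x : X) (c : Ch R X) :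
    pr f g (cone x c) = cone (f x) (cone (g x) (mp g c)) - cone (f x) (pr f g c) := by
  have h : pr f g ∘ₗ cone x =
      cone (f x) ∘ₗ cone (g x) ∘ₗ mp g - cone (f x) ∘ₗ (pr f g : Ch R X →ₗ[R] Ch R Y) := by
    apply ext_s
    intro l
    simp
  exact LinearMap.congr_fun h c

/-- the prism operator is a homotopy between the maps -/
theorem bd_pr (f g : X → Y) (c : Ch R X) :
    bd (pr f g c) + pr f g (bd c) = mp g c - mp f c := by
  have h : bd ∘ₗ pr f g + pr f g ∘ₗ bd = mp g - (mp f : Ch R X →ₗ[R] Ch R Y) := by
    apply ext_s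
    intro l
    induction l with
    | nil => simp
    | cons x l ih =>
      simp only [LinearMap.comp_apply, LinearMap.add_apply, LinearMap.sub_apply, mp_s] at ih ⊢
      have e1 : bd (pr f g (s l)) = s (l.map g) - s (l.map f) - pr f g (bd (s l : Ch R X)) := by
        rw [← ih]
        abel
      rw [bd_s_cons, pr_s_cons, map_sub, map_sub, pr_cone, bd_s_cons, bd_s_cons, bd_cone, e1,
        map_sub, map_sub, map_sub, cone_s, cone_s, List.map_cons, List.map_cons, ← bd_mp, mp_s]
      abel
  exact LinearMap.congr_fun h c

/-! ### supports -/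

/-- a family of sets of points is a complex if it is closed under subsets -/
def Down (F : Set (Set X)) : Prop := ∀ A ∈ F, ∀ B, B ⊆ A → B ∈ F

/-- the chains of a family of sets of points -/
noncomputable def In (F : Set (Set X)) : Submodule R (Ch R X) :=
  Finsupp.supported R R {l : List X | {x | x ∈ l} ∈ F}

/-- the chains of lists of length `n` -/
noncomputable def Len (n : ℕ) : Submodule R (Ch R X) :=
  Finsupp.supported R R {l : List X | l.length = n}

theorem s_mem_sup {S : Set (List X)} {l : List X} (h : l ∈ S) :
    (s l : Ch R X) ∈ Finsupp.supported R R S := Finsupp.single_mem_supported _ _ h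

theorem s_mem {F : Set (Set X)} {l : List X} (h : {x | x ∈ l} ∈ F) : (s l : Ch R X) ∈ In F :=
  s_mem_sup h

theorem s_mem_len {n : ℕ} {l : List X} (h : l.length = n) : (s l : Ch R X) ∈ Len n :=
  s_mem_sup h

/-- to show that a linear map preserves supports it is enough to look at lists -/
theorem map_supported {M : Type*} [AddCommGroup M] [Module R M] {S : Set (List X)}
    {T : Submodule R M} {f : Ch R X →ₗ[R] M} (h : ∀ l ∈ S, f (s l) ∈ T) {c : Ch R X}
    (hc : c ∈ Finsupp.supported R R S) : f c ∈ T := by
  rw [Finsupp.supported_eq_span_single] at hc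
  have h1 : Submodule.span R ((fun i => Finsupp.single i (1 : R)) '' S) ≤ T.comap f := by
    rw [Submodule.span_le]
    rintro _ ⟨l, hl, rfl⟩
    exact h l hl
  exact h1 hc

/-- linear maps which agree on the lists of `S` agree on the chains of `S` -/
theorem eq_supported {M : Type*} [AddCommGroup M] [Module R M] {S : Set (List X)}
    {f g : Ch R X →ₗ[R] M} (h : ∀ l ∈ S, f (s l) = g (s l)) {c : Ch R X}
    (hc : c ∈ Finsupp.supported R R S) : f c = g c := by
  have h1 : (f - g) c ∈ (⊥ : Submodule R M) := by
    apply map_supported _ hc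
    intro l hl
    rw [LinearMap.sub_apply, h l hl, sub_self]
    exact Submodule.zero_mem _
  rw [Submodule.mem_bot, LinearMap.sub_apply] at h1
  exact sub_eq_zero.1 h1

theorem cone_mem {F G : Set (Set X)} {p : X} (h : ∀ A ∈ F, insert p A ∈ G) {c : Ch R X}
    (hc : c ∈ In F) : cone p c ∈ In G := by
  apply map_supported _ hc
  intro l hl
  rw [cone_s]
  apply s_mem
  have h1 := h _ hl
  have e : {x | x ∈ p :: l} = insert p {x | x ∈ l} := by
    ext x
    simp
  rw [e]
  exact h1

theorem bdL_sup (l : List X) :
    bd (s l : Ch R X) ∈ Finsupp.supported R R {l' : List X | ∀ x ∈ l', x ∈ l} := by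
  induction l with
  | nil => simp
  | cons x l ih =>
    rw [bd_s_cons]
    apply Submodule.sub_mem
    · apply s_mem_sup
      intro y hy
      exact List.mem_cons_of_mem _ hy
    · refine map_supported ?_ ih
      intro l' hl'
      rw [cone_s]
      apply s_mem_sup
      intro y hy
      rcases List.mem_cons.1 hy with rfl | hy
      · exact List.mem_cons_self
      · exact List.mem_cons_of_mem _ (hl' y hy)

theorem bdL_mem {F : Set (Set X)} (hF : Down F) (l : List X) (hl : {x | x ∈ l} ∈ F) :
    bd (s l : Ch R X) ∈ In F := by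
  refine Finsupp.supported_mono ?_ (bdL_sup l)
  intro l' hl'
  exact hF _ hl _ (fun x hx => hl' x hx)

theorem bd_mem {F : Set (Set X)} (hF : Down F) {c : Ch R X} (hc : c ∈ In F) : bd c ∈ In F :=
  map_supported (fun l hl => bdL_mem hF l hl) hc

theorem mp_mem {F : Set (Set X)} {G : Set (Set Y)} {f : X → Y} (h : ∀ A ∈ F, f '' A ∈ G)
    {c : Ch R X} (hc : c ∈ In F) : mp f c ∈ In G := by
  apply map_supported _ hc
  intro l hl
  rw [mp_s]
  apply s_mem
  have h1 := h _ hl
  have e : {x | x ∈ l.map f} = f '' {x | x ∈ l} := by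
    ext x
    simp
  rw [e]
  exact h1

theorem prL_mem {G : Set (Set Y)} (hG : Down G) {f g : X → Y} (l : List X)
    (hl : f '' {x | x ∈ l} ∪ g '' {x | x ∈ l} ∈ G) : pr f g (s l : Ch R X) ∈ In G := by
  have h : pr f g (s l : Ch R X) ∈ Finsupp.supported R R
      {l' : List Y | ∀ y ∈ l', ∃ x ∈ l, y = f x ∨ y = g x} := by
    clear hl
    induction l with
    | nil => simp
    | cons x l ih =>
      rw [pr_s_cons]
      apply Submodule.sub_mem
      · apply s_mem_sup
        intro y hy
        rcases List.mem_cons.1 hy with rfl | hy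
        · exact ⟨x, List.mem_cons_self, Or.inl rfl⟩
        · rcases List.mem_cons.1 hy with rfl | hy
          · exact ⟨x, List.mem_cons_self, Or.inr rfl⟩
          · obtain ⟨z, hz, rfl⟩ := List.mem_map.1 hy
            exact ⟨z, List.mem_cons_of_mem _ hz, Or.inr rfl⟩
      · refine map_supported ?_ ih
        intro l' hl'
        rw [cone_s]
        apply s_mem_sup
        intro y hy
        rcases List.mem_cons.1 hy with rfl | hy
        · exact ⟨x, List.mem_cons_self, Or.inl rfl⟩
        · obtain ⟨z, hz, hz'⟩ := hl' y hy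
          exact ⟨z, List.mem_cons_of_mem _ hz, hz'⟩
  refine Finsupp.supported_mono ?_ h
  intro l' hl'
  apply hG _ hl
  intro y hy
  obtain ⟨x, hx, rfl | rfl⟩ := hl' y hy
  · exact Or.inl ⟨x, hx, rfl⟩
  · exact Or.inr ⟨x, hx, rfl⟩

theorem pr_mem {F : Set (Set X)} {G : Set (Set Y)} (hG : Down G) {f g : X → Y}
    (h : ∀ A ∈ F, f '' A ∪ g '' A ∈ G) {c : Ch R X} (hc : c ∈ In F) : pr f g c ∈ In G :=
  map_supported (fun l hl => prL_mem hG l (h _ hl)) hc

theorem mem_In {F : Set (Set X)} {c : Ch R X} : c ∈ In F ↔ ∀ l ∈ c.support, {x | x ∈ l} ∈ F :=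
  Iff.rfl

theorem In_mono {F G : Set (Set X)} (h : F ⊆ G) : (In F : Submodule R (Ch R X)) ≤ In G :=
  Finsupp.supported_mono fun _ hl => h hl

theorem bdL_len {n : ℕ} {l : List X} (hn : l.length = n + 1) : bd (s l : Ch R X) ∈ Len n := by
  induction l generalizing n with
  | nil => simp at hn
  | cons x l ih =>
    rw [bd_s_cons]
    have hl : l.length = n := by simpa using hn
    apply Submodule.sub_mem
    · exact s_mem_len hl
    · cases n with
      | zero =>
        have : l = [] := List.length_eq_zero_iff.1 hl
        subst this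
        simp
      | succ n =>
        refine map_supported ?_ (ih hl)
        intro l' hl'
        rw [cone_s]
        apply s_mem_len
        rw [List.length_cons, hl']

theorem bd_len {n : ℕ} {c : Ch R X} (hc : c ∈ Len (n + 1)) : bd c ∈ Len n :=
  map_supported (fun _ hl => bdL_len hl) hc

theorem len_zero {c : Ch R X} (hc : c ∈ Len 0) : bd c = 0 := by
  have h : bd c = (0 : Ch R X →ₗ[R] Ch R X) c := by
    apply eq_supported _ hc
    intro l hl
    have : l = [] := List.length_eq_zero_iff.1 hl
    subst this
    simp
  simpa using h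

theorem mp_len {n : ℕ} {f : X → Y} {c : Ch R X} (hc : c ∈ Len n) : mp f c ∈ Len n := by
  apply map_supported _ hc
  intro l hl
  rw [mp_s]
  apply s_mem_len
  rw [List.length_map]
  exact hl

theorem cone_len {n : ℕ} {p : X} {c : Ch R X} (hc : c ∈ Len n) : cone p c ∈ Len (n + 1) := by
  apply map_supported _ hc
  intro l hl
  rw [cone_s]
  apply s_mem_len
  rw [List.length_cons, hl]

/-- the part of a chain which consists of lists satisfying `P` -/
noncomputable def prt (P : List X → Prop) [DecidablePred P] : Ch R X →ₗ[R] Ch R X :=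
  lext (fun l => if P l then s l else 0)

theorem prt_s (P : List X → Prop) [DecidablePred P] (l : List X) :
    prt P (s l : Ch R X) = if P l then s l else 0 := by
  unfold prt
  rw [lext_s]

theorem prt_mem {P : List X → Prop} [DecidablePred P] {S : Set (List X)} {c : Ch R X}
    (hc : c ∈ Finsupp.supported R R S) :
    prt P c ∈ Finsupp.supported R R {l | l ∈ S ∧ P l} := by
  apply map_supported _ hc
  intro l hl
  rw [prt_s]
  split_ifs with h
  · exact s_mem_sup ⟨hl, h⟩
  · exact Submodule.zero_mem _

theorem prt_add_not {P : List X → Prop} [DecidablePred P] (c : Ch R X) :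
    prt P c + prt (fun l => ¬ P l) c = c := by
  have h : prt P + prt (fun l => ¬ P l) = (LinearMap.id : Ch R X →ₗ[R] Ch R X) := by
    apply ext_s
    intro l
    rw [LinearMap.add_apply, prt_s, prt_s]
    by_cases h : P l
    · simp [h]
    · simp [h]
  exact LinearMap.congr_fun h c

theorem prt_eq {P : List X → Prop} [DecidablePred P] {c : Ch R X}
    (hc : c ∈ Finsupp.supported R R {l | P l}) : prt P c = c := by
  have h : prt P c = (LinearMap.id : Ch R X →ₗ[R] Ch R X) c := by
    apply eq_supported _ hc
    intro l hl
    have hl' : P l := hl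
    rw [prt_s, if_pos hl']
    rfl
  exact h

theorem prt_zero {P : List X → Prop} [DecidablePred P] {c : Ch R X}
    (hc : c ∈ Finsupp.supported R R {l | ¬ P l}) : prt P c = 0 := by
  have h : prt P c = (0 : Ch R X →ₗ[R] Ch R X) c := by
    apply eq_supported _ hc
    intro l hl
    have hl' : ¬ P l := hl
    rw [prt_s, if_neg hl']
    rfl
  exact h

theorem bd_prt (n : ℕ) (c : Ch R X) :
    bd (prt (fun l => l.length = n + 1) c) = prt (fun l => l.length = n) (bd c) := by
  have h : bd ∘ₗ prt (fun l => l.length = n + 1) =
      prt (fun l => l.length = n) ∘ₗ (bd : Ch R X →ₗ[R] Ch R X) := by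
    apply ext_s
    intro l
    rw [LinearMap.comp_apply, LinearMap.comp_apply, prt_s]
    rcases l.eq_nil_or_concat with h0 | ⟨l0, x0, h0⟩
    · subst h0
      simp
    · obtain ⟨m, hm⟩ : ∃ m, l.length = m + 1 := ⟨l0.length, by rw [h0]; simp⟩
      have h1 : bd (s l : Ch R X) ∈ Len m := bdL_len hm
      split_ifs with h2
      · have h3 : m = n := by omega
        subst h3
        exact (prt_eq h1).symm
      · rw [map_zero]
        symm
        apply prt_zero
        refine Finsupp.supported_mono ?_ h1
        intro l' hl' h3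
        have h4 : l'.length = m := hl'
        omega
  exact LinearMap.congr_fun h c

/-- homogeneous primitives -/
theorem hom_prim {F : Set (Set X)} {n : ℕ} {b c : Ch R X} (hb : b ∈ In F) (hc : c ∈ Len n)
    (h : bd b = c) : ∃ b' ∈ In F, b' ∈ Len (n + 1) ∧ bd b' = c := by
  refine ⟨prt (fun l => l.length = n + 1) b, ?_, ?_, ?_⟩
  · exact Finsupp.supported_mono (fun l hl => hl.1) (prt_mem hb)
  · exact Finsupp.supported_mono (fun l hl => hl.2) (prt_mem hb)
  · rw [bd_prt, h]
    exact prt_eq hc

end H40.VT
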