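import Pool.Agent.H40.VT.Real

/-!
# Comparison of the realization with the complex
-/

namespace H40.VT

variable {R : Type*} [CommRing R] {N : ℕ}

theorem Comb_fam_down {K : Finset (Finset (Fin N))} : Down (Fam K) := by
  rintro A ⟨σ, hσ, hA⟩ B hB
  exact ⟨σ, hσ, hB.trans hA⟩

/-- a point of the realization has a coordinate which is at least `1 / (N + 1)` -/
theorem Comb_coord {x : EuclideanSpace ℝ (Fin N)} (h1 : ∑ i, x i = 1) :
    ∃ i, 1 / ((N : ℝ) + 1) ≤ x i := by
  by_contra hcon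
  push Not at hcon
  have h2 : ∑ i, x i ≤ ∑ _i : Fin N, 1 / ((N : ℝ) + 1) :=
    Finset.sum_le_sum fun i _ => (hcon i).le
  rw [h1, Finset.sum_const, Finset.card_univ, Fintype.card_fin, nsmul_eq_mul] at h2
  have h3 : (N : ℝ) * (1 / ((N : ℝ) + 1)) < 1 := by
    rw [mul_one_div, div_lt_one (by positivity)]
    linarith
  linarith

theorem Comb_dist {x y : EuclideanSpace ℝ (Fin N)} (i : Fin N) : |x i - y i| ≤ dist x y := by
  have h := PiLp.norm_apply_le (x - y) i
  rw [dist_eq_norm]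
  simpa [Real.norm_eq_abs] using h

/-- the set of points with support in `A` -/
def Comb_face (A : Set (Fin N)) : Set (EuclideanSpace ℝ (Fin N)) :=
  {x | (∀ i, 0 ≤ x i) ∧ ∑ i, x i = 1 ∧ ∀ i, x i ≠ 0 → i ∈ A}

theorem Comb_face_convex (A : Set (Fin N)) : Convex ℝ (Comb_face A) := by
  rintro x ⟨hx1, hx2, hx3⟩ y ⟨hy1, hy2, hy3⟩ a b ha hb hab
  refine ⟨?_, ?_, ?_⟩
  · intro i
    have := mul_nonneg ha (hx1 i)
    have := mul_nonneg hb (hy1 i)
    simp only [PiLp.add_apply, PiLp.smul_apply, smul_eq_mul]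
    linarith
  · simp only [PiLp.add_apply, PiLp.smul_apply, smul_eq_mul]
    rw [Finset.sum_add_distrib, ← Finset.mul_sum, ← Finset.mul_sum, hx2, hy2, mul_one, mul_one,
      hab]
  · intro i hi
    by_contra hA
    apply hi
    have h1 : x i = 0 := by
      by_contra h
      exact hA (hx3 i h)
    have h2 : y i = 0 := by
      by_contra h
      exact hA (hy3 i h)
    simp only [PiLp.add_apply, PiLp.smul_apply, smul_eq_mul, h1, h2, mul_zero, add_zero]

theorem Comb_face_nonempty {A : Set (Fin N)} (hA : A.Nonempty) : ∃ p, p ∈ Comb_face A := by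
  obtain ⟨a, ha⟩ := hA
  refine ⟨EuclideanSpace.single a (1 : ℝ), ?_, ?_, ?_⟩
  · intro i
    rw [PiLp.single_apply]
    split_ifs
    · exact zero_le_one
    · exact le_rfl
  · simp only [PiLp.single_apply]
    rw [Finset.sum_ite_eq' Finset.univ a (fun _ => (1 : ℝ))]
    simp
  · intro i hi
    rw [PiLp.single_apply] at hi
    have : i = a := by
      by_contra h
      exact hi (if_neg h)
    rw [this]
    exact ha

/-- the carrier of a set of vertices in the realization -/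
def Comb_S (K : Finset (Finset (Fin N))) (δ : ℝ) (A : Set (Fin N)) : Set (Set (Re K)) :=
  {B | (∀ y ∈ B, ∀ i, (y : EuclideanSpace ℝ (Fin N)) i ≠ 0 → i ∈ A) ∧ B ∈ V (Re K) δ}

theorem Comb_acy {K : Finset (Finset (Fin N))} {δ : ℝ} (hδ : 0 < δ) {A : Set (Fin N)}
    (hA : A ∈ Fam K) (hne : A.Nonempty) : Acy R (Comb_S K δ A) := by
  classical
  intro c hc hb
  obtain ⟨σ, hσ, hAσ⟩ := hA
  obtain ⟨p, hp⟩ := Comb_face_nonempty hne
  have hsub : ∀ x, x ∈ Comb_face A → x ∈ Re K := by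
    rintro x ⟨h1, h2, h3⟩
    rw [mem_Re]
    exact ⟨σ, hσ, h1, h2, fun i hi => by simpa using hAσ (h3 i hi)⟩
  have hpm : ∀ x : Re K, (∀ i, 0 ≤ (x : EuclideanSpace ℝ (Fin N)) i) ∧
      ∑ i, (x : EuclideanSpace ℝ (Fin N)) i = 1 := by
    intro x
    obtain ⟨τ, _, h1, h2, _⟩ := mem_Re.1 x.2
    exact ⟨h1, h2⟩
  obtain ⟨b, hb1, hb2⟩ := convex_acyclic (R := R) (Comb_face_convex A) hp hδ
    (c := mp (fun x : Re K => (x : EuclideanSpace ℝ (Fin N))) c) (by
      refine mp_mem ?_ hc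
      rintro B ⟨hB1, hB2⟩
      constructor
      · rintro _ ⟨y, hy, rfl⟩
        exact ⟨(hpm y).1, (hpm y).2, hB1 y hy⟩
      · rintro _ ⟨y, hy, rfl⟩ _ ⟨z, hz, rfl⟩
        exact hB2 y hy z hz) (by
      rw [bd_mp, hb, map_zero])
  obtain ⟨g, hg⟩ : ∃ g : EuclideanSpace ℝ (Fin N) → Re K,
      ∀ (x : EuclideanSpace ℝ (Fin N)) (hx : x ∈ Re K), g x = ⟨x, hx⟩ := by
    refine ⟨fun x => if hx : x ∈ Re K then ⟨x, hx⟩ else ⟨p, hsub p hp⟩, ?_⟩
    intro x hx
    exact dif_pos hx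
  refine ⟨mp g b, ?_, ?_⟩
  · refine mp_mem ?_ hb1
    rintro B ⟨hB1, hB2⟩
    constructor
    · rintro _ ⟨y, hy, rfl⟩ i hi
      rw [hg y (hsub y (hB1 hy))] at hi
      exact (hB1 hy).2.2 i hi
    · rintro _ ⟨y, hy, rfl⟩ _ ⟨z, hz, rfl⟩
      rw [hg y (hsub y (hB1 hy)), hg z (hsub z (hB1 hz))]
      exact hB2 y hy z hz
  · rw [bd_mp, hb2, mp_mp]
    have e : (fun x : Re K => g (x : EuclideanSpace ℝ (Fin N))) = fun x => x := by
      funext x
      exact hg x x.2
    rw [e, mp_id]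

/-- a complex whose realization has no homology in the length `n` has none -/
theorem real_acyclic {K : Finset (Finset (Fin N))} (hK : DC K) (h0 : ∅ ∈ K) {n : ℕ}
    (h : Pro R (Re K) n) : AcyN R (Fam K) n := by
  classical
  have _ := hK
  -- the scale
  have hε : (0 : ℝ) < 1 / ((N : ℝ) + 1) := by positivity
  obtain ⟨δ, hδ, hd⟩ := h _ hε
  -- the vertex map
  have hpi : ∀ x : Re K, ∃ i : Fin N,
      1 / ((N : ℝ) + 1) ≤ (x : EuclideanSpace ℝ (Fin N)) i := by
    intro x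
    obtain ⟨τ, _, _, h2, _⟩ := mem_Re.1 x.2
    exact Comb_coord h2
  choose pi hpi using hpi
  -- the carried chain map
  obtain ⟨io, hio0, hio⟩ := exists_carrier (R := R) (K := Fam K) (Comb_fam_down)
    ⟨∅, h0, Set.empty_subset _⟩ (S := Comb_S K δ) (by
      rintro A _ B hBA C ⟨hC1, hC2⟩
      exact ⟨fun y hy i hi => hBA (hC1 y hy i hi), hC2⟩)
    (fun A hA hne => Comb_acy hδ hA hne) (by
      intro A _
      exact ⟨fun y hy => absurd hy (Set.notMem_empty _), fun y hy => absurd hy (Set.notMem_empty _)⟩) n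
  have hT : ∀ A B, B ∈ Comb_S K δ A → pi '' B ⊆ A := by
    rintro A B ⟨hB1, _⟩ _ ⟨y, hy, rfl⟩
    apply hB1 y hy
    have := hpi y
    intro h
    rw [h] at this
    linarith
  -- the homotopy
  obtain ⟨hh, hhh⟩ := carrier_homotopy (R := R) (K := Fam K) (Comb_fam_down)
    (S := fun A => {B : Set (Fin N) | B ⊆ A}) (fun A _ B hBA C hC => hC.trans hBA) (by
      rintro A _ ⟨a, ha⟩ c hc hb
      refine ⟨cone a c, ?_, ?_⟩
      · refine cone_mem ?_ hc
        intro B hB
        exact Set.insert_subset ha hB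
      · rw [bd_cone, hb, map_zero, sub_zero])
    (φ := LinearMap.id) (ψ := mp pi ∘ₗ io) (by
      rw [LinearMap.comp_apply, hio0, LinearMap.id_apply, mp_s, List.map_nil]) (n := n) (by
      intro l _ _
      refine ⟨?_, rfl⟩
      apply s_mem
      exact fun x hx => hx) (by
      intro l hl hln
      obtain ⟨g1, _, g3⟩ := hio l hl hln
      refine ⟨?_, ?_⟩
      · rw [LinearMap.comp_apply]
        refine mp_mem ?_ g1
        intro B hB
        exact hT _ B hB
      · rw [LinearMap.comp_apply, LinearMap.comp_apply, bd_mp, g3])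
  -- the cycle
  intro c hc hcn hb
  have hc2 : c ∈ Finsupp.supported R R {l : List (Fin N) | {x | x ∈ l} ∈ Fam K ∧ l.length = n} := by
    intro l hl
    exact ⟨hc hl, hcn hl⟩
  have hi1 : io c ∈ In (V (Re K) δ) := by
    apply map_supported _ hc2
    rintro l ⟨hl1, hl2⟩
    refine In_mono ?_ (hio l hl1 hl2.le).1
    rintro B ⟨_, hB⟩
    exact hB
  have hi2 : io c ∈ Len n := by
    apply map_supported _ hc2
    rintro l ⟨hl1, hl2⟩
    have := (hio l hl1 hl2.le).2.1
    rwa [hl2] at this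
  have hi3 : bd (io c) = 0 := by
    have h1 : (bd ∘ₗ io) c = (io ∘ₗ bd) c := by
      apply eq_supported _ hc2
      rintro l ⟨hl1, hl2⟩
      rw [LinearMap.comp_apply, LinearMap.comp_apply, (hio l hl1 hl2.le).2.2]
    rw [LinearMap.comp_apply, LinearMap.comp_apply, hb, map_zero] at h1
    exact h1
  obtain ⟨b, hb1, hb2⟩ := hd _ hi1 hi2 hi3
  refine ⟨hh c + mp pi b, Submodule.add_mem _ ?_ ?_, ?_⟩
  · apply map_supported _ hc2
    rintro l ⟨hl1, hl2⟩
    refine In_mono ?_ (hhh l hl1 hl2.le).1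
    intro B hB
    exact Comb_fam_down _ hl1 B hB
  · refine mp_mem ?_ hb1
    intro B hB
    rcases B.eq_empty_or_nonempty with rfl | ⟨x, hx⟩
    · rw [Set.image_empty]
      exact ⟨∅, h0, Set.empty_subset _⟩
    · obtain ⟨σ, hσ, _, _, h3⟩ := mem_Re.1 x.2
      refine ⟨σ, hσ, ?_⟩
      rintro _ ⟨y, hy, rfl⟩
      rw [Finset.mem_coe]
      apply h3
      have h4 := hB x hx y hy
      have h5 := Comb_dist (x := (x : EuclideanSpace ℝ (Fin N))) (y := y) (pi y)
      have h6 : dist (x : EuclideanSpace ℝ (Fin N)) y < 1 / ((N : ℝ) + 1) := h4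
      have h7 := hpi y
      intro h8
      rw [h8, zero_sub, abs_neg] at h5
      have h9 := le_abs_self ((y : EuclideanSpace ℝ (Fin N)) (pi y))
      linarith
  · have h1 : (bd ∘ₗ hh + hh ∘ₗ bd) c =
        ((LinearMap.id : Ch R (Fin N) →ₗ[R] Ch R (Fin N)) - mp pi ∘ₗ io) c := by
      apply eq_supported _ hc2
      rintro l ⟨hl1, hl2⟩
      rw [LinearMap.add_apply, LinearMap.comp_apply, LinearMap.comp_apply, (hhh l hl1 hl2.le).2]
      rfl
    rw [LinearMap.add_apply, LinearMap.comp_apply, LinearMap.comp_apply, hb, map_zero, add_zero,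
      LinearMap.sub_apply, LinearMap.id_apply, LinearMap.comp_apply] at h1
    rw [map_add, h1, bd_mp, hb2, sub_add_cancel]

end H40.VT
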