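import Pool.Agent.H40.VT.Ord

/-!
# Euler characteristic
-/

namespace H40.VT

variable {N : ℕ}

namespace Euler

variable {F : Type*} [Field F] {L : Finset (Finset (Fin N))}

/-- the boundary as a linear map -/
def O (F : Type*) [Field F] (N : ℕ) : (Finset (Fin N) → F) →ₗ[F] (Finset (Fin N) → F) where
  toFun c := obd c
  map_add' c d := by
    funext τ
    simp only [obd, Pi.add_apply, mul_add, Finset.sum_add_distrib]
  map_smul' r c := by
    funext τ
    simp only [obd, Pi.smul_apply, smul_eq_mul, RingHom.id_apply, Finset.mul_sum]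
    refine Finset.sum_congr rfl fun v _ => ?_
    ring

theorem O_apply (c : Finset (Fin N) → F) : O F N c = obd c := rfl

/-- chains of faces with `n` vertices -/
def Cn (F : Type*) [Field F] (L : Finset (Finset (Fin N))) (n : ℕ) :
    Submodule F (Finset (Fin N) → F) where
  carrier := {c | OIn L n c}
  zero_mem' := fun σ h => absurd rfl h
  add_mem' := by
    intro a b ha hb σ h
    by_cases h1 : a σ = 0
    · refine hb σ fun h2 => h ?_
      rw [Pi.add_apply, h1, h2, add_zero]
    · exact ha σ h1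
  smul_mem' := by
    intro r a ha σ h
    refine ha σ fun h2 => h ?_
    rw [Pi.smul_apply, h2, smul_zero]

theorem mem_Cn {n : ℕ} {c : Finset (Fin N) → F} : c ∈ Cn F L n ↔ OIn L n c := Iff.rfl

/-- chains are functions on the faces with `n` vertices -/
def eqv (F : Type*) [Field F] (L : Finset (Finset (Fin N))) (n : ℕ) :
    Cn F L n ≃ₗ[F] ({σ // σ ∈ L.filter fun σ => σ.card = n} → F) where
  toFun c := fun σ => c.1 σ.1
  map_add' _ _ := rfl
  map_smul' _ _ := rfl
  invFun g := ⟨fun σ => if h : σ ∈ L.filter fun σ => σ.card = n then g ⟨σ, h⟩ else 0, by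
    intro σ h
    by_contra h1
    refine h (dif_neg fun h2 => h1 ?_)
    exact Finset.mem_filter.1 h2⟩
  left_inv := by
    intro c
    apply Subtype.ext
    funext σ
    by_cases h : σ ∈ L.filter fun σ => σ.card = n
    · exact dif_pos h
    · refine (dif_neg h).trans ?_
      by_contra h1
      exact h (Finset.mem_filter.2 (c.2 σ (Ne.symm h1)))
  right_inv := by
    intro g
    funext σ
    exact dif_pos σ.2

theorem finrank_Cn (n : ℕ) :
    Module.finrank F (Cn F L n) = (L.filter fun σ => σ.card = n).card := by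
  rw [LinearEquiv.finrank_eq (eqv F L n), Module.finrank_pi, Fintype.card_coe]

theorem O_Cn (hL : DC L) {n : ℕ} {c : Finset (Fin N) → F} (hc : c ∈ Cn F L (n + 1)) :
    O F N c ∈ Cn F L n := by
  intro τ h
  rw [O_apply, obd] at h
  obtain ⟨v, hv, h1⟩ := Finset.exists_ne_zero_of_sum_ne_zero h
  obtain ⟨h2, h3⟩ := hc (insert v τ) (right_ne_zero_of_mul h1)
  refine ⟨hL _ h2 _ (Finset.subset_insert v τ), ?_⟩
  rw [Finset.card_insert_of_notMem (Finset.mem_compl.1 hv)] at h3
  exact Nat.succ_injective h3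

theorem O_C0 {c : Finset (Fin N) → F} (hc : c ∈ Cn F L 0) : O F N c = 0 := by
  funext τ
  rw [O_apply, obd]
  refine Finset.sum_eq_zero fun v hv => ?_
  by_contra h1
  obtain ⟨-, h3⟩ := hc (insert v τ) (right_ne_zero_of_mul h1)
  rw [Finset.card_insert_of_notMem (Finset.mem_compl.1 hv)] at h3
  exact Nat.succ_ne_zero _ h3

/-- cycles -/
def Zn (F : Type*) [Field F] (L : Finset (Finset (Fin N))) (n : ℕ) :
    Submodule F (Finset (Fin N) → F) := Cn F L n ⊓ LinearMap.ker (O F N)

/-- boundaries -/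
def Bn (F : Type*) [Field F] (L : Finset (Finset (Fin N))) (n : ℕ) :
    Submodule F (Finset (Fin N) → F) := (Cn F L (n + 1)).map (O F N)

theorem rank_nullity (n : ℕ) :
    Module.finrank F (Cn F L (n + 1)) =
      Module.finrank F (Zn F L (n + 1)) + Module.finrank F (Bn F L n) := by
  have h := LinearMap.finrank_range_add_finrank_ker ((O F N).domRestrict (Cn F L (n + 1)))
  have h1 : LinearMap.range ((O F N).domRestrict (Cn F L (n + 1))) = Bn F L n := by
    rw [Bn, LinearMap.range_domRestrict]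
  have h2 : Module.finrank F (LinearMap.ker ((O F N).domRestrict (Cn F L (n + 1)))) =
      Module.finrank F (Zn F L (n + 1)) := by
    have h3 : LinearMap.ker ((O F N).domRestrict (Cn F L (n + 1))) =
        (LinearMap.ker (O F N)).comap (Cn F L (n + 1)).subtype := rfl
    rw [h3, Zn, ← Submodule.map_comap_subtype]
    exact (Submodule.finrank_map_subtype_eq _ _).symm
  rw [h1, h2] at h
  omega

theorem finrank_Z0 : Module.finrank F (Cn F L 0) = Module.finrank F (Zn F L 0) := by
  have h : Zn F L 0 = Cn F L 0 := by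
    refine inf_eq_left.2 fun c hc => ?_
    exact O_C0 hc
  rw [h]

theorem B_le_Z (hL : DC L) (n : ℕ) : Bn F L n ≤ Zn F L n := by
  rintro _ ⟨c, hc, rfl⟩
  refine ⟨O_Cn hL hc, ?_⟩
  exact obd_obd c

theorem Z_acy (hL : DC L) {n : ℕ} (h : OAcy F L n) : Zn F L n = Bn F L n := by
  refine le_antisymm ?_ (B_le_Z hL n)
  rintro c ⟨hc, h1⟩
  obtain ⟨b, hb, h2⟩ := h c hc h1
  exact ⟨b, hb, h2⟩

theorem Z_one (hL : DC L) {n : ℕ} (h : OOne F L n) :
    Module.finrank F (Zn F L n) = Module.finrank F (Bn F L n) + 1 := by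
  obtain ⟨z, hz, hz0, h1, h2⟩ := h
  have hzB : z ∉ Bn F L n := by
    rintro ⟨b, hb, h3⟩
    refine one_ne_zero (h1 1 b hb ?_)
    rw [one_smul]
    exact h3
  have h3 : Zn F L n = Bn F L n ⊔ Submodule.span F {z} := by
    refine le_antisymm ?_ (sup_le (B_le_Z hL n) ?_)
    · rintro c ⟨hc, h4⟩
      obtain ⟨r, b, hb, h5⟩ := h2 c hc h4
      refine Submodule.mem_sup.2 ⟨c - r • z, ⟨b, hb, h5⟩, r • z,
        Submodule.smul_mem _ _ (Submodule.mem_span_singleton_self z), sub_add_cancel _ _⟩
    · rw [Submodule.span_singleton_le_iff_mem]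
      exact ⟨hz, hz0⟩
  rw [h3]
  have h4 := Submodule.finrank_sup_add_finrank_inf_eq (Bn F L n) (Submodule.span F {z})
  have h5 : Bn F L n ⊓ Submodule.span F {z} = ⊥ := by
    refine (Submodule.eq_bot_iff _).2 ?_
    rintro x ⟨hx, hx1⟩
    obtain ⟨r, rfl⟩ := Submodule.mem_span_singleton.1 hx1
    by_contra h6
    have hr : r ≠ 0 := fun h7 => h6 (by rw [h7, zero_smul])
    refine hzB ?_
    have h8 := (Bn F L n).smul_mem r⁻¹ hx
    rwa [smul_smul, inv_mul_cancel₀ hr, one_smul] at h8
  have h6 : z ≠ 0 := fun h7 => hzB (h7 ▸ (Bn F L n).zero_mem)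
  rw [h5, finrank_bot, finrank_span_singleton h6] at h4
  omega

theorem partial_sum (hL : DC L) {s : ℕ}
    (h1 : ∀ n, n ≠ s → OAcy F L n) (h2 : OOne F L s) (M : ℕ) :
    ∑ n ∈ Finset.range (M + 1), (-1 : ℤ) ^ n * ((L.filter fun σ => σ.card = n).card : ℤ) =
      (-1) ^ M * (Module.finrank F (Bn F L M) : ℤ) + if s ≤ M then (-1) ^ s else 0 := by
  have key : ∀ n, (Module.finrank F (Zn F L n) : ℤ) =
      Module.finrank F (Bn F L n) + if s = n then 1 else 0 := by
    intro n
    by_cases h : s = n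
    · rw [if_pos h, ← h, Z_one hL h2]
      push_cast
      rfl
    · rw [if_neg h, Z_acy hL (h1 n (Ne.symm h)), add_zero]
  induction M with
  | zero =>
    rw [Finset.sum_range_one, ← finrank_Cn (F := F), finrank_Z0, key 0, pow_zero, one_mul, one_mul]
    by_cases h : s = 0
    · rw [if_pos h, if_pos (le_of_eq h), h, pow_zero]
    · rw [if_neg h, if_neg (by omega)]
  | succ M ih =>
    rw [Finset.sum_range_succ, ih, ← finrank_Cn (F := F), rank_nullity]
    push_cast
    rw [key (M + 1)]
    by_cases h : s = M + 1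
    · rw [if_pos h, if_neg (by omega), if_pos (le_of_eq h), h]
      ring
    · rw [if_neg h]
      by_cases h3 : s ≤ M
      · rw [if_pos h3, if_pos (by omega)]
        ring
      · rw [if_neg h3, if_neg (by omega)]
        ring

end Euler

/-- the Euler relation of a complex with the homology of a sphere -/
theorem euler {F : Type*} [Field F] {L : Finset (Finset (Fin N))} (hL : DC L) {s : ℕ}
    (h1 : ∀ n, n ≠ s → OAcy F L n) (h2 : OOne F L s) :
    ∑ σ ∈ L, (-1 : ℤ) ^ σ.card = (-1) ^ s := by
  have h := Euler.partial_sum hL h1 h2 (N + s)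
  have h3 : Euler.Cn F L (N + s + 1) = ⊥ := by
    refine (Submodule.eq_bot_iff _).2 fun c hc => ?_
    funext σ
    by_contra h4
    have h5 := (hc σ h4).2
    have h6 := card_finset_fin_le σ
    omega
  rw [Euler.Bn, h3, Submodule.map_bot, finrank_bot, if_pos (by omega)] at h
  push_cast at h
  rw [mul_zero, zero_add] at h
  rw [← h, ← Finset.sum_fiberwise_of_maps_to (s := L) (t := Finset.range (N + s + 1))
    (g := fun σ => σ.card) (fun σ _ => Finset.mem_range.2 (by
      have h6 := card_finset_fin_le σ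
      omega))]
  refine Finset.sum_congr rfl fun n _ => ?_
  rw [Finset.sum_congr rfl (g := fun _ => (-1 : ℤ) ^ n) fun σ hσ => by
    rw [(Finset.mem_filter.1 hσ).2], Finset.sum_const, nsmul_eq_mul, mul_comm]

end H40.VT
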