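import Pool.Agent.H40.VT.Main
import Pool.Agent.H40.VT.Euler

/-!
# Corollaries: ridges, links of codimension 2 and 3
-/

namespace H40.VT

variable {N : ℕ}

/-- the common hypothesis: `K` triangulates the sphere of dimension `d - 1` -/
def Sph (d : ℕ) (K : Finset (Finset (Fin N))) : Prop :=
  DC K ∧ ∅ ∈ K ∧ Nonempty (Re K ≃ₜ Metric.sphere (0 : EuclideanSpace ℝ (Fin d)) 1)

/-- the Euler relation of the links -/
theorem euler_link {d : ℕ} {K : Finset (Finset (Fin N))} (h : Sph d K) {σ : Finset (Fin N)}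
    (hσ : σ ∈ K) : ∑ τ ∈ lk K σ, (-1 : ℤ) ^ (τ.card + σ.card) = (-1) ^ d := by
  obtain ⟨hK, h0, hh⟩ := h
  have hc := sphere_card hK h0 hh hσ
  have : Fact (Nat.Prime 2) := ⟨Nat.prime_two⟩
  have h1 := euler (F := ZMod 2) (lk_DC hK σ) (s := d - σ.card)
    (fun n hn => link_acy hK h0 hh hσ (by omega)) (link_one hK h0 hh hσ (by omega))
  have h2 : ∑ τ ∈ lk K σ, (-1 : ℤ) ^ (τ.card + σ.card)
      = (∑ τ ∈ lk K σ, (-1 : ℤ) ^ τ.card) * (-1) ^ σ.card := by
    rw [Finset.sum_mul]
    exact Finset.sum_congr rfl fun τ _ => pow_add _ _ _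
  rw [h2, h1, ← pow_add]
  congr 1
  omega

/-- the faces with `k + |σ|` vertices -/
theorem Cor_card {d : ℕ} {K : Finset (Finset (Fin N))} (h : Sph d K) {σ τ : Finset (Fin N)}
    (hτ : τ ∈ lk K σ) : τ.card + σ.card ≤ d := by
  rw [mem_lk] at hτ
  have h1 := sphere_card h.1 h.2.1 h.2.2 hτ.2
  rwa [Finset.card_union_of_disjoint hτ.1] at h1

/-- the vertices of the link -/
theorem Cor_vert {K : Finset (Finset (Fin N))} {σ : Finset (Fin N)} {v : Fin N} :
    {v} ∈ lk K σ ↔ v ∉ σ ∧ insert v σ ∈ K := by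
  rw [mem_lk, Finset.disjoint_singleton_left, Finset.insert_eq]

theorem Cor_card_one (L : Finset (Finset (Fin N))) :
    (L.filter fun τ => τ.card = 1).card = (Finset.univ.filter fun v => {v} ∈ L).card := by
  classical
  symm
  refine Finset.card_bij (fun v _ => {v}) ?_ ?_ ?_
  · intro v hv
    rw [Finset.mem_filter] at hv
    exact Finset.mem_filter.2 ⟨hv.2, Finset.card_singleton v⟩
  · intro a _ b _ hab
    exact Finset.singleton_injective hab
  · intro τ hτ
    rw [Finset.mem_filter] at hτ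
    obtain ⟨v, rfl⟩ := Finset.card_eq_one.1 hτ.2
    exact ⟨v, Finset.mem_filter.2 ⟨Finset.mem_univ v, hτ.1⟩, rfl⟩

theorem Cor_card_zero {L : Finset (Finset (Fin N))} (h : ∅ ∈ L) :
    (L.filter fun τ => τ.card = 0).card = 1 := by
  rw [Finset.card_eq_one]
  refine ⟨∅, ?_⟩
  ext τ
  rw [Finset.mem_filter, Finset.mem_singleton, Finset.card_eq_zero]
  constructor
  · exact fun h => h.2
  · rintro rfl
    exact ⟨h, rfl⟩

/-- the alternating sum of the numbers of faces -/
theorem Cor_sum (L : Finset (Finset (Fin N))) (m : ℕ) (h : ∀ τ ∈ L, τ.card ≤ m) :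
    ∑ τ ∈ L, (-1 : ℤ) ^ τ.card
      = ∑ k ∈ Finset.range (m + 1), (-1) ^ k * ((L.filter fun τ => τ.card = k).card : ℤ) := by
  rw [← Finset.sum_fiberwise_of_maps_to (t := Finset.range (m + 1)) (g := Finset.card)
    (fun τ hτ => Finset.mem_range.2 (Nat.lt_succ_of_le (h τ hτ)))]
  refine Finset.sum_congr rfl fun k _ => ?_
  rw [Finset.sum_congr rfl (g := fun _ => (-1 : ℤ) ^ k)]
  · rw [Finset.sum_const, nsmul_eq_mul, mul_comm]
  · intro τ hτ
    rw [(Finset.mem_filter.1 hτ).2]

/-- the Euler relation, without the vertices of `σ` -/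
theorem Cor_euler {d m : ℕ} {K : Finset (Finset (Fin N))} (h : Sph d K) {σ : Finset (Fin N)}
    (hσ : σ ∈ K) (hc : σ.card + m = d) :
    ∑ k ∈ Finset.range (m + 1), (-1) ^ k * (((lk K σ).filter fun τ => τ.card = k).card : ℤ)
      = (-1) ^ m := by
  have h1 := euler_link h hσ
  have h2 : ∑ τ ∈ lk K σ, (-1 : ℤ) ^ (τ.card + σ.card)
      = (∑ τ ∈ lk K σ, (-1 : ℤ) ^ τ.card) * (-1) ^ σ.card := by
    rw [Finset.sum_mul]
    exact Finset.sum_congr rfl fun τ _ => pow_add _ _ _
  rw [h2, ← hc, pow_add, mul_comm] at h1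
  have h3 := mul_left_cancel₀ (pow_ne_zero σ.card (by norm_num : (-1 : ℤ) ≠ 0)) h1
  rw [← h3, ← Cor_sum]
  intro τ hτ
  have := Cor_card h hτ
  omega

/-- every ridge lies in exactly two facets -/
theorem ridge {d : ℕ} {K : Finset (Finset (Fin N))} (h : Sph d K) {σ : Finset (Fin N)}
    (hσ : σ ∈ K) (hc : σ.card + 1 = d) :
    (Finset.univ.filter fun v => v ∉ σ ∧ insert v σ ∈ K).card = 2 := by
  classical
  have h1 := Cor_euler h hσ hc
  rw [Finset.sum_range_succ, Finset.sum_range_one, Cor_card_zero (by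
    rw [mem_lk]
    exact ⟨Finset.disjoint_empty_left _, by rwa [Finset.empty_union]⟩), Cor_card_one] at h1
  have h2 : (Finset.univ.filter fun v => v ∉ σ ∧ insert v σ ∈ K)
      = Finset.univ.filter fun v => {v} ∈ lk K σ :=
    Finset.filter_congr fun v _ => Cor_vert.symm
  rw [h2]
  have h3 : (((Finset.univ.filter fun v => {v} ∈ lk K σ).card : ℕ) : ℤ) = 2 := by
    rw [pow_zero, pow_one, Nat.cast_one] at h1
    linarith
  exact_mod_cast h3

/-- links of faces of codimension at least 2 are connected: a nonempty set of vertices of the link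
which is closed under adjacency contains all vertices -/
theorem link_conn {d : ℕ} {K : Finset (Finset (Fin N))} (h : Sph d K) {σ : Finset (Fin N)}
    (hσ : σ ∈ K) (hc : σ.card + 2 ≤ d) {S : Finset (Fin N)}
    (hS : ∃ v ∈ S, v ∉ σ ∧ insert v σ ∈ K)
    (hadj : ∀ u ∈ S, ∀ v, u ∉ σ → v ∉ σ → insert u (insert v σ) ∈ K → v ∈ S) :
    ∀ v, v ∉ σ → insert v σ ∈ K → v ∈ S := by
  classical
  intro v hv1 hv2
  by_contra hvS
  obtain ⟨a, haS, ha⟩ := hS
  have : Fact (Nat.Prime 2) := ⟨Nat.prime_two⟩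
  have hav : a ≠ v := fun e => hvS (e ▸ haS)
  have ho : OAcy (ZMod 2) (lk K σ) 1 := link_acy h.1 h.2.1 h.2.2 hσ (by omega)
  obtain ⟨c, hcd⟩ : ∃ c : Finset (Fin N) → ZMod 2,
      ∀ τ, c τ = if τ = {a} ∨ τ = {v} then 1 else 0 := ⟨_, fun _ => rfl⟩
  have hm : ∀ k : ℕ, ((-1 : ZMod 2)) ^ k = 1 := by
    intro k
    have e : (-1 : ZMod 2) = 1 := CharTwo.neg_eq 1
    rw [e, one_pow]
  have hc1 : OIn (lk K σ) 1 c := by
    intro τ hτ
    rw [hcd] at hτ
    by_cases e : τ = {a} ∨ τ = {v}
    · rcases e with rfl | rfl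
      · exact ⟨Cor_vert.2 ha, Finset.card_singleton _⟩
      · exact ⟨Cor_vert.2 ⟨hv1, hv2⟩, Finset.card_singleton _⟩
    · rw [if_neg e] at hτ
      exact absurd rfl hτ
  have hc2 : obd c = 0 := by
    funext τ
    unfold obd
    simp only [hm, one_mul, Pi.zero_apply]
    rcases Finset.eq_empty_or_nonempty τ with rfl | ⟨w, hw⟩
    · have e1 : ∀ x : Fin N, c (insert x ∅) = (if x = a then 1 else 0) + if x = v then 1 else 0 := by
        intro x
        rw [hcd]
        simp only [insert_empty_eq, Finset.singleton_inj]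
        by_cases h1 : x = a
        · have h2 : x ≠ v := fun e => hav (h1 ▸ e)
          simp [h1, hav]
        · by_cases h2 : x = v
          · simp [h2, Ne.symm hav]
          · simp [h1, h2]
      rw [Finset.compl_empty, Finset.sum_congr rfl (fun x _ => e1 x), Finset.sum_add_distrib,
        Finset.sum_ite_eq', Finset.sum_ite_eq', if_pos (Finset.mem_univ _),
        if_pos (Finset.mem_univ _)]
      exact CharTwo.add_self_eq_zero 1
    · refine Finset.sum_eq_zero fun x hx => ?_
      rw [hcd, if_neg]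
      rintro (e | e)
      · have h1 : x = a := Finset.mem_singleton.1 (e ▸ Finset.mem_insert_self x τ)
        have h2 : w = a := Finset.mem_singleton.1 (e ▸ Finset.mem_insert_of_mem hw)
        rw [Finset.mem_compl] at hx
        exact hx (h1 ▸ h2 ▸ hw)
      · have h1 : x = v := Finset.mem_singleton.1 (e ▸ Finset.mem_insert_self x τ)
        have h2 : w = v := Finset.mem_singleton.1 (e ▸ Finset.mem_insert_of_mem hw)
        rw [Finset.mem_compl] at hx
        exact hx (h1 ▸ h2 ▸ hw)
  obtain ⟨b, hb1, hb2⟩ := ho c hc1 hc2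
  -- sum of the values on the vertices in S
  have s1 : ∑ u ∈ S, c {u} = 1 := by
    rw [Finset.sum_eq_single a]
    · rw [hcd, if_pos (Or.inl rfl)]
    · intro u hu hua
      rw [hcd, if_neg]
      rintro (e | e)
      · exact hua (Finset.singleton_injective e)
      · exact hvS (Finset.singleton_injective e ▸ hu)
    · exact fun h => absurd haS h
  have s2 : ∀ u ∈ S, c {u} = ∑ w ∈ S, if w = u then 0 else b {w, u} := by
    intro u hu
    rw [← hb2]
    unfold obd
    simp only [hm, one_mul]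
    have e1 : ∑ w ∈ S, (if w = u then (0 : ZMod 2) else b {w, u})
        = ∑ w : Fin N, if w = u then (0 : ZMod 2) else b {w, u} := by
      refine Finset.sum_subset (Finset.subset_univ S) ?_
      intro w _ hw
      by_cases hwu : w = u
      · rw [if_pos hwu]
      · rw [if_neg hwu]
        by_contra hne
        have h1 := (hb1 _ hne).1
        rw [mem_lk] at h1
        obtain ⟨h1, h2⟩ := h1
        apply hw
        refine hadj u hu w ?_ ?_ ?_
        · exact Finset.disjoint_left.1 h1 (by simp)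
        · exact Finset.disjoint_left.1 h1 (by simp)
        · have e2 : insert u (insert w σ) = ({w, u} : Finset (Fin N)) ∪ σ := by
            ext x
            simp only [Finset.mem_insert, Finset.mem_union, Finset.mem_singleton]
            tauto
          rw [e2]
          exact h2
    rw [e1, Finset.compl_singleton]
    symm
    rw [← Finset.add_sum_erase Finset.univ _ (Finset.mem_univ u), if_pos rfl, zero_add]
    refine Finset.sum_congr rfl fun w hw => ?_
    rw [if_neg (Finset.mem_erase.1 hw).1, Finset.insert_eq]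
  rw [Finset.sum_congr rfl s2, ← Finset.sum_product'] at s1
  have s3 : ∑ p ∈ S ×ˢ S, (if p.2 = p.1 then (0 : ZMod 2) else b {p.2, p.1}) = 0 := by
    refine Finset.sum_involution (fun p _ => (p.2, p.1)) ?_ ?_ ?_ ?_
    · intro p _
      by_cases hp : p.2 = p.1
      · rw [if_pos hp, if_pos hp.symm, add_zero]
      · rw [if_neg hp, if_neg (Ne.symm hp), Finset.pair_comm]
        exact CharTwo.add_self_eq_zero _
    · intro p _ hp e
      apply hp
      rw [if_pos (congrArg Prod.fst e)]
    · intro p hp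
      rw [Finset.mem_product] at hp ⊢
      exact ⟨hp.2, hp.1⟩
    · intro p _
      rfl
  rw [s3] at s1
  exact zero_ne_one s1

/-- double counting: `2 E = 3 F` in the link of a face of codimension 3 -/
theorem Cor_double {d : ℕ} {K : Finset (Finset (Fin N))} (h : Sph d K) {σ : Finset (Fin N)}
    (hc : σ.card + 3 = d) :
    3 * ((lk K σ).filter fun τ => τ.card = 3).card =
      2 * ((lk K σ).filter fun τ => τ.card = 2).card := by
  classical
  have h1 : ∀ τ ∈ (lk K σ).filter (fun τ => τ.card = 3),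
      (((lk K σ).filter fun τ => τ.card = 2).bipartiteBelow (fun ρ τ => ρ ⊆ τ) τ).card = 3 := by
    intro τ hτ
    rw [Finset.mem_filter] at hτ
    have e : ((lk K σ).filter fun τ => τ.card = 2).bipartiteBelow (fun ρ τ => ρ ⊆ τ) τ
        = τ.powersetCard 2 := by
      ext ρ
      rw [Finset.mem_bipartiteBelow, Finset.mem_filter, Finset.mem_powersetCard]
      constructor
      · exact fun hh => ⟨hh.2, hh.1.2⟩
      · exact fun hh => ⟨⟨lk_DC h.1 σ τ hτ.1 ρ hh.1, hh.2⟩, hh.1⟩
    rw [e, Finset.card_powersetCard, hτ.2]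
    rfl
  have h2 : ∀ ρ ∈ (lk K σ).filter (fun τ => τ.card = 2),
      (((lk K σ).filter fun τ => τ.card = 3).bipartiteAbove (fun ρ τ => ρ ⊆ τ) ρ).card = 2 := by
    intro ρ hρ
    rw [Finset.mem_filter, mem_lk] at hρ
    obtain ⟨⟨hd, hK⟩, h2⟩ := hρ
    have hr := ridge h hK (by
      rw [Finset.card_union_of_disjoint hd]
      omega)
    rw [← hr]
    symm
    refine Finset.card_bij (fun v _ => insert v ρ) ?_ ?_ ?_
    · intro v hv
      rw [Finset.mem_filter, Finset.mem_union, not_or] at hv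
      obtain ⟨_, ⟨hv1, hv2⟩, hv3⟩ := hv
      rw [Finset.mem_bipartiteAbove, Finset.mem_filter, mem_lk, Finset.card_insert_of_notMem hv1, h2]
      refine ⟨⟨⟨?_, ?_⟩, rfl⟩, Finset.subset_insert _ _⟩
      · rw [Finset.disjoint_insert_left]
        exact ⟨hv2, hd⟩
      · rwa [Finset.insert_union]
    · intro v hv w hw e
      rw [Finset.mem_filter, Finset.mem_union, not_or] at hv hw
      have h3 : v ∈ insert w ρ := e ▸ Finset.mem_insert_self v ρ
      rcases Finset.mem_insert.1 h3 with h3 | h3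
      · exact h3
      · exact absurd h3 hv.2.1.1
    · intro τ hτ
      rw [Finset.mem_bipartiteAbove, Finset.mem_filter, mem_lk] at hτ
      obtain ⟨⟨⟨hd2, hK2⟩, h3⟩, hs⟩ := hτ
      obtain ⟨v, hv⟩ := Finset.card_eq_one.1 (show (τ \ ρ).card = 1 by
        rw [Finset.card_sdiff_of_subset hs, h3, h2])
      have hv1 : v ∈ τ ∧ v ∉ ρ := Finset.mem_sdiff.1 (hv ▸ Finset.mem_singleton_self v)
      have hτe : insert v ρ = τ := by
        rw [Finset.insert_eq, ← hv, Finset.sdiff_union_of_subset hs]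
      refine ⟨v, ?_, hτe⟩
      rw [Finset.mem_filter, Finset.mem_union, not_or]
      refine ⟨Finset.mem_univ v, ⟨hv1.2, Finset.disjoint_left.1 hd2 hv1.1⟩, ?_⟩
      rw [← Finset.insert_union, hτe]
      exact hK2
  have h3 := Finset.sum_card_bipartiteAbove_eq_sum_card_bipartiteBelow (fun ρ τ => ρ ⊆ τ)
    (s := (lk K σ).filter fun τ => τ.card = 2) (t := (lk K σ).filter fun τ => τ.card = 3)
  rw [Finset.sum_congr rfl h1, Finset.sum_congr rfl h2, Finset.sum_const, Finset.sum_const,
    smul_eq_mul, smul_eq_mul] at h3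
  omega

/-- the link of a face of codimension 3 has `2 V - 4` triangles -/
theorem link_tri {d : ℕ} {K : Finset (Finset (Fin N))} (h : Sph d K) {σ : Finset (Fin N)}
    (hσ : σ ∈ K) (hc : σ.card + 3 = d) :
    ((lk K σ).filter fun τ => τ.card = 3).card + 4 =
      2 * ((lk K σ).filter fun τ => τ.card = 1).card := by
  have h1 := Cor_euler h hσ hc
  have h2 := Cor_double h hc
  rw [Finset.sum_range_succ, Finset.sum_range_succ, Finset.sum_range_succ, Finset.sum_range_one,
    Cor_card_zero (by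
      rw [mem_lk]
      exact ⟨Finset.disjoint_empty_left _, by rwa [Finset.empty_union]⟩)] at h1
  norm_num at h1
  omega

end H40.VT
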