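import Pool.Agent.H40.VT.Viet
import Pool.Agent.H40.VT.Carrier

/-!
# Definitions for the topological part

`|K|` homeomorphic to `S^(d-1)` implies that all links are homology spheres.
-/

namespace H40.VT

variable {R : Type*} [CommRing R] {X Y : Type*} {N : ℕ}

/-- every cycle of lists of length `n` of the metric space `X` is a boundary (pro-version) -/
def Pro (R : Type*) [CommRing R] (X : Type*) [PseudoMetricSpace X] (n : ℕ) : Prop :=
  ∀ ε > 0, ∃ δ > 0, ∀ c : Ch R X, c ∈ In (V X δ) → c ∈ Len n → bd c = 0 →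
    ∃ b ∈ In (V X ε), bd b = c

/-- every cycle of lists of length `n` of the family `F` is a boundary -/
def AcyN (R : Type*) [CommRing R] (F : Set (Set X)) (n : ℕ) : Prop :=
  ∀ c : Ch R X, c ∈ In F → c ∈ Len n → bd c = 0 → ∃ b ∈ In F, bd b = c

/-- the homology of `F` in the length `n` is free of rank one -/
def OneN (R : Type*) [CommRing R] (F : Set (Set X)) (n : ℕ) : Prop :=
  ∃ z : Ch R X, z ∈ In F ∧ z ∈ Len n ∧ bd z = 0 ∧
    (∀ r : R, ∀ b ∈ In F, bd b = r • z → r = 0) ∧
    ∀ c : Ch R X, c ∈ In F → c ∈ Len n → bd c = 0 → ∃ r : R, ∃ b ∈ In F, bd b = c - r • z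

/-- closed under subsets -/
def DC (K : Finset (Finset (Fin N))) : Prop := ∀ σ ∈ K, ∀ τ : Finset (Fin N), τ ⊆ σ → τ ∈ K

/-- the realization (literally as in the frozen statement) -/
def Re (K : Finset (Finset (Fin N))) : Set (EuclideanSpace ℝ (Fin N)) :=
  ⋃ σ ∈ K, convexHull ℝ
    ((fun i : Fin N => EuclideanSpace.single i (1 : ℝ)) '' (↑σ : Set (Fin N)))

/-- the family of sets of vertices of a complex -/
def Fam (K : Finset (Finset (Fin N))) : Set (Set (Fin N)) := {A | ∃ σ ∈ K, A ⊆ ↑σ}

/-- the faces which do not contain `σ` -/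
def del (K : Finset (Finset (Fin N))) (σ : Finset (Fin N)) : Finset (Finset (Fin N)) :=
  K.filter fun τ => ¬ σ ⊆ τ

/-- the link of `σ` -/
def lk (K : Finset (Finset (Fin N))) (σ : Finset (Fin N)) : Finset (Finset (Fin N)) :=
  Finset.univ.filter fun τ => Disjoint τ σ ∧ τ ∪ σ ∈ K

/-- the boundary of functions on finite sets: oriented chains, signs from the order of `Fin N` -/
def obd (c : Finset (Fin N) → R) : Finset (Fin N) → R :=
  fun τ => ∑ v ∈ τᶜ, (-1) ^ (τ.filter fun u => u < v).card * c (insert v τ)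

/-- the function `c` is an oriented chain of faces of `L` with `n` vertices -/
def OIn (L : Finset (Finset (Fin N))) (n : ℕ) (c : Finset (Fin N) → R) : Prop :=
  ∀ σ, c σ ≠ 0 → σ ∈ L ∧ σ.card = n

/-- homology in the degree of faces with `n` vertices is zero (oriented chains) -/
def OAcy (R : Type*) [CommRing R] (L : Finset (Finset (Fin N))) (n : ℕ) : Prop :=
  ∀ c : Finset (Fin N) → R, OIn L n c → obd c = 0 → ∃ b, OIn L (n + 1) b ∧ obd b = c

/-- homology in the degree of faces with `n` vertices is free of rank one (oriented chains) -/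
def OOne (R : Type*) [CommRing R] (L : Finset (Finset (Fin N))) (n : ℕ) : Prop :=
  ∃ z : Finset (Fin N) → R, OIn L n z ∧ obd z = 0 ∧
    (∀ r : R, ∀ b, OIn L (n + 1) b → obd b = r • z → r = 0) ∧
    ∀ c : Finset (Fin N) → R, OIn L n c → obd c = 0 → ∃ r : R, ∃ b, OIn L (n + 1) b ∧
      obd b = c - r • z

end H40.VT
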