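import Pool.Agent.H40.VT.Defs

/-!
# Homology of vertex links
-/

namespace H40.VT

open Classical

variable {R : Type*} [CommRing R] {X : Type*}

/-- the sets of the family without the point `v` -/
def Fdel (F : Set (Set X)) (v : X) : Set (Set X) := {A ∈ F | v ∉ A}

/-- the link of the point `v` -/
def Flk (F : Set (Set X)) (v : X) : Set (Set X) := {A | v ∉ A ∧ insert v A ∈ F}

/-- local acyclicity: the sets which do not contain a given nonempty set of the family form an
acyclic family -/
def LA (R : Type*) [CommRing R] (F : Set (Set X)) : Prop :=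
  ∀ A ∈ F, A.Nonempty → Acy R {B ∈ F | ¬ A ⊆ B}

/-- the lists without `v` -/
noncomputable def nov (v : X) : Ch R X →ₗ[R] Ch R X := prt (fun l => v ∉ l)

theorem nov_s (v : X) (l : List X) : nov v (s l : Ch R X) = if v ∉ l then s l else 0 := prt_s _ _

/-- the residue of a list at `v` -/
noncomputable def resL (v : X) : List X → Ch R X
  | [] => 0
  | x :: l => if x = v then nov v (s l) else - cone x (resL v l)

/-- the residue at `v` -/
noncomputable def res (v : X) : Ch R X →ₗ[R] Ch R X := lext (resL v)

theorem res_nil (v : X) : res v (s ([] : List X) : Ch R X) = 0 := by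
  unfold res
  rw [lext_s]
  rfl

theorem res_cons_self (v : X) (l : List X) : res v (s (v :: l) : Ch R X) = nov v (s l) := by
  unfold res
  rw [lext_s]
  simp [resL]

theorem res_cons_ne {v x : X} (h : x ≠ v) (l : List X) :
    res v (s (x :: l) : Ch R X) = - cone x (res v (s l)) := by
  unfold res
  rw [lext_s, lext_s]
  simp [resL, h]

theorem res_cone_self (v : X) (c : Ch R X) : res v (cone v c) = nov v c := by
  have h : res v ∘ₗ cone v = (nov v : Ch R X →ₗ[R] Ch R X) := by
    apply ext_s
    intro l
    rw [LinearMap.comp_apply, cone_s, res_cons_self]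
  exact LinearMap.congr_fun h c

theorem res_cone_ne {v x : X} (hx : x ≠ v) (c : Ch R X) : res v (cone x c) = - cone x (res v c) := by
  have h : res v ∘ₗ cone x = - (cone x ∘ₗ (res v : Ch R X →ₗ[R] Ch R X)) := by
    apply ext_s
    intro l
    rw [LinearMap.comp_apply, cone_s, res_cons_ne hx, LinearMap.neg_apply, LinearMap.comp_apply]
  exact LinearMap.congr_fun h c

theorem nov_cone_self (v : X) (c : Ch R X) : nov v (cone v c) = 0 := by
  have h : nov v ∘ₗ cone v = (0 : Ch R X →ₗ[R] Ch R X) := by
    apply ext_s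
    intro l
    rw [LinearMap.comp_apply, cone_s, nov_s]
    simp
  exact LinearMap.congr_fun h c

theorem nov_cone_ne {v x : X} (hx : x ≠ v) (c : Ch R X) : nov v (cone x c) = cone x (nov v c) := by
  have h : nov v ∘ₗ cone x = cone x ∘ₗ (nov v : Ch R X →ₗ[R] Ch R X) := by
    apply ext_s
    intro l
    rw [LinearMap.comp_apply, cone_s, nov_s, LinearMap.comp_apply, nov_s]
    by_cases h : v ∈ l
    · simp [h]
    · simp [h, Ne.symm hx]
  exact LinearMap.congr_fun h c

/-- deleting an entry `v` -/
theorem nov_bd (v : X) (c : Ch R X) : nov v (bd c) - bd (nov v c) = res v c := by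
  have h : nov v ∘ₗ bd - bd ∘ₗ nov v = (res v : Ch R X →ₗ[R] Ch R X) := by
    apply ext_s
    intro l
    rw [LinearMap.sub_apply, LinearMap.comp_apply, LinearMap.comp_apply]
    induction l with
    | nil => simp [nov_s, res_nil]
    | cons x l ih =>
      by_cases hx : x = v
      · subst hx
        rw [res_cons_self, bd_s_cons, map_sub, nov_cone_self]
        have e : nov x (s (x :: l) : Ch R X) = 0 := by
          rw [nov_s]
          simp
        rw [e]
        simp
      · rw [res_cons_ne hx, ← ih, bd_s_cons, map_sub, nov_cone_ne hx]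
        have e : nov v (s (x :: l) : Ch R X) = cone x (nov v (s l)) := by
          rw [← cone_s, nov_cone_ne hx]
        rw [e, bd_cone, map_sub]
        abel
  exact LinearMap.congr_fun h c

/-- the residue anticommutes with the boundary -/
theorem res_bd (v : X) (c : Ch R X) : res v (bd c) = - bd (res v c) := by
  have h1 := nov_bd v (bd c)
  rw [bd_bd, map_zero, zero_sub] at h1
  have h2 := congrArg bd (nov_bd v c)
  rw [map_sub, bd_bd, sub_zero] at h2
  rw [← h1, ← h2]

theorem res_mem {F : Set (Set X)} (hF : Down F) (v : X) {c : Ch R X} (hc : c ∈ In F) :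
    res v c ∈ In (Flk F v) := by
  have key : ∀ l : List X, res v (s l : Ch R X) ∈ Finsupp.supported R R
      {l' : List X | v ∉ l' ∧ (∀ x ∈ l', x ∈ l) ∧ v ∈ l} := by
    intro l
    induction l with
    | nil =>
      rw [res_nil]
      exact Submodule.zero_mem _
    | cons x l ih =>
      by_cases hx : x = v
      · subst hx
        rw [res_cons_self, nov_s]
        by_cases h : x ∉ l
        · rw [if_pos h]
          apply s_mem_sup
          exact ⟨h, fun y hy => List.mem_cons_of_mem _ hy, List.mem_cons_self⟩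
        · rw [if_neg h]
          exact Submodule.zero_mem _
      · rw [res_cons_ne hx]
        apply Submodule.neg_mem
        refine map_supported ?_ ih
        rintro l' ⟨h1, h2, h3⟩
        rw [cone_s]
        apply s_mem_sup
        refine ⟨?_, ?_, List.mem_cons_of_mem _ h3⟩
        · intro h4
          rcases List.mem_cons.1 h4 with h5 | h5
          · exact hx h5.symm
          · exact h1 h5
        · intro y hy
          rcases List.mem_cons.1 hy with rfl | hy
          · exact List.mem_cons_self
          · exact List.mem_cons_of_mem _ (h2 y hy)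
  refine map_supported ?_ hc
  intro l hl
  refine Finsupp.supported_mono ?_ (key l)
  rintro l' ⟨h1, h2, h3⟩
  refine ⟨h1, ?_⟩
  apply hF _ hl
  intro y hy
  rcases hy with rfl | hy
  · exact h3
  · exact h2 y hy

theorem res_len {n : ℕ} (v : X) {c : Ch R X} (hc : c ∈ Len (n + 1)) : res v c ∈ Len n := by
  have key : ∀ (l : List X) (n : ℕ), l.length = n + 1 → res v (s l : Ch R X) ∈ Len n := by
    intro l
    induction l with
    | nil => intro n h; simp at h
    | cons x l ih =>
      intro n hn
      have hl : l.length = n := by simpa using hn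
      by_cases hx : x = v
      · subst hx
        rw [res_cons_self, nov_s]
        by_cases h : x ∉ l
        · rw [if_pos h]
          exact s_mem_len hl
        · rw [if_neg h]
          exact Submodule.zero_mem _
      · rw [res_cons_ne hx]
        apply Submodule.neg_mem
        cases n with
        | zero =>
          have : l = [] := List.length_eq_zero_iff.1 hl
          subst this
          rw [res_nil, map_zero]
          exact Submodule.zero_mem _
        | succ n =>
          exact cone_len (ih n hl)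
  exact map_supported (fun l hl => key l n hl) hc

theorem nov_mem {F : Set (Set X)} (v : X) {c : Ch R X} (hc : c ∈ In F) : nov v c ∈ In (Fdel F v) := by
  apply map_supported _ hc
  intro l hl
  rw [nov_s]
  by_cases h : v ∉ l
  · rw [if_pos h]
    exact s_mem ⟨hl, h⟩
  · rw [if_neg h]
    exact Submodule.zero_mem _

theorem nov_eq {F : Set (Set X)} {v : X} (hF : ∀ A ∈ F, v ∉ A) {c : Ch R X} (hc : c ∈ In F) :
    nov v c = c := by
  apply prt_eq
  exact Finsupp.supported_mono (fun (l : List X) hl => hF {x | x ∈ l} hl) hc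

theorem res_zero {F : Set (Set X)} {v : X} (hF : ∀ A ∈ F, v ∉ A) {c : Ch R X} (hc : c ∈ In F) :
    res v c = 0 := by
  have h : res v c = (0 : Ch R X →ₗ[R] Ch R X) c := by
    apply eq_supported _ hc
    intro l hl
    have hv : v ∉ l := hF _ hl
    clear hl
    rw [LinearMap.zero_apply]
    induction l with
    | nil => exact res_nil v
    | cons x l ih =>
      have hx : x ≠ v := fun h => hv (by rw [h]; exact List.mem_cons_self)
      rw [res_cons_ne hx, ih (fun h => hv (List.mem_cons_of_mem _ h)), map_zero, neg_zero]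
  exact h

theorem Flk_down {F : Set (Set X)} (hF : Down F) (v : X) : Down (Flk F v) := by
  rintro A ⟨h1, h2⟩ B hB
  exact ⟨fun h => h1 (hB h), hF _ h2 _ (Set.insert_subset_insert hB)⟩

theorem Fdel_down {F : Set (Set X)} (hF : Down F) (v : X) : Down (Fdel F v) := by
  rintro A ⟨h1, h2⟩ B hB
  exact ⟨hF _ h1 _ hB, fun h => h2 (hB h)⟩

theorem Flk_sub_Fdel {F : Set (Set X)} (hF : Down F) (v : X) : Flk F v ⊆ Fdel F v := by
  rintro A ⟨h1, h2⟩
  exact ⟨hF _ h2 _ (Set.subset_insert _ _), h1⟩

/-- a cycle of the link, suspended to a cycle of `F` with the residue `z` -/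
theorem susp0 {F : Set (Set X)} (hF : Down F) {v : X} (hd : Acy R (Fdel F v)) {z : Ch R X}
    (hz : z ∈ In (Flk F v)) (hb : bd z = 0) :
    ∃ c ∈ In F, bd c = 0 ∧ res v c = z := by
  obtain ⟨w, hw1, hw2⟩ := hd z (In_mono (Flk_sub_Fdel hF v) hz) hb
  refine ⟨cone v z - w, ?_, ?_, ?_⟩
  · apply Submodule.sub_mem
    · exact cone_mem (F := Flk F v) (fun A hA => hA.2) hz
    · exact In_mono (fun A hA => hA.1) hw1
  · rw [map_sub, bd_cone, hb, map_zero, sub_zero, hw2, sub_self]
  · rw [map_sub, res_cone_self, nov_eq (fun A hA => hA.1) hz, res_zero (fun A hA => hA.2) hw1,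
      sub_zero]

/-- the homogeneous version -/
theorem susp {F : Set (Set X)} (hF : Down F) {v : X} (hd : Acy R (Fdel F v)) {z : Ch R X}
    (hz : z ∈ In (Flk F v)) (hb : bd z = 0) {n : ℕ} (hn : z ∈ Len n) :
    ∃ c ∈ In F, c ∈ Len (n + 1) ∧ bd c = 0 ∧ res v c = z := by
  obtain ⟨w, hw1, hw2⟩ := hd z (In_mono (Flk_sub_Fdel hF v) hz) hb
  obtain ⟨w', hw3, hw4, hw5⟩ := hom_prim hw1 hn hw2
  refine ⟨cone v z - w', ?_, ?_, ?_, ?_⟩
  · apply Submodule.sub_mem
    · exact cone_mem (F := Flk F v) (fun A hA => hA.2) hz
    · exact In_mono (fun A hA => hA.1) hw3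
  · exact Submodule.sub_mem _ (cone_len hn) hw4
  · rw [map_sub, bd_cone, hb, map_zero, sub_zero, hw5, sub_self]
  · rw [map_sub, res_cone_self, nov_eq (fun A hA => hA.1) hz, res_zero (fun A hA => hA.2) hw3,
      sub_zero]

/-- if the residue of a cycle is a boundary in the link then the cycle is homologous to a cycle of
the deletion -/
theorem move {F : Set (Set X)} (hF : Down F) {v : X} {c u : Ch R X}
    (hc : c ∈ In F) (hb : bd c = 0) (hu : u ∈ In (Flk F v)) (hr : res v c = bd u) :
    ∃ b ∈ In F, ∃ w ∈ In (Fdel F v), bd b = c - w ∧ bd w = 0 := by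
  have h1 := nov_bd v c
  rw [hb, map_zero, zero_sub] at h1
  refine ⟨cone v (c - nov v c) - cone v u, ?_, nov v c + u, ?_, ?_, ?_⟩
  · apply Submodule.sub_mem
    · have e : c - nov v c = prt (fun l => ¬ (v ∉ l)) c := by
        have h2 := prt_add_not (P := fun l => v ∉ l) c
        unfold nov
        rw [sub_eq_iff_eq_add]
        rw [add_comm]
        exact h2.symm
      rw [e]
      have h3 := prt_mem (P := fun l => ¬ (v ∉ l)) hc
      refine map_supported ?_ h3
      rintro l ⟨h4, h5⟩
      rw [cone_s]
      apply s_mem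
      have h6 : {x | x ∈ v :: l} = {x | x ∈ l} := by
        ext x
        constructor
        · intro hx
          rcases List.mem_cons.1 hx with rfl | hx
          · exact not_not.1 h5
          · exact hx
        · intro hx
          exact List.mem_cons_of_mem _ hx
      rw [h6]
      exact h4
    · exact cone_mem (F := Flk F v) (fun A hA => hA.2) hu
  · exact Submodule.add_mem _ (nov_mem v hc) (In_mono (Flk_sub_Fdel hF v) hu)
  · rw [map_sub, bd_cone, bd_cone, map_sub, hb, zero_sub, h1, ← hr]
    abel
  · rw [map_add, ← hr, ← h1]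
    abel

theorem Acy_link {F : Set (Set X)} (hF : Down F) {v : X} (hd : Acy R (Fdel F v))
    (h : Acy R F) : Acy R (Flk F v) := by
  intro z hz hb
  obtain ⟨c, hc1, hc2, hc3⟩ := susp0 hF hd hz hb
  obtain ⟨b, hb1, hb2⟩ := h c hc1 hc2
  refine ⟨- res v b, Submodule.neg_mem _ (res_mem hF v hb1), ?_⟩
  rw [map_neg, ← res_bd, hb2, hc3]

theorem AcyN_of_link {F : Set (Set X)} (hF : Down F) {v : X} (hd : Acy R (Fdel F v)) {n : ℕ}
    (h : AcyN R (Flk F v) n) : AcyN R F (n + 1) := by
  intro c hc hn hb
  obtain ⟨u, hu1, hu2⟩ := h (res v c) (res_mem hF v hc) (res_len v hn) (by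
    have := res_bd v c
    rw [hb, map_zero] at this
    rw [← neg_eq_zero, ← this])
  obtain ⟨b, hb1, w, hw1, hb2, hw2⟩ := move hF hc hb hu1 hu2.symm
  obtain ⟨b', hb3, hb4⟩ := hd w hw1 hw2
  refine ⟨b + b', Submodule.add_mem _ hb1 (In_mono (fun A hA => hA.1) hb3), ?_⟩
  rw [map_add, hb2, hb4, sub_add_cancel]

theorem OneN_of_link {F : Set (Set X)} (hF : Down F) {v : X} (hd : Acy R (Fdel F v)) {n : ℕ}
    (h : OneN R (Flk F v) n) : OneN R F (n + 1) := by
  obtain ⟨z, hz1, hz2, hz3, hz4, hz5⟩ := h
  obtain ⟨c0, h1, h2, h3, h4⟩ := susp hF hd hz1 hz3 hz2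
  refine ⟨c0, h1, h2, h3, ?_, ?_⟩
  · intro r b hb1 hb2
    apply hz4 r (- res v b) (Submodule.neg_mem _ (res_mem hF v hb1))
    rw [map_neg, ← res_bd, hb2, map_smul, h4]
  · intro c hc1 hc2 hc3
    obtain ⟨r, u, hu1, hu2⟩ := hz5 (res v c) (res_mem hF v hc1) (res_len v hc2) (by
      have := res_bd v c
      rw [hc3, map_zero] at this
      rw [← neg_eq_zero, ← this])
    obtain ⟨b, hb1, w, hw1, hb2, hw2⟩ := move hF (v := v) (c := c - r • c0) (u := u)
      (Submodule.sub_mem _ hc1 (Submodule.smul_mem _ _ h1)) (by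
        rw [map_sub, map_smul, hc3, h3, smul_zero, sub_zero]) hu1 (by
        rw [map_sub, map_smul, h4, hu2])
    obtain ⟨b', hb3, hb4⟩ := hd w hw1 hw2
    refine ⟨r, b + b', Submodule.add_mem _ hb1 (In_mono (fun A hA => hA.1) hb3), ?_⟩
    rw [map_add, hb2, hb4, sub_add_cancel]

theorem Fdel_eq {F : Set (Set X)} (v : X) : {B ∈ F | ¬ {v} ⊆ B} = Fdel F v := by
  ext B
  simp [Fdel]

theorem LA_link {F : Set (Set X)} (hF : Down F) (h : LA R F) (v : X) : LA R (Flk F v) := by
  rintro A ⟨hvA, hA⟩ hne
  obtain ⟨M, hM⟩ : ∃ M, M = {C ∈ F | ¬ insert v A ⊆ C} := ⟨_, rfl⟩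
  have hMd : Down M := by
    rw [hM]
    rintro C ⟨h1, h2⟩ B hB
    exact ⟨hF _ h1 _ hB, fun h3 => h2 (h3.trans hB)⟩
  have h1 : Acy R M := by
    rw [hM]
    exact h _ hA (Set.insert_nonempty _ _)
  have hv : {v} ∈ F := hF _ hA _ (by
    intro x hx
    exact Or.inl hx)
  have h2 : Acy R (Fdel M v) := by
    have e : Fdel M v = {B ∈ F | ¬ {v} ⊆ B} := by
      rw [Fdel_eq, hM]
      ext B
      constructor
      · rintro ⟨⟨g1, -⟩, g3⟩
        exact ⟨g1, g3⟩
      · rintro ⟨g1, g3⟩
        exact ⟨⟨g1, fun g4 => g3 (g4 (Or.inl rfl))⟩, g3⟩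
    rw [e]
    exact h _ hv (Set.singleton_nonempty _)
  have h3 := Acy_link hMd h2 h1
  have e : {B ∈ Flk F v | ¬ A ⊆ B} = Flk M v := by
    rw [hM]
    ext B
    constructor
    · rintro ⟨⟨g1, g2⟩, g3⟩
      refine ⟨g1, g2, fun g4 => g3 ?_⟩
      intro x hx
      rcases g4 (Or.inr hx) with rfl | g5
      · exact absurd hx hvA
      · exact g5
    · rintro ⟨g1, g2, g3⟩
      exact ⟨⟨g1, g2⟩, fun g4 => g3 (Set.insert_subset_insert g4)⟩
  rw [e]
  exact h3

theorem nil_of_len {c : Ch R X} (hc : c ∈ Len 0) : c = c [] • s [] := by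
  ext l
  by_cases hl : l = []
  · subst hl
    unfold s
    simp
  · have h1 : c l = 0 := by
      by_contra h2
      have h3 : l ∈ c.support := Finsupp.mem_support_iff.2 h2
      have h4 : l.length = 0 := hc h3
      exact hl (List.length_eq_zero_iff.1 h4)
    rw [h1]
    unfold s
    simp [Ne.symm hl]

/-- the homology of a locally acyclic family -/
theorem LA_hom {F : Set (Set X)} (hF : Down F) (h : LA R F) {A : Set X} (hA : A ∈ F)
    (hmax : ∀ B ∈ F, A ⊆ B → B = A) (hfin : A.Finite) :
    (∀ n, n ≠ A.ncard → AcyN R F n) ∧ OneN R F A.ncard := by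
  obtain ⟨k, hk⟩ : ∃ k, k = A.ncard := ⟨_, rfl⟩
  rw [← hk]
  induction k generalizing F A with
  | zero =>
    have hA0 : A = ∅ := (Set.ncard_eq_zero hfin).1 hk.symm
    subst hA0
    have hF0 : ∀ l : List X, {x | x ∈ l} ∈ F → l = [] := by
      intro l hl
      have h1 := hmax _ hl (Set.empty_subset _)
      cases l with
      | nil => rfl
      | cons x l =>
        exfalso
        have h2 : x ∈ ({y | y ∈ x :: l} : Set X) := List.mem_cons_self
        rw [h1] at h2
        exact h2
    constructor
    · intro n hn c hc hcn _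
      refine ⟨0, Submodule.zero_mem _, ?_⟩
      rw [map_zero]
      ext l
      by_contra h2
      have h3 : l ∈ c.support := Finsupp.mem_support_iff.2 (fun h4 => h2 (by rw [h4]; rfl))
      have h4 : l = [] := hF0 l (hc h3)
      have h5 : l.length = n := hcn h3
      rw [h4] at h5
      exact hn h5.symm
    · refine ⟨s [], s_mem (by simpa using hA), s_mem_len rfl, bd_nil, ?_, ?_⟩
      · intro r b hb1 hb2
        have h1 : bd b = 0 := by
          have h2 : bd b = (0 : Ch R X →ₗ[R] Ch R X) b := by
            apply eq_supported _ hb1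
            intro l hl
            rw [hF0 l hl]
            simp
          exact h2
        rw [h1] at hb2
        have h3 := congrArg (fun c : Ch R X => c []) hb2
        unfold s at h3
        simpa using h3.symm
      · intro c hc1 hc2 hc3
        refine ⟨c [], 0, Submodule.zero_mem _, ?_⟩
        rw [map_zero]
        conv_rhs =>
          arg 1
          rw [nil_of_len hc2]
        rw [sub_self]
  | succ k ih =>
    have hne : A.Nonempty := by
      rw [Set.nonempty_iff_ne_empty]
      intro h1
      rw [h1, Set.ncard_empty] at hk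
      omega
    obtain ⟨v, hv⟩ := hne
    have hvF : {v} ∈ F := hF _ hA _ (by simpa using hv)
    have hins : insert v (A \ {v}) = A := by
      rw [Set.insert_diff_singleton, Set.insert_eq_of_mem hv]
    have hd : Acy R (Fdel F v) := by
      rw [← Fdel_eq]
      exact h _ hvF (Set.singleton_nonempty _)
    obtain ⟨i1, i2⟩ := ih (F := Flk F v) (A := A \ {v}) (Flk_down hF v) (LA_link hF h v)
      ⟨fun h1 => h1.2 rfl, by rw [hins]; exact hA⟩ (by
        rintro B ⟨g1, g2⟩ g3
        have g4 := hmax _ g2 (by
          intro x hx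
          by_cases hxv : x = v
          · exact Or.inl hxv
          · exact Or.inr (g3 ⟨hx, hxv⟩))
        rw [← g4]
        ext x
        constructor
        · intro hx
          refine ⟨Or.inr hx, ?_⟩
          rintro rfl
          exact g1 hx
        · rintro ⟨hx | hx, hx2⟩
          · exact absurd hx hx2
          · exact hx) (hfin.subset Set.diff_subset) (by
        rw [Set.ncard_diff_singleton_of_mem hv, ← hk]
        rfl)
    constructor
    · intro n hn
      cases n with
      | zero =>
        intro c hc hcn _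
        refine ⟨c [] • s [v], Submodule.smul_mem _ _ (s_mem ?_), ?_⟩
        · have e : ({x | x ∈ [v]} : Set X) = {v} := by
            ext x
            simp
          rw [e]
          exact hvF
        · rw [map_smul]
          conv_rhs => rw [nil_of_len hcn]
          simp
      | succ n => exact AcyN_of_link hF hd (i1 n (by omega))
    · exact OneN_of_link hF hd i2

end H40.VT
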