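import Pool.Agent.H40.VT.Defs

/-!
# Oriented chains
-/

namespace H40.VT

variable {R : Type*} [CommRing R] {N : ℕ}

/-- put the point `x` in front (oriented chains) -/
def ordIns (x : Fin N) : (Finset (Fin N) → R) →ₗ[R] (Finset (Fin N) → R) where
  toFun c := fun τ => if x ∈ τ then (-1) ^ (τ.filter fun u => u < x).card * c (τ.erase x) else 0
  map_add' a b := by
    funext τ
    simp only [Pi.add_apply]
    split_ifs
    · ring
    · ring
  map_smul' r a := by
    funext τ
    simp only [Pi.smul_apply, smul_eq_mul, RingHom.id_apply]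
    split_ifs
    · ring
    · ring

theorem ordIns_apply (x : Fin N) (c : Finset (Fin N) → R) (τ : Finset (Fin N)) :
    ordIns x c τ =
      if x ∈ τ then (-1) ^ (τ.filter fun u => u < x).card * c (τ.erase x) else 0 := rfl

/-- the boundary of oriented chains as a linear map -/
def ordB : (Finset (Fin N) → R) →ₗ[R] (Finset (Fin N) → R) where
  toFun := obd
  map_add' a b := by
    funext τ
    simp only [obd, Pi.add_apply, mul_add, Finset.sum_add_distrib]
  map_smul' r a := by
    funext τ
    simp only [obd, Pi.smul_apply, smul_eq_mul, RingHom.id_apply, Finset.mul_sum]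
    exact Finset.sum_congr rfl fun v _ => by ring

theorem ordB_apply (c : Finset (Fin N) → R) : ordB c = obd c := rfl

theorem ord_filter_erase (τ : Finset (Fin N)) (x : Fin N) :
    ((τ.erase x).filter fun u => u < x) = τ.filter fun u => u < x := by
  ext u
  simp only [Finset.mem_filter, Finset.mem_erase]
  constructor
  · rintro ⟨⟨_, h1⟩, h2⟩
    exact ⟨h1, h2⟩
  · rintro ⟨h1, h2⟩
    exact ⟨⟨h2.ne, h1⟩, h2⟩

theorem ord_filter_insert (τ : Finset (Fin N)) (x : Fin N) :
    ((insert x τ).filter fun u => u < x) = τ.filter fun u => u < x := by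
  ext u
  simp only [Finset.mem_filter, Finset.mem_insert]
  constructor
  · rintro ⟨rfl | h1, h2⟩
    · exact absurd h2 (lt_irrefl _)
    · exact ⟨h1, h2⟩
  · rintro ⟨h1, h2⟩
    exact ⟨Or.inr h1, h2⟩

theorem ord_sign_swap {τ : Finset (Fin N)} {x v : Fin N} (hx : x ∈ τ) (hv : v ∉ τ) :
    (-1 : R) ^ (τ.filter fun u => u < v).card * (-1) ^ ((insert v τ).filter fun u => u < x).card =
      -((-1) ^ (τ.filter fun u => u < x).card *
        (-1) ^ ((τ.erase x).filter fun u => u < v).card) := by
  have hne : x ≠ v := fun h => hv (h ▸ hx)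
  rcases lt_or_gt_of_ne hne with h | h
  · have e1 : (τ.filter fun u => u < v) = insert x ((τ.erase x).filter fun u => u < v) := by
      ext u
      simp only [Finset.mem_filter, Finset.mem_insert, Finset.mem_erase]
      constructor
      · rintro ⟨h1, h2⟩
        by_cases hu : u = x
        · exact Or.inl hu
        · exact Or.inr ⟨⟨hu, h1⟩, h2⟩
      · rintro (rfl | ⟨⟨_, h1⟩, h2⟩)
        · exact ⟨hx, h⟩
        · exact ⟨h1, h2⟩
    have e2 : ((insert v τ).filter fun u => u < x) = τ.filter fun u => u < x := by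
      ext u
      simp only [Finset.mem_filter, Finset.mem_insert]
      constructor
      · rintro ⟨rfl | h1, h2⟩
        · exact absurd h2 (not_lt_of_gt h)
        · exact ⟨h1, h2⟩
      · rintro ⟨h1, h2⟩
        exact ⟨Or.inr h1, h2⟩
    rw [e1, e2, Finset.card_insert_of_notMem (by simp), pow_succ]
    ring
  · have e1 : ((insert v τ).filter fun u => u < x) = insert v (τ.filter fun u => u < x) := by
      ext u
      simp only [Finset.mem_filter, Finset.mem_insert]
      constructor
      · rintro ⟨rfl | h1, h2⟩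
        · exact Or.inl rfl
        · exact Or.inr ⟨h1, h2⟩
      · rintro (rfl | ⟨h1, h2⟩)
        · exact ⟨Or.inl rfl, h⟩
        · exact ⟨Or.inr h1, h2⟩
    have e2 : (τ.filter fun u => u < v) = (τ.erase x).filter fun u => u < v := by
      ext u
      simp only [Finset.mem_filter, Finset.mem_erase]
      constructor
      · rintro ⟨h1, h2⟩
        refine ⟨⟨?_, h1⟩, h2⟩
        rintro rfl
        exact absurd h2 (not_lt_of_gt h)
      · rintro ⟨⟨_, h1⟩, h2⟩
        exact ⟨h1, h2⟩
    rw [e1, e2, Finset.card_insert_of_notMem (by simp [hv]), pow_succ]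
    ring

theorem ord_neg_one_sq (n : ℕ) : (-1 : R) ^ n * (-1) ^ n = 1 := by
  rw [← mul_pow, neg_mul_neg, one_mul, one_pow]

theorem ord_obd_ins (x : Fin N) (c : Finset (Fin N) → R) :
    obd (ordIns x c) = c - ordIns x (obd c) := by
  funext τ
  rw [Pi.sub_apply, ordIns_apply]
  by_cases hx : x ∈ τ
  · rw [if_pos hx]
    have h1 : (τ.erase x)ᶜ = insert x τᶜ := by
      ext u
      simp only [Finset.mem_compl, Finset.mem_erase, Finset.mem_insert]
      by_cases hu : u = x
      · simp [hu]
      · simp [hu]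
    have h2 : x ∉ τᶜ := by simp [hx]
    unfold obd
    rw [h1, Finset.sum_insert h2, Finset.insert_erase hx, ord_filter_erase, mul_add, ← mul_assoc,
      ord_neg_one_sq, one_mul, sub_add_eq_sub_sub, sub_self, zero_sub, Finset.mul_sum,
      ← Finset.sum_neg_distrib]
    apply Finset.sum_congr rfl
    intro v hv
    have hv' : v ∉ τ := by simpa using hv
    have hne : v ≠ x := fun h => hv' (h ▸ hx)
    rw [ordIns_apply, if_pos (Finset.mem_insert_of_mem hx), ← mul_assoc, ord_sign_swap hx hv',
      Finset.erase_insert_of_ne hne]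
    ring
  · rw [if_neg hx, sub_zero]
    unfold obd
    rw [Finset.sum_eq_single x]
    · rw [ordIns_apply, if_pos (Finset.mem_insert_self _ _), ord_filter_insert,
        Finset.erase_insert hx, ← mul_assoc, ord_neg_one_sq, one_mul]
    · intro v _ hv
      rw [ordIns_apply, if_neg, mul_zero]
      intro h
      rcases Finset.mem_insert.1 h with h | h
      · exact hv h.symm
      · exact hx h
    · intro h
      exact absurd (by simpa using hx) h

/-- the oriented chain of a list -/
def ordPhiL : List (Fin N) → (Finset (Fin N) → R)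
  | [] => Pi.single ∅ 1
  | x :: l => ordIns x (ordPhiL l)

/-- ordered chains to oriented chains -/
noncomputable def ordPhi : Ch R (Fin N) →ₗ[R] (Finset (Fin N) → R) := lext ordPhiL

theorem ordPhi_s (l : List (Fin N)) : ordPhi (R := R) (s l) = ordPhiL l := lext_s _ _

theorem ordPhi_cone (x : Fin N) (c : Ch R (Fin N)) :
    ordPhi (cone x c) = ordIns x (ordPhi c) := by
  have h : ordPhi ∘ₗ cone x = ordIns x ∘ₗ (ordPhi : Ch R (Fin N) →ₗ[R] _) := by
    apply ext_s
    intro l
    rw [LinearMap.comp_apply, LinearMap.comp_apply, cone_s, ordPhi_s, ordPhi_s]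
    rfl
  exact LinearMap.congr_fun h c

theorem ord_obd_single : obd (Pi.single ∅ 1 : Finset (Fin N) → R) = 0 := by
  funext τ
  unfold obd
  rw [Pi.zero_apply]
  apply Finset.sum_eq_zero
  intro v _
  rw [Pi.single_eq_of_ne (Finset.insert_ne_empty _ _), mul_zero]

theorem ordPhi_bd (c : Ch R (Fin N)) : ordPhi (bd c) = obd (ordPhi c) := by
  have h : ordPhi ∘ₗ bd = ordB ∘ₗ (ordPhi : Ch R (Fin N) →ₗ[R] _) := by
    apply ext_s
    intro l
    induction l with
    | nil =>
      rw [LinearMap.comp_apply, LinearMap.comp_apply, bd_nil, map_zero, ordPhi_s, ordB_apply]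
      exact ord_obd_single.symm
    | cons x l ih =>
      rw [LinearMap.comp_apply, LinearMap.comp_apply] at ih ⊢
      rw [bd_s_cons, map_sub, ordPhi_cone, ih, ordPhi_s, ordPhi_s, ordB_apply, ordB_apply]
      exact (ord_obd_ins x _).symm
  exact LinearMap.congr_fun h c

theorem ordPhiL_supp (l : List (Fin N)) (τ : Finset (Fin N)) (h : ordPhiL (R := R) l τ ≠ 0) :
    l.toFinset = τ ∧ τ.card = l.length := by
  induction l generalizing τ with
  | nil =>
    by_cases h0 : τ = ∅
    · subst h0
      simp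
    · exfalso
      apply h
      exact Pi.single_eq_of_ne h0 _
  | cons x l ih =>
    have h1 : ordPhiL (R := R) (x :: l) τ =
        if x ∈ τ then (-1) ^ (τ.filter fun u => u < x).card * ordPhiL (R := R) l (τ.erase x)
          else 0 := rfl
    rw [h1] at h
    split_ifs at h with hx
    · obtain ⟨g1, g2⟩ := ih (τ.erase x) (right_ne_zero_of_mul h)
      constructor
      · rw [List.toFinset_cons, g1, Finset.insert_erase hx]
      · rw [List.length_cons, ← g2, Finset.card_erase_add_one hx]
    · exact absurd rfl h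

theorem ordPhi_OIn {L : Finset (Finset (Fin N))} (hL : DC L) {n : ℕ} {c : Ch R (Fin N)}
    (h1 : c ∈ In (Fam L)) (h2 : c ∈ Len n) : OIn L n (ordPhi c) := by
  have h3 : c ∈ Finsupp.supported R R
      {l : List (Fin N) | {x | x ∈ l} ∈ Fam L ∧ l.length = n} :=
    fun l hl => ⟨h1 hl, h2 hl⟩
  intro τ hτ
  by_contra hno
  apply hτ
  have h4 : (LinearMap.proj τ ∘ₗ ordPhi) c = (0 : Ch R (Fin N) →ₗ[R] R) c := by
    apply eq_supported _ h3
    rintro l ⟨hl1, hl2⟩
    rw [LinearMap.comp_apply, ordPhi_s, LinearMap.proj_apply, LinearMap.zero_apply]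
    by_contra hne
    obtain ⟨g1, g2⟩ := ordPhiL_supp l τ hne
    apply hno
    constructor
    · obtain ⟨σ, hσ, hs⟩ := hl1
      apply hL σ hσ
      intro x hx
      rw [← g1, List.mem_toFinset] at hx
      exact hs hx
    · rw [g2, hl2]
  exact h4

/-- the sorted list of a set -/
noncomputable def ordSort (τ : Finset (Fin N)) : List (Fin N) := τ.sort (· ≤ ·)

theorem ordSort_toFinset (τ : Finset (Fin N)) : (ordSort τ).toFinset = τ := by
  unfold ordSort
  simp

theorem ordSort_sorted (τ : Finset (Fin N)) : (ordSort τ).Pairwise (· < ·) := by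
  unfold ordSort
  exact τ.sortedLT_sort.pairwise

theorem ordSort_length (τ : Finset (Fin N)) : (ordSort τ).length = τ.card := by
  unfold ordSort
  simp

theorem ordSort_of {l : List (Fin N)} (h : l.Pairwise (· < ·)) : ordSort l.toFinset = l := by
  unfold ordSort
  apply List.Perm.eq_of_pairwise (le := (· ≤ ·))
  · intro a b _ _ h1 h2
    exact le_antisymm h1 h2
  · exact (l.toFinset.sortedLT_sort.pairwise).imp fun h => h.le
  · exact h.imp fun h => h.le
  · exact (Finset.sort_perm_toList _ _).trans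
      (List.toFinset_toList (h.imp fun h => h.ne))

theorem ordPhiL_sorted {l : List (Fin N)} (h : l.Pairwise (· < ·)) :
    ordPhiL (R := R) l = Pi.single l.toFinset 1 := by
  induction l with
  | nil => rfl
  | cons x l ih =>
    obtain ⟨h1, h2⟩ := List.pairwise_cons.1 h
    have hx : x ∉ l.toFinset := by
      intro hx
      rw [List.mem_toFinset] at hx
      exact lt_irrefl _ (h1 x hx)
    funext τ
    have e : ordPhiL (R := R) (x :: l) τ =
        if x ∈ τ then (-1) ^ (τ.filter fun u => u < x).card * ordPhiL (R := R) l (τ.erase x)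
          else 0 := rfl
    rw [e, ih h2, List.toFinset_cons]
    by_cases hτ : τ = insert x l.toFinset
    · subst hτ
      have h3 : ((insert x l.toFinset).filter fun u => u < x) = ∅ := by
        rw [ord_filter_insert]
        apply Finset.filter_false_of_mem
        intro u hu
        rw [List.mem_toFinset] at hu
        exact not_lt_of_gt (h1 u hu)
      rw [if_pos (Finset.mem_insert_self _ _), Finset.erase_insert hx, h3, Finset.card_empty,
        pow_zero, one_mul, Pi.single_eq_same, Pi.single_eq_same]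
    · rw [Pi.single_eq_of_ne hτ]
      split_ifs with hxτ
      · rw [Pi.single_eq_of_ne, mul_zero]
        intro h4
        apply hτ
        rw [← h4, Finset.insert_erase hxτ]
      · rfl

/-- oriented chains to ordered chains -/
noncomputable def ordPsi : (Finset (Fin N) → R) →ₗ[R] Ch R (Fin N) where
  toFun c := ∑ τ, c τ • s (ordSort τ)
  map_add' a b := by
    simp only [Pi.add_apply, add_smul, Finset.sum_add_distrib]
  map_smul' r a := by
    simp only [Pi.smul_apply, smul_eq_mul, RingHom.id_apply, Finset.smul_sum, mul_smul]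

theorem ordPsi_apply (c : Finset (Fin N) → R) : ordPsi c = ∑ τ, c τ • s (ordSort τ) := rfl

theorem ordPhi_ordPsi (c : Finset (Fin N) → R) : ordPhi (ordPsi c) = c := by
  rw [ordPsi_apply, map_sum]
  funext τ
  rw [Finset.sum_apply, Finset.sum_eq_single τ]
  · rw [map_smul, ordPhi_s, ordPhiL_sorted (ordSort_sorted τ), ordSort_toFinset, Pi.smul_apply,
      Pi.single_eq_same, smul_eq_mul, mul_one]
  · intro σ _ hσ
    rw [map_smul, ordPhi_s, ordPhiL_sorted (ordSort_sorted σ), ordSort_toFinset, Pi.smul_apply,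
      Pi.single_eq_of_ne hσ.symm, smul_zero]
  · intro h
    exact absurd (Finset.mem_univ _) h

theorem ord_bd_sorted {l : List (Fin N)} (h : l.Pairwise (· < ·)) :
    bd (s l : Ch R (Fin N)) = ∑ v ∈ l.toFinset,
      (-1 : R) ^ (l.toFinset.filter fun u => u < v).card • s (l.erase v) := by
  induction l with
  | nil => simp
  | cons x l ih =>
    obtain ⟨h1, h2⟩ := List.pairwise_cons.1 h
    have hx : x ∉ l.toFinset := by
      intro hx
      rw [List.mem_toFinset] at hx
      exact lt_irrefl _ (h1 x hx)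
    have h3 : ((insert x l.toFinset).filter fun u => u < x) = ∅ := by
      rw [ord_filter_insert]
      apply Finset.filter_false_of_mem
      intro u hu
      rw [List.mem_toFinset] at hu
      exact not_lt_of_gt (h1 u hu)
    rw [bd_s_cons, ih h2, List.toFinset_cons, Finset.sum_insert hx, h3, Finset.card_empty,
      pow_zero, one_smul, List.erase_cons_head, sub_eq_add_neg, map_sum, ← Finset.sum_neg_distrib]
    congr 1
    apply Finset.sum_congr rfl
    intro v hv
    have hv' : x < v := h1 v (List.mem_toFinset.1 hv)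
    have e1 : ((insert x l.toFinset).filter fun u => u < v) =
        insert x (l.toFinset.filter fun u => u < v) := by
      ext u
      simp only [Finset.mem_filter, Finset.mem_insert]
      constructor
      · rintro ⟨rfl | h1, h2⟩
        · exact Or.inl rfl
        · exact Or.inr ⟨h1, h2⟩
      · rintro (rfl | ⟨h1, h2⟩)
        · exact ⟨Or.inl rfl, hv'⟩
        · exact ⟨Or.inr h1, h2⟩
    rw [e1, Finset.card_insert_of_notMem (by simp [hx]), map_smul, cone_s, pow_succ, mul_neg_one,
      neg_smul, List.erase_cons_tail]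
    simp [hv'.ne]

theorem ord_bd_sort (τ : Finset (Fin N)) :
    bd (s (ordSort τ) : Ch R (Fin N)) = ∑ v ∈ τ,
      (-1 : R) ^ (τ.filter fun u => u < v).card • s (ordSort (τ.erase v)) := by
  rw [ord_bd_sorted (ordSort_sorted τ), ordSort_toFinset]
  apply Finset.sum_congr rfl
  intro v _
  have h1 : ((ordSort τ).erase v).Pairwise (· < ·) :=
    List.Pairwise.sublist List.erase_sublist (ordSort_sorted τ)
  have h2 : (ordSort τ).Nodup := (ordSort_sorted τ).imp fun h => h.ne
  have h3 : ((ordSort τ).erase v).toFinset = τ.erase v := by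
    ext u
    rw [List.mem_toFinset, h2.mem_erase_iff, Finset.mem_erase, ← List.mem_toFinset,
      ordSort_toFinset]
  rw [← ordSort_of h1, h3]

theorem ordPsi_obd (c : Finset (Fin N) → R) : ordPsi (obd c) = bd (ordPsi c) := by
  rw [ordPsi_apply, ordPsi_apply, map_sum]
  have e1 : ∀ τ : Finset (Fin N), obd c τ • (s (ordSort τ) : Ch R (Fin N)) = ∑ v ∈ τᶜ,
      ((-1) ^ (τ.filter fun u => u < v).card * c (insert v τ)) • s (ordSort τ) := by
    intro τ
    unfold obd
    rw [Finset.sum_smul]
  have e2 : ∀ τ : Finset (Fin N), bd (c τ • (s (ordSort τ) : Ch R (Fin N))) = ∑ v ∈ τ,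
      ((-1) ^ (τ.filter fun u => u < v).card * c τ) • s (ordSort (τ.erase v)) := by
    intro τ
    rw [map_smul, ord_bd_sort, Finset.smul_sum]
    apply Finset.sum_congr rfl
    intro v _
    rw [smul_smul, mul_comm]
  rw [Finset.sum_congr rfl fun τ _ => e1 τ, Finset.sum_congr rfl fun τ _ => e2 τ,
    Finset.sum_sigma', Finset.sum_sigma']
  refine Finset.sum_bij' (fun p _ => ⟨insert p.2 p.1, p.2⟩) (fun p _ => ⟨p.1.erase p.2, p.2⟩)
    ?_ ?_ ?_ ?_ ?_
  · rintro ⟨τ, v⟩ h
    simp
  · rintro ⟨τ, v⟩ h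
    simp
  · rintro ⟨τ, v⟩ h
    simp only [Finset.mem_sigma, Finset.mem_univ, true_and, Finset.mem_compl] at h
    simp [Finset.erase_insert h]
  · rintro ⟨τ, v⟩ h
    simp only [Finset.mem_sigma, Finset.mem_univ, true_and] at h
    simp [Finset.insert_erase h]
  · rintro ⟨τ, v⟩ h
    simp only [Finset.mem_sigma, Finset.mem_univ, true_and, Finset.mem_compl] at h
    simp only
    rw [ord_filter_insert, Finset.erase_insert h]

theorem obd_obd (c : Finset (Fin N) → R) : obd (obd c) = 0 := by
  rw [← ordPhi_ordPsi c, ← ordPhi_bd, ← ordPhi_bd, bd_bd, map_zero]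

theorem ordPsi_In {L : Finset (Finset (Fin N))} {n : ℕ} {c : Finset (Fin N) → R}
    (h : OIn L n c) : ordPsi c ∈ In (Fam L) := by
  rw [ordPsi_apply]
  apply Submodule.sum_mem
  intro τ _
  by_cases h0 : c τ = 0
  · rw [h0, zero_smul]
    exact Submodule.zero_mem _
  · apply Submodule.smul_mem
    apply s_mem
    refine ⟨τ, (h τ h0).1, ?_⟩
    intro x hx
    have h1 : x ∈ ordSort τ := hx
    rw [← List.mem_toFinset, ordSort_toFinset] at h1
    exact h1

theorem ordPsi_Len {L : Finset (Finset (Fin N))} {n : ℕ} {c : Finset (Fin N) → R}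
    (h : OIn L n c) : ordPsi c ∈ Len n := by
  rw [ordPsi_apply]
  apply Submodule.sum_mem
  intro τ _
  by_cases h0 : c τ = 0
  · rw [h0, zero_smul]
    exact Submodule.zero_mem _
  · apply Submodule.smul_mem
    apply s_mem_len
    rw [ordSort_length]
    exact (h τ h0).2

theorem OAcy_of {L : Finset (Finset (Fin N))} (hL : DC L) {n : ℕ} (h : AcyN R (Fam L) n) :
    OAcy R L n := by
  intro c hc hb
  obtain ⟨b, hb1, hb2⟩ := h (ordPsi c) (ordPsi_In hc) (ordPsi_Len hc)
    (by rw [← ordPsi_obd, hb, map_zero])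
  obtain ⟨b', hb3, hb4, hb5⟩ := hom_prim hb1 (ordPsi_Len hc) hb2
  refine ⟨ordPhi b', ordPhi_OIn hL hb3 hb4, ?_⟩
  rw [← ordPhi_bd, hb5, ordPhi_ordPsi]

theorem Fam_down (L : Finset (Finset (Fin N))) : Down (Fam L) := by
  rintro A ⟨σ, hσ, hA⟩ B hB
  exact ⟨σ, hσ, hB.trans hA⟩

theorem ord_acy {A : Set (Fin N)} (hA : A.Nonempty) : Acy R {B : Set (Fin N) | B ⊆ A} := by
  obtain ⟨p, hp⟩ := hA
  intro c hc hb
  refine ⟨cone p c, ?_, ?_⟩
  · refine cone_mem ?_ hc
    intro B hB
    exact Set.insert_subset hp hB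
  · rw [bd_cone, hb, map_zero, sub_zero]

theorem ordPsi_ordPhi_mem (l : List (Fin N)) :
    ordPsi (ordPhi (s l : Ch R (Fin N))) ∈ In {B : Set (Fin N) | B ⊆ {x | x ∈ l}} := by
  rw [ordPhi_s, ordPsi_apply]
  apply Submodule.sum_mem
  intro τ _
  by_cases h0 : ordPhiL (R := R) l τ = 0
  · rw [h0, zero_smul]
    exact Submodule.zero_mem _
  · apply Submodule.smul_mem
    apply s_mem
    intro x hx
    have h1 : x ∈ ordSort τ := hx
    rw [← List.mem_toFinset, ordSort_toFinset, ← (ordPhiL_supp l τ h0).1, List.mem_toFinset] at h1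
    exact h1

theorem ord_homotopy (n : ℕ) : ∃ h : Ch R (Fin N) →ₗ[R] Ch R (Fin N),
    ∀ l : List (Fin N), l.length ≤ n →
      h (s l) ∈ In {B : Set (Fin N) | B ⊆ {x | x ∈ l}} ∧
        bd (h (s l)) + h (bd (s l)) = ordPsi (ordPhi (s l)) - s l := by
  obtain ⟨h, hh⟩ := carrier_homotopy (R := R) (X := Fin N) (Y := Fin N) (K := Set.univ)
    (fun _ _ _ _ => Set.mem_univ _) (S := fun A => {B : Set (Fin N) | B ⊆ A})
    (fun A _ B hB C hC => Set.Subset.trans hC hB) (fun A _ hA => ord_acy hA)
    (φ := ordPsi ∘ₗ ordPhi) (ψ := LinearMap.id) (n := n) (by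
      have e : (s [] : Ch R (Fin N)) = s (ordSort ∅) := by
        have := ordSort_of (N := N) (l := []) List.Pairwise.nil
        rw [List.toFinset_nil] at this
        rw [this]
      rw [LinearMap.comp_apply, LinearMap.id_apply, ordPhi_s, ordPsi_apply,
        Finset.sum_eq_single ∅]
      · have e2 : ordPhiL (R := R) ([] : List (Fin N)) ∅ = 1 := Pi.single_eq_same _ _
        rw [e2, one_smul, ← e]
      · intro τ _ hτ
        have e2 : ordPhiL (R := R) ([] : List (Fin N)) τ = 0 := Pi.single_eq_of_ne hτ _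
        rw [e2, zero_smul]
      · intro h
        exact absurd (Finset.mem_univ _) h)
    (by
      intro l _ _
      refine ⟨ordPsi_ordPhi_mem l, ?_⟩
      rw [LinearMap.comp_apply, LinearMap.comp_apply, ← ordPsi_obd, ← ordPhi_bd])
    (by
      intro l _ _
      refine ⟨?_, rfl⟩
      rw [LinearMap.id_apply]
      exact s_mem (fun x hx => hx))
  exact ⟨h, fun l hl => hh l (Set.mem_univ _) hl⟩

theorem ord_homotopic {F : Set (Set (Fin N))} (hF : Down F) {c : Ch R (Fin N)} {n : ℕ}
    (h1 : c ∈ In F) (h2 : c ∈ Len n) (h3 : bd c = 0) :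
    ∃ b ∈ In F, bd b = ordPsi (ordPhi c) - c := by
  obtain ⟨h, hh⟩ := ord_homotopy (R := R) (N := N) n
  have h4 : c ∈ Finsupp.supported R R
      {l : List (Fin N) | {x | x ∈ l} ∈ F ∧ l.length = n} :=
    fun l hl => ⟨h1 hl, h2 hl⟩
  refine ⟨h c, ?_, ?_⟩
  · apply map_supported _ h4
    rintro l ⟨hl1, hl2⟩
    refine In_mono ?_ (hh l hl2.le).1
    intro B hB
    exact hF _ hl1 _ hB
  · obtain ⟨D, hD⟩ : ∃ D : Ch R (Fin N) →ₗ[R] Ch R (Fin N),
        ∀ c, D c = ordPsi (ordPhi c) - c :=
      ⟨ordPsi.comp ordPhi - LinearMap.id, fun c => rfl⟩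
    have h5 : (bd ∘ₗ h + h ∘ₗ bd) c = D c := by
      apply eq_supported _ h4
      rintro l ⟨hl1, hl2⟩
      rw [hD]
      exact (hh l hl2.le).2
    rw [LinearMap.add_apply, LinearMap.comp_apply, LinearMap.comp_apply, h3, map_zero,
      add_zero, hD] at h5
    exact h5

theorem OOne_of {L : Finset (Finset (Fin N))} (hL : DC L) {n : ℕ} (h : OneN R (Fam L) n) :
    OOne R L n := by
  obtain ⟨z, hz1, hz2, hz3, hz4, hz5⟩ := h
  refine ⟨ordPhi z, ordPhi_OIn hL hz1 hz2, ?_, ?_, ?_⟩
  · rw [← ordPhi_bd, hz3, map_zero]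
  · intro r b hb1 hb2
    obtain ⟨b', hb3, hb4⟩ := ord_homotopic (Fam_down L) hz1 hz2 hz3
    refine hz4 r (ordPsi b - r • b') (Submodule.sub_mem _ (ordPsi_In hb1)
      (Submodule.smul_mem _ _ hb3)) ?_
    rw [map_sub, map_smul, hb4, ← ordPsi_obd, hb2, map_smul, smul_sub, sub_sub_cancel]
  · intro c hc1 hc2
    obtain ⟨r, b, hb1, hb2⟩ := hz5 (ordPsi c) (ordPsi_In hc1) (ordPsi_Len hc1)
      (by rw [← ordPsi_obd, hc2, map_zero])
    obtain ⟨b', hb3, hb4, hb5⟩ := hom_prim hb1
      (Submodule.sub_mem _ (ordPsi_Len hc1) (Submodule.smul_mem _ r hz2)) hb2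
    refine ⟨r, ordPhi b', ordPhi_OIn hL hb3 hb4, ?_⟩
    rw [← ordPhi_bd, hb5, map_sub, map_smul, ordPhi_ordPsi]

end H40.VT
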