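import Pool.Agent.H40.VT.Real

/-!
# Deleting the open star of a face of a sphere gives a contractible space
-/

namespace H40.VT

variable {R : Type*} [CommRing R] {N : ℕ}

/-- the minimal coordinate in the face -/
noncomputable def Retr_m (σ : Finset (Fin N)) (hne : σ.Nonempty) (y : EuclideanSpace ℝ (Fin N)) :
    ℝ := σ.inf' hne (fun i => y i)

/-- the indicator vector of the face -/
noncomputable def Retr_ind (σ : Finset (Fin N)) : EuclideanSpace ℝ (Fin N) :=
  WithLp.toLp 2 (fun i => if i ∈ σ then 1 else 0)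

/-- the retraction away from the barycenter -/
noncomputable def Retr_r (σ : Finset (Fin N)) (hne : σ.Nonempty) (y : EuclideanSpace ℝ (Fin N)) :
    EuclideanSpace ℝ (Fin N) :=
  (1 - Retr_m σ hne y * σ.card)⁻¹ • (y - Retr_m σ hne y • Retr_ind σ)

theorem Retr_ind_apply (σ : Finset (Fin N)) (i : Fin N) :
    Retr_ind σ i = if i ∈ σ then 1 else 0 := rfl

theorem Retr_m_le (σ : Finset (Fin N)) (hne : σ.Nonempty) (y : EuclideanSpace ℝ (Fin N))
    {i : Fin N} (hi : i ∈ σ) : Retr_m σ hne y ≤ y i :=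
  Finset.inf'_le (f := fun i => y i) hi

theorem Retr_m_eq (σ : Finset (Fin N)) (hne : σ.Nonempty) (y : EuclideanSpace ℝ (Fin N)) :
    ∃ i ∈ σ, Retr_m σ hne y = y i :=
  Finset.exists_mem_eq_inf' hne (fun i => y i)

theorem Retr_m_cont (σ : Finset (Fin N)) (hne : σ.Nonempty) :
    Continuous (Retr_m σ hne) := by
  unfold Retr_m
  apply Continuous.finset_inf'_apply
  intro i _
  exact (EuclideanSpace.proj (𝕜 := ℝ) i).continuous

theorem Retr_sum (σ : Finset (Fin N)) (hne : σ.Nonempty) (y : EuclideanSpace ℝ (Fin N))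
    (h1 : ∑ i, y i = 1) :
    1 - Retr_m σ hne y * σ.card = ∑ i, (y i - Retr_m σ hne y * Retr_ind σ i) := by
  rw [Finset.sum_sub_distrib, h1, ← Finset.mul_sum]
  congr 2
  simp [Retr_ind_apply]

theorem Retr_term (σ : Finset (Fin N)) (hne : σ.Nonempty) (y : EuclideanSpace ℝ (Fin N))
    (h0 : ∀ i, 0 ≤ y i) (i : Fin N) : 0 ≤ y i - Retr_m σ hne y * Retr_ind σ i := by
  rw [Retr_ind_apply]
  split_ifs with hi
  · have := Retr_m_le σ hne y hi
    linarith
  · have := h0 i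
    linarith

/-- the denominator is positive away from the barycenter -/
theorem Retr_pos (σ : Finset (Fin N)) (hne : σ.Nonempty) (y : EuclideanSpace ℝ (Fin N))
    (h0 : ∀ i, 0 ≤ y i) (h1 : ∑ i, y i = 1) (hy : y ≠ (σ.card : ℝ)⁻¹ • Retr_ind σ) :
    0 < 1 - Retr_m σ hne y * σ.card := by
  have hs : 0 ≤ 1 - Retr_m σ hne y * σ.card := by
    rw [Retr_sum σ hne y h1]
    exact Finset.sum_nonneg fun i _ => Retr_term σ hne y h0 i
  rcases hs.lt_or_eq with h | h
  · exact h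
  exfalso
  apply hy
  have hc : (σ.card : ℝ) ≠ 0 := by
    have := Finset.card_pos.2 hne
    positivity
  have hm : Retr_m σ hne y = (σ.card : ℝ)⁻¹ := by
    apply eq_inv_of_mul_eq_one_left
    linarith
  rw [Retr_sum σ hne y h1] at h
  have h2 := (Finset.sum_eq_zero_iff_of_nonneg fun i _ => Retr_term σ hne y h0 i).1 h.symm
  ext i
  have h3 := h2 i (Finset.mem_univ i)
  rw [hm] at h3
  show y i = (σ.card : ℝ)⁻¹ * Retr_ind σ i
  linarith

theorem Retr_r_apply (σ : Finset (Fin N)) (hne : σ.Nonempty) (y : EuclideanSpace ℝ (Fin N))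
    (i : Fin N) : Retr_r σ hne y i =
      (1 - Retr_m σ hne y * σ.card)⁻¹ * (y i - Retr_m σ hne y * Retr_ind σ i) := rfl

/-- the points of the deletion -/
theorem Retr_mem_del {K : Finset (Finset (Fin N))} (hK : DC K) {σ : Finset (Fin N)}
    {y : EuclideanSpace ℝ (Fin N)} :
    y ∈ Re (del K σ) ↔ y ∈ Re K ∧ ∃ i ∈ σ, y i = 0 := by
  constructor
  · intro hy
    obtain ⟨τ, hτ, h0, h1, h2⟩ := mem_Re.1 hy
    unfold del at hτ
    rw [Finset.mem_filter] at hτ
    refine ⟨mem_Re.2 ⟨τ, hτ.1, h0, h1, h2⟩, ?_⟩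
    obtain ⟨i, hi, hi'⟩ := Finset.not_subset.1 hτ.2
    refine ⟨i, hi, ?_⟩
    by_contra h
    exact hi' (h2 i h)
  · rintro ⟨hy, i, hi, hi0⟩
    obtain ⟨τ, hτ, h0, h1, h2⟩ := mem_Re.1 hy
    refine mem_Re.2 ⟨τ.filter (fun j => y j ≠ 0), ?_, h0, h1, ?_⟩
    · unfold del
      rw [Finset.mem_filter]
      refine ⟨hK τ hτ _ (Finset.filter_subset _ _), ?_⟩
      intro hsub
      have := hsub hi
      rw [Finset.mem_filter] at this
      exact this.2 hi0
    · intro j hj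
      rw [Finset.mem_filter]
      exact ⟨h2 j hj, hj⟩

/-- the retraction maps to the deletion -/
theorem Retr_r_mem {K : Finset (Finset (Fin N))} (hK : DC K) {σ : Finset (Fin N)}
    (hne : σ.Nonempty) {y : EuclideanSpace ℝ (Fin N)} (hy : y ∈ Re K)
    (hy0 : y ≠ (σ.card : ℝ)⁻¹ • Retr_ind σ) : Retr_r σ hne y ∈ Re (del K σ) := by
  obtain ⟨τ, hτ, h0, h1, h2⟩ := mem_Re.1 hy
  have hp := Retr_pos σ hne y h0 h1 hy0
  have ht := Retr_term σ hne y h0
  have hm0 : 0 ≤ Retr_m σ hne y := by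
    obtain ⟨i, hi, hi'⟩ := Retr_m_eq σ hne y
    rw [hi']
    exact h0 i
  rw [Retr_mem_del hK]
  constructor
  · refine mem_Re.2 ⟨τ, hτ, ?_, ?_, ?_⟩
    · intro i
      rw [Retr_r_apply]
      exact mul_nonneg (inv_nonneg.2 hp.le) (ht i)
    · simp only [Retr_r_apply]
      rw [← Finset.mul_sum, ← Retr_sum σ hne y h1, inv_mul_cancel₀ hp.ne']
    · intro i hi
      apply h2
      intro hyi
      apply hi
      rw [Retr_r_apply]
      have h3 := ht i
      rw [hyi] at h3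
      have h4 : 0 ≤ Retr_m σ hne y * Retr_ind σ i := by
        apply mul_nonneg hm0
        rw [Retr_ind_apply]
        split_ifs
        · exact zero_le_one
        · exact le_rfl
      have h5 : y i - Retr_m σ hne y * Retr_ind σ i = 0 := by
        rw [hyi]
        linarith
      rw [h5, mul_zero]
  · obtain ⟨i, hi, hi'⟩ := Retr_m_eq σ hne y
    refine ⟨i, hi, ?_⟩
    rw [Retr_r_apply, Retr_ind_apply, if_pos hi, hi', mul_one, sub_self, mul_zero]

/-- the retraction is the identity on the deletion -/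
theorem Retr_r_id {σ : Finset (Fin N)} (hne : σ.Nonempty) {y : EuclideanSpace ℝ (Fin N)}
    (h0 : ∀ i, 0 ≤ y i) (hy : ∃ i ∈ σ, y i = 0) : Retr_r σ hne y = y := by
  have hm : Retr_m σ hne y = 0 := by
    obtain ⟨i, hi, hi0⟩ := hy
    obtain ⟨j, hj, hj'⟩ := Retr_m_eq σ hne y
    apply le_antisymm
    · rw [← hi0]
      exact Retr_m_le σ hne y hi
    · rw [hj']
      exact h0 j
  unfold Retr_r
  rw [hm]
  simp

/-- moving away from `q` in the sphere -/
noncomputable def Retr_g {d : ℕ} (q : EuclideanSpace ℝ (Fin d)) (t : ℝ)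
    (u : EuclideanSpace ℝ (Fin d)) : EuclideanSpace ℝ (Fin d) :=
  ‖(1 - t) • u - t • q‖⁻¹ • ((1 - t) • u - t • q)

theorem Retr_ne {d : ℕ} {q u : EuclideanSpace ℝ (Fin d)} (hq : ‖q‖ = 1) (hu : ‖u‖ = 1)
    (hne : u ≠ q) {t s : ℝ} (h0 : 0 ≤ t) (h1 : t ≤ 1) (hs : 0 ≤ s) :
    (1 - t) • u - t • q ≠ s • q := by
  intro h
  have h2 : (1 - t) • u = (t + s) • q := by
    rw [add_smul, ← h]
    abel
  have h3 := congrArg norm h2
  rw [norm_smul, norm_smul, hq, hu, Real.norm_eq_abs, Real.norm_eq_abs,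
    abs_of_nonneg (by linarith), abs_of_nonneg (by linarith), mul_one, mul_one] at h3
  have h4 : 1 - t ≠ 0 := by
    intro h4
    have : t = 1 := by linarith
    rw [this] at h3
    linarith
  rw [← h3] at h2
  exact hne (smul_right_injective _ h4 h2)

theorem Retr_g_norm {d : ℕ} {q u : EuclideanSpace ℝ (Fin d)} (hq : ‖q‖ = 1) (hu : ‖u‖ = 1)
    (hne : u ≠ q) {t : ℝ} (h0 : 0 ≤ t) (h1 : t ≤ 1) : ‖Retr_g q t u‖ = 1 := by
  have h := Retr_ne hq hu hne h0 h1 le_rfl
  rw [zero_smul] at h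
  unfold Retr_g
  rw [norm_smul, norm_inv, norm_norm]
  exact inv_mul_cancel₀ (norm_ne_zero_iff.2 h)

theorem Retr_g_ne {d : ℕ} {q u : EuclideanSpace ℝ (Fin d)} (hq : ‖q‖ = 1) (hu : ‖u‖ = 1)
    (hne : u ≠ q) {t : ℝ} (h0 : 0 ≤ t) (h1 : t ≤ 1) : Retr_g q t u ≠ q := by
  have h := Retr_ne hq hu hne h0 h1 le_rfl
  rw [zero_smul] at h
  intro h2
  apply Retr_ne hq hu hne h0 h1 (norm_nonneg ((1 - t) • u - t • q))
  have h3 : ‖(1 - t) • u - t • q‖ • Retr_g q t u = (1 - t) • u - t • q := by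
    unfold Retr_g
    rw [smul_smul, mul_inv_cancel₀ (norm_ne_zero_iff.2 h), one_smul]
  rw [h2] at h3
  exact h3.symm

theorem del_pro {d : ℕ} {K : Finset (Finset (Fin N))} (hK : DC K)
    (h : Re K ≃ₜ Metric.sphere (0 : EuclideanSpace ℝ (Fin d)) 1) {σ : Finset (Fin N)}
    (hσ : σ ∈ K) (hne : σ.Nonempty) (n : ℕ) : Pro R (Re (del K σ)) n := by
  haveI : CompactSpace (Re (del K σ)) := isCompact_iff_compactSpace.1 (Re_compact _)
  have hc : (0 : ℝ) < σ.card := by
    have := Finset.card_pos.2 hne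
    exact_mod_cast this
  -- the barycenter
  have hx0 : (σ.card : ℝ)⁻¹ • Retr_ind σ ∈ Re K := by
    refine mem_Re.2 ⟨σ, hσ, ?_, ?_, ?_⟩
    · intro i
      show 0 ≤ (σ.card : ℝ)⁻¹ * Retr_ind σ i
      rw [Retr_ind_apply]
      split_ifs <;> positivity
    · show ∑ i, (σ.card : ℝ)⁻¹ * Retr_ind σ i = 1
      rw [← Finset.mul_sum]
      simp [Retr_ind_apply, hc.ne']
    · intro i hi
      by_contra h
      apply hi
      show (σ.card : ℝ)⁻¹ * Retr_ind σ i = 0
      rw [Retr_ind_apply, if_neg h, mul_zero]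
  obtain ⟨q, hq⟩ : ∃ q : EuclideanSpace ℝ (Fin d), q = h ⟨_, hx0⟩ := ⟨_, rfl⟩
  have hq1 : ‖q‖ = 1 := by
    rw [hq]
    exact mem_sphere_zero_iff_norm.1 (h ⟨_, hx0⟩).2
  have hsub : ∀ y : Re (del K σ), (y : EuclideanSpace ℝ (Fin N)) ∈ Re K := fun y =>
    ((Retr_mem_del hK).1 y.2).1
  have hn1 : ∀ u : Metric.sphere (0 : EuclideanSpace ℝ (Fin d)) 1,
      ‖(u : EuclideanSpace ℝ (Fin d))‖ = 1 := fun u => mem_sphere_zero_iff_norm.1 u.2
  have hyq : ∀ y : Re (del K σ), ((h ⟨y, hsub y⟩ : Metric.sphere (0 : EuclideanSpace ℝ (Fin d)) 1) :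
      EuclideanSpace ℝ (Fin d)) ≠ q := by
    intro y h1
    rw [hq] at h1
    have h2 := h.injective (Subtype.ext h1)
    obtain ⟨i, hi, hi0⟩ := ((Retr_mem_del hK).1 y.2).2
    have h3 : (y : EuclideanSpace ℝ (Fin N)) = (σ.card : ℝ)⁻¹ • Retr_ind σ :=
      congrArg Subtype.val h2
    rw [h3] at hi0
    have h4 : (σ.card : ℝ)⁻¹ * Retr_ind σ i = 0 := hi0
    rw [Retr_ind_apply, if_pos hi, mul_one] at h4
    exact (inv_ne_zero hc.ne') h4
  -- the contraction in the sphere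
  obtain ⟨G, hG⟩ : ∃ G : unitInterval × Re (del K σ) →
      Metric.sphere (0 : EuclideanSpace ℝ (Fin d)) 1,
      ∀ z, (G z : EuclideanSpace ℝ (Fin d)) = Retr_g q z.1 (h ⟨z.2, hsub z.2⟩) :=
    ⟨fun z => ⟨Retr_g q z.1 (h ⟨z.2, hsub z.2⟩), mem_sphere_zero_iff_norm.2
      (Retr_g_norm hq1 (hn1 _) (hyq z.2) z.1.2.1 z.1.2.2)⟩, fun z => rfl⟩
  have hGc : Continuous G := by
    rw [continuous_induced_rng]
    have e : (Subtype.val ∘ G) = fun z : unitInterval × Re (del K σ) =>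
        Retr_g q z.1 (h ⟨z.2, hsub z.2⟩) := by
      funext z
      exact hG z
    rw [e]
    have hv : Continuous fun z : unitInterval × Re (del K σ) =>
        (1 - (z.1 : ℝ)) • ((h ⟨z.2, hsub z.2⟩ : Metric.sphere (0 : EuclideanSpace ℝ (Fin d)) 1) :
          EuclideanSpace ℝ (Fin d)) - (z.1 : ℝ) • q := by
      have h1 : Continuous fun z : unitInterval × Re (del K σ) =>
          ((h ⟨z.2, hsub z.2⟩ : Metric.sphere (0 : EuclideanSpace ℝ (Fin d)) 1) :
          EuclideanSpace ℝ (Fin d)) := by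
        apply continuous_subtype_val.comp
        apply h.continuous.comp
        exact (continuous_subtype_val.comp continuous_snd).subtype_mk _
      have h2 : Continuous fun z : unitInterval × Re (del K σ) => (z.1 : ℝ) :=
        continuous_subtype_val.comp continuous_fst
      exact ((continuous_const.sub h2).smul h1).sub (h2.smul continuous_const)
    unfold Retr_g
    refine (hv.norm.inv₀ ?_).smul hv
    intro z
    have h1 := Retr_ne hq1 (hn1 (h ⟨z.2, hsub z.2⟩)) (hyq z.2) z.1.2.1 z.1.2.2 le_rfl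
    rw [zero_smul] at h1
    exact norm_ne_zero_iff.2 h1
  have hGq : ∀ z, (h.symm (G z) : EuclideanSpace ℝ (Fin N)) ≠ (σ.card : ℝ)⁻¹ • Retr_ind σ := by
    intro z h1
    have h2 : h.symm (G z) = ⟨_, hx0⟩ := Subtype.ext h1
    have h3 : G z = h ⟨_, hx0⟩ := by
      rw [← h2, h.apply_symm_apply]
    have h4 : (G z : EuclideanSpace ℝ (Fin d)) = q := by
      rw [h3, hq]
    rw [hG] at h4
    exact Retr_g_ne hq1 (hn1 _) (hyq z.2) z.1.2.1 z.1.2.2 h4
  -- the contraction of the deletion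
  obtain ⟨H, hH⟩ : ∃ H : unitInterval × Re (del K σ) → Re (del K σ),
      ∀ z, (H z : EuclideanSpace ℝ (Fin N)) = Retr_r σ hne (h.symm (G z)) :=
    ⟨fun z => ⟨Retr_r σ hne (h.symm (G z)), Retr_r_mem hK hne (h.symm (G z)).2 (hGq z)⟩,
      fun z => rfl⟩
  have hHc : Continuous H := by
    rw [continuous_induced_rng]
    have e : (Subtype.val ∘ H) = fun z => Retr_r σ hne (h.symm (G z)) := by
      funext z
      exact hH z
    rw [e]
    have h1 : Continuous fun z => (h.symm (G z) : EuclideanSpace ℝ (Fin N)) :=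
      continuous_subtype_val.comp (h.symm.continuous.comp hGc)
    have h2 : Continuous fun z => Retr_m σ hne (h.symm (G z)) := (Retr_m_cont σ hne).comp h1
    unfold Retr_r
    refine ((continuous_const.sub (h2.mul continuous_const)).inv₀ ?_).smul
      (h1.sub (h2.smul continuous_const))
    intro z
    obtain ⟨τ, _, h0, h1, _⟩ := mem_Re.1 (h.symm (G z)).2
    exact (Retr_pos σ hne _ h0 h1 (hGq z)).ne'
  have hH0 : ∀ a, H (0, a) = a := by
    intro a
    apply Subtype.ext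
    rw [hH]
    have h1 : G (0, a) = h ⟨a, hsub a⟩ := by
      apply Subtype.ext
      rw [hG]
      unfold Retr_g
      simp [hn1]
    rw [h1, h.symm_apply_apply]
    obtain ⟨τ, _, h0, _, _⟩ := mem_Re.1 a.2
    exact Retr_r_id hne h0 ((Retr_mem_del hK).1 a.2).2
  have hnq : -q ∈ Metric.sphere (0 : EuclideanSpace ℝ (Fin d)) 1 := by
    rw [mem_sphere_zero_iff_norm, norm_neg, hq1]
  have hG1 : ∀ a, G (1, a) = ⟨-q, hnq⟩ := by
    intro a
    apply Subtype.ext
    rw [hG]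
    unfold Retr_g
    simp [hq1]
  have hp : h.symm ⟨-q, hnq⟩ ≠ ⟨_, hx0⟩ := by
    intro h1
    have h2 : (⟨-q, hnq⟩ : Metric.sphere (0 : EuclideanSpace ℝ (Fin d)) 1) = h ⟨_, hx0⟩ := by
      rw [← h1, h.apply_symm_apply]
    have h3 : -q = q := by
      have := congrArg Subtype.val h2
      rw [← hq] at this
      exact this
    have h4 : q = 0 := by
      have h5 : (2 : ℝ) • q = 0 := by
        rw [two_smul]
        nth_rw 1 [← h3]
        exact neg_add_cancel q
      rcases smul_eq_zero.1 h5 with h6 | h6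
      · norm_num at h6
      · exact h6
    rw [h4, norm_zero] at hq1
    exact zero_ne_one hq1
  intro ε hε
  obtain ⟨δ, hδ, hd⟩ := contr (R := R) hHc (p := ⟨Retr_r σ hne (h.symm ⟨-q, hnq⟩),
    Retr_r_mem hK hne (h.symm ⟨-q, hnq⟩).2 (fun h1 => hp (Subtype.ext h1))⟩) (by
      intro a
      apply Subtype.ext
      rw [hH, hG1]) hε
  refine ⟨δ, hδ, ?_⟩
  intro c hc1 _ hc2
  obtain ⟨b, hb1, hb2⟩ := hd c hc1 hc2
  refine ⟨b, hb1, ?_⟩
  rw [hb2]
  have e : (fun a => H (0, a)) = fun a => a := funext hH0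
  rw [e, mp_id]

/-- `Pro` is a topological invariant of compact metric spaces -/
theorem pro_homeo {X Y : Type*} [MetricSpace X] [CompactSpace X] [MetricSpace Y] (h : X ≃ₜ Y)
    {n : ℕ} (hY : Pro R Y n) : Pro R X n := by
  haveI : CompactSpace Y := h.compactSpace
  intro ε hε
  have hu := CompactSpace.uniformContinuous_of_continuous h.symm.continuous
  obtain ⟨ε', hε', he⟩ := Metric.uniformContinuous_iff.1 hu ε hε
  obtain ⟨δ', hδ', hd'⟩ := hY ε' hε'
  have hv := CompactSpace.uniformContinuous_of_continuous h.continuous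
  obtain ⟨δ, hδ, hd⟩ := Metric.uniformContinuous_iff.1 hv δ' hδ'
  refine ⟨δ, hδ, ?_⟩
  intro c hc hl hb
  obtain ⟨b, hb1, hb2⟩ := hd' (mp h c) (by
    refine mp_mem ?_ hc
    rintro A hA _ ⟨a, ha, rfl⟩ _ ⟨b, hb, rfl⟩
    exact hd (hA a ha b hb)) (mp_len hl) (by rw [bd_mp, hb, map_zero])
  refine ⟨mp h.symm b, ?_, ?_⟩
  · refine mp_mem ?_ hb1
    rintro A hA _ ⟨a, ha, rfl⟩ _ ⟨b, hb, rfl⟩
    exact he (hA a ha b hb)
  · rw [bd_mp, hb2, mp_mp]
    have e : (fun x => h.symm (h x)) = fun x => x := funext fun x => h.symm_apply_apply x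
    rw [e, mp_id]

end H40.VT
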