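import Pool.Agent.H40.VT.Sphere
import Pool.Agent.H40.VT.Comb
import Pool.Agent.H40.VT.Retr
import Pool.Agent.H40.VT.Link
import Pool.Agent.H40.VT.Ord

/-!
# Links in triangulated spheres are homology spheres
-/

namespace H40.VT

variable {R : Type*} [CommRing R] {N : ℕ}

/-- acyclicity can be checked in every length -/
theorem Acy_of_AcyN {X : Type*} {F : Set (Set X)} (h : ∀ n, AcyN R F n) : Acy R F := by
  have key : ∀ M : ℕ, ∀ c : Ch R X, c ∈ In F → c ∈ Finsupp.supported R R {l : List X | l.length < M} →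
      bd c = 0 → ∃ b ∈ In F, bd b = c := by
    intro M
    induction M with
    | zero =>
      intro c _ hc _
      refine ⟨0, Submodule.zero_mem _, ?_⟩
      rw [map_zero]
      ext l
      by_contra h2
      have h3 : l ∈ c.support := Finsupp.mem_support_iff.2 (fun h4 => h2 (by rw [h4]; rfl))
      have h4 : l.length < 0 := hc h3
      omega
    | succ M ih =>
      intro c hc hcM hb
      have h1 : bd (prt (fun l => l.length = M) c) = 0 := by
        cases M with
        | zero =>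
          apply len_zero
          exact Finsupp.supported_mono (fun l hl => hl.2) (prt_mem hc)
        | succ M =>
          rw [bd_prt, hb, map_zero]
      have h2 := prt_add_not (P := fun l : List X => l.length = M) c
      obtain ⟨b1, hb1, hb2⟩ := h M (prt (fun l => l.length = M) c)
        (Finsupp.supported_mono (fun l hl => hl.1) (prt_mem hc))
        (Finsupp.supported_mono (fun l hl => hl.2) (prt_mem hc)) h1
      obtain ⟨b2, hb3, hb4⟩ := ih (prt (fun l => ¬ l.length = M) c)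
        (Finsupp.supported_mono (fun l hl => hl.1) (prt_mem hc))
        (Finsupp.supported_mono (fun l hl => by
          have g1 : l.length < M + 1 := hl.1
          have g2 : ¬ l.length = M := hl.2
          show l.length < M
          omega) (prt_mem hcM)) (by
          have h3 := congrArg bd h2
          rw [map_add, h1, zero_add, hb] at h3
          exact h3)
      refine ⟨b1 + b2, Submodule.add_mem _ hb1 hb3, ?_⟩
      rw [map_add, hb2, hb4, h2]
  intro c hc hb
  obtain ⟨M, hM⟩ : ∃ M : ℕ, ∀ l ∈ c.support, l.length < M := by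
    refine ⟨c.support.sup List.length + 1, ?_⟩
    intro l hl
    exact Nat.lt_succ_of_le (Finset.le_sup (f := List.length) hl)
  exact key M c hc (fun l hl => hM l hl) hb

theorem mem_Fam {K : Finset (Finset (Fin N))} (hK : DC K) {σ : Finset (Fin N)} :
    (↑σ : Set (Fin N)) ∈ Fam K ↔ σ ∈ K := by
  constructor
  · rintro ⟨τ, hτ, h⟩
    exact hK τ hτ σ (Finset.coe_subset.1 h)
  · intro h
    exact ⟨σ, h, Set.Subset.rfl⟩

theorem del_DC {K : Finset (Finset (Fin N))} (hK : DC K) (σ : Finset (Fin N)) : DC (del K σ) := by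
  intro τ hτ ρ hρ
  simp only [del, Finset.mem_filter] at hτ ⊢
  exact ⟨hK τ hτ.1 ρ hρ, fun h => hτ.2 (h.trans hρ)⟩

theorem del_Fam {K : Finset (Finset (Fin N))} (hK : DC K) (σ : Finset (Fin N)) :
    {B ∈ Fam K | ¬ (↑σ : Set (Fin N)) ⊆ B} = Fam (del K σ) := by
  classical
  ext B
  constructor
  · rintro ⟨⟨τ, hτ, hB⟩, h⟩
    refine ⟨τ.filter (fun x => x ∈ B), ?_, ?_⟩
    · simp only [del, Finset.mem_filter]
      refine ⟨hK τ hτ _ (Finset.filter_subset _ _), ?_⟩
      intro h2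
      apply h
      intro x hx
      exact (Finset.mem_filter.1 (h2 hx)).2
    · intro x hx
      simp only [Finset.coe_filter, Set.mem_setOf_eq]
      exact ⟨hB hx, hx⟩
  · rintro ⟨τ, hτ, hB⟩
    simp only [del, Finset.mem_filter] at hτ
    refine ⟨⟨τ, hτ.1, hB⟩, ?_⟩
    intro h
    exact hτ.2 (Finset.coe_subset.1 (h.trans hB))

/-- local acyclicity of a triangulated sphere -/
theorem LA_sphere {d : ℕ} {K : Finset (Finset (Fin N))} (hK : DC K) (h0 : ∅ ∈ K)
    (h : Nonempty (Re K ≃ₜ Metric.sphere (0 : EuclideanSpace ℝ (Fin d)) 1)) : LA R (Fam K) := by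
  classical
  obtain ⟨h⟩ := h
  rintro A ⟨τ, hτ, hA⟩ hne
  obtain ⟨σ, hσ⟩ : ∃ σ : Finset (Fin N), (↑σ : Set (Fin N)) = A :=
    ⟨τ.filter (fun x => x ∈ A), by
      ext x
      simp only [Finset.coe_filter, Set.mem_setOf_eq]
      exact ⟨fun hx => hx.2, fun hx => ⟨hA hx, hx⟩⟩⟩
  subst hσ
  have hσK : σ ∈ K := hK τ hτ σ (Finset.coe_subset.1 hA)
  have hσne : σ.Nonempty := Finset.coe_nonempty.1 hne
  rw [del_Fam hK]
  apply Acy_of_AcyN
  intro n
  apply real_acyclic (del_DC hK σ)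
  · simp only [del, Finset.mem_filter]
    refine ⟨h0, ?_⟩
    intro h2
    exact hσne.ne_empty (Finset.subset_empty.1 h2)
  · exact del_pro hK h hσK hσne n

/-- every face lies in a maximal face -/
theorem exists_facet {K : Finset (Finset (Fin N))} {σ : Finset (Fin N)} (hσ : σ ∈ K) :
    ∃ τ ∈ K, σ ⊆ τ ∧ ∀ ρ ∈ K, τ ⊆ ρ → ρ = τ := by
  classical
  obtain ⟨τ, hτ, hmax⟩ := Finset.exists_max_image (K.filter fun τ => σ ⊆ τ) Finset.card
    ⟨σ, Finset.mem_filter.2 ⟨hσ, Finset.Subset.refl _⟩⟩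
  rw [Finset.mem_filter] at hτ
  refine ⟨τ, hτ.1, hτ.2, ?_⟩
  intro ρ hρ hτρ
  symm
  apply Finset.eq_of_subset_of_card_le hτρ
  exact hmax ρ (Finset.mem_filter.2 ⟨hρ, hτ.2.trans hτρ⟩)

theorem Fam_max {K : Finset (Finset (Fin N))} {τ : Finset (Fin N)}
    (hmax : ∀ ρ ∈ K, τ ⊆ ρ → ρ = τ) : ∀ B ∈ Fam K, (↑τ : Set (Fin N)) ⊆ B → B = ↑τ := by
  rintro B ⟨ρ, hρ, hB⟩ h
  have h1 := hmax ρ hρ (Finset.coe_subset.1 (h.trans hB))
  subst h1
  exact Set.Subset.antisymm hB h

/-- all maximal faces of a triangulated sphere have `d` vertices -/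
theorem facet_card {d : ℕ} {K : Finset (Finset (Fin N))} (hK : DC K) (h0 : ∅ ∈ K)
    (h : Nonempty (Re K ≃ₜ Metric.sphere (0 : EuclideanSpace ℝ (Fin d)) 1)) {τ : Finset (Fin N)}
    (hτ : τ ∈ K) (hmax : ∀ ρ ∈ K, τ ⊆ ρ → ρ = τ) : τ.card = d := by
  have h1 := (LA_hom (R := ℤ) (Fam_down K) (LA_sphere hK h0 h) ((mem_Fam hK).2 hτ)
    (Fam_max hmax) τ.finite_toSet).2
  rw [Set.ncard_coe_finset] at h1
  by_contra hne
  obtain ⟨h⟩ := h
  have : CompactSpace (Re K) := isCompact_iff_compactSpace.1 (Re_compact K)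
  have h2 : Pro ℤ (Re K) τ.card := by
    apply pro_homeo h
    apply sphere_pro
    rw [finrank_euclideanSpace_fin]
    exact hne
  have h3 := real_acyclic hK h0 h2
  obtain ⟨z, hz1, hz2, hz3, hz4, -⟩ := h1
  obtain ⟨b, hb1, hb2⟩ := h3 z hz1 hz2 hz3
  have h4 := hz4 1 b hb1 (by rw [hb2, one_smul])
  exact one_ne_zero h4

/-- a triangulated sphere is pure -/
theorem sphere_pure {d : ℕ} {K : Finset (Finset (Fin N))} (hK : DC K) (h0 : ∅ ∈ K)
    (h : Nonempty (Re K ≃ₜ Metric.sphere (0 : EuclideanSpace ℝ (Fin d)) 1)) {σ : Finset (Fin N)}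
    (hσ : σ ∈ K) : ∃ τ ∈ K, σ ⊆ τ ∧ τ.card = d := by
  obtain ⟨τ, hτ, h1, h2⟩ := exists_facet hσ
  exact ⟨τ, hτ, h1, facet_card hK h0 h hτ h2⟩

theorem sphere_card {d : ℕ} {K : Finset (Finset (Fin N))} (hK : DC K) (h0 : ∅ ∈ K)
    (h : Nonempty (Re K ≃ₜ Metric.sphere (0 : EuclideanSpace ℝ (Fin d)) 1)) {σ : Finset (Fin N)}
    (hσ : σ ∈ K) : σ.card ≤ d := by
  obtain ⟨τ, hτ, h1, h2⟩ := sphere_pure hK h0 h hσ
  rw [← h2]
  exact Finset.card_le_card h1

theorem mem_lk {K : Finset (Finset (Fin N))} {σ τ : Finset (Fin N)} :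
    τ ∈ lk K σ ↔ Disjoint τ σ ∧ τ ∪ σ ∈ K := by
  simp [lk]

theorem lk_DC {K : Finset (Finset (Fin N))} (hK : DC K) (σ : Finset (Fin N)) : DC (lk K σ) := by
  intro τ hτ ρ hρ
  rw [mem_lk] at hτ ⊢
  exact ⟨hτ.1.mono_left hρ, hK _ hτ.2 _ (Finset.union_subset_union hρ (Finset.Subset.refl _))⟩

theorem lk_empty (K : Finset (Finset (Fin N))) : lk K ∅ = K := by
  ext τ
  rw [mem_lk]
  simp

theorem lk_insert (K : Finset (Finset (Fin N))) {σ : Finset (Fin N)} {v : Fin N} (hv : v ∉ σ) :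
    Fam (lk K (insert v σ)) = Flk (Fam (lk K σ)) v := by
  ext B
  constructor
  · rintro ⟨τ, hτ, hB⟩
    rw [mem_lk] at hτ
    obtain ⟨h1, h2⟩ := hτ
    rw [Finset.disjoint_insert_right] at h1
    refine ⟨fun h => h1.1 (hB h), insert v τ, ?_, ?_⟩
    · rw [mem_lk]
      refine ⟨Finset.disjoint_insert_left.2 ⟨hv, h1.2⟩, ?_⟩
      have e : insert v τ ∪ σ = τ ∪ insert v σ := by
        ext x
        simp only [Finset.mem_union, Finset.mem_insert]
        tauto
      rw [e]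
      exact h2
    · rw [Finset.coe_insert]
      exact Set.insert_subset_insert hB
  · rintro ⟨h1, τ, hτ, hB⟩
    rw [mem_lk] at hτ
    obtain ⟨h2, h3⟩ := hτ
    have hvτ : v ∈ τ := hB (Or.inl rfl)
    refine ⟨τ.erase v, ?_, ?_⟩
    · rw [mem_lk]
      constructor
      · rw [Finset.disjoint_insert_right]
        exact ⟨Finset.notMem_erase v τ, h2.mono_left (Finset.erase_subset _ _)⟩
      · have e : τ.erase v ∪ insert v σ = τ ∪ σ := by
          ext x
          simp only [Finset.mem_union, Finset.mem_insert, Finset.mem_erase]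
          by_cases hx : x = v
          · subst hx
            simp [hvτ]
          · simp [hx]
        rw [e]
        exact h3
    · intro x hx
      rw [Finset.coe_erase]
      refine ⟨hB (Or.inr hx), ?_⟩
      rintro rfl
      exact h1 hx

theorem LA_lk {d : ℕ} {K : Finset (Finset (Fin N))} (hK : DC K) (h0 : ∅ ∈ K)
    (h : Nonempty (Re K ≃ₜ Metric.sphere (0 : EuclideanSpace ℝ (Fin d)) 1))
    (σ : Finset (Fin N)) : LA R (Fam (lk K σ)) := by
  induction σ using Finset.induction_on with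
  | empty =>
    rw [lk_empty]
    exact LA_sphere hK h0 h
  | insert v σ hv ih =>
    rw [lk_insert K hv]
    exact LA_link (Fam_down _) ih v

theorem lk_hom {d : ℕ} {K : Finset (Finset (Fin N))} (hK : DC K) (h0 : ∅ ∈ K)
    (h : Nonempty (Re K ≃ₜ Metric.sphere (0 : EuclideanSpace ℝ (Fin d)) 1)) {σ : Finset (Fin N)}
    (hσ : σ ∈ K) : (∀ n, n + σ.card ≠ d → AcyN R (Fam (lk K σ)) n) ∧
      ∀ n, n + σ.card = d → OneN R (Fam (lk K σ)) n := by
  obtain ⟨τ, hτ, h1, h2⟩ := exists_facet hσ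
  have h3 := facet_card hK h0 h hτ h2
  have hmem : τ \ σ ∈ lk K σ := by
    rw [mem_lk]
    refine ⟨Finset.sdiff_disjoint, ?_⟩
    rw [Finset.sdiff_union_of_subset h1]
    exact hτ
  have hmax : ∀ ρ ∈ lk K σ, τ \ σ ⊆ ρ → ρ = τ \ σ := by
    intro ρ hρ hsub
    rw [mem_lk] at hρ
    have h4 := h2 (ρ ∪ σ) hρ.2 (by
      rw [← Finset.sdiff_union_of_subset h1]
      exact Finset.union_subset_union hsub (Finset.Subset.refl _))
    rw [← h4, Finset.union_sdiff_cancel_right hρ.1]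
  have h5 := LA_hom (R := R) (Fam_down _) (LA_lk hK h0 h σ)
    ((mem_Fam (lk_DC hK σ)).2 hmem) (Fam_max hmax) (τ \ σ).finite_toSet
  rw [Set.ncard_coe_finset] at h5
  have hc : (τ \ σ).card + σ.card = d := by
    rw [Finset.card_sdiff_of_subset h1, ← h3]
    have := Finset.card_le_card h1
    omega
  constructor
  · intro n hn
    apply h5.1
    omega
  · intro n hn
    have e : n = (τ \ σ).card := by omega
    rw [e]
    exact h5.2

/-- the reduced homology of the links is that of a sphere of dimension `d - 1 - |σ|` -/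
theorem link_acy {d : ℕ} {K : Finset (Finset (Fin N))} (hK : DC K) (h0 : ∅ ∈ K)
    (h : Nonempty (Re K ≃ₜ Metric.sphere (0 : EuclideanSpace ℝ (Fin d)) 1)) {σ : Finset (Fin N)}
    (hσ : σ ∈ K) {n : ℕ} (hn : n + σ.card ≠ d) : OAcy R (lk K σ) n :=
  OAcy_of (lk_DC hK σ) ((lk_hom hK h0 h hσ).1 n hn)

theorem link_one {d : ℕ} {K : Finset (Finset (Fin N))} (hK : DC K) (h0 : ∅ ∈ K)
    (h : Nonempty (Re K ≃ₜ Metric.sphere (0 : EuclideanSpace ℝ (Fin d)) 1)) {σ : Finset (Fin N)}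
    (hσ : σ ∈ K) {n : ℕ} (hn : n + σ.card = d) : OOne R (lk K σ) n :=
  OOne_of (lk_DC hK σ) ((lk_hom hK h0 h hσ).2 n hn)

end H40.VT
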