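import Pool.Agent.H40.VT.Defs

/-!
# The realization of a finite complex
-/

namespace H40.VT

variable {R : Type*} [CommRing R] {N : ℕ}

/-- the points with nonnegative coordinates with sum 1 and support in `S` -/
def Sx (S : Set (Fin N)) : Set (EuclideanSpace ℝ (Fin N)) :=
  {x | (∀ i, 0 ≤ x i) ∧ ∑ i, x i = 1 ∧ ∀ i, x i ≠ 0 → i ∈ S}

theorem Sx_convex (S : Set (Fin N)) : Convex ℝ (Sx S) := by
  rintro x ⟨hx1, hx2, hx3⟩ y ⟨hy1, hy2, hy3⟩ a b ha hb hab
  refine ⟨?_, ?_, ?_⟩
  · intro i
    have h1 := mul_nonneg ha (hx1 i)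
    have h2 := mul_nonneg hb (hy1 i)
    simpa using add_nonneg h1 h2
  · have e : ∀ i, (a • x + b • y) i = a * x i + b * y i := by
      intro i
      simp
    rw [Finset.sum_congr rfl (fun i _ => e i), Finset.sum_add_distrib, ← Finset.mul_sum,
      ← Finset.mul_sum, hx2, hy2]
    linarith
  · intro i hi
    by_contra h
    have h1 : x i = 0 := by
      by_contra h2
      exact h (hx3 i h2)
    have h2 : y i = 0 := by
      by_contra h2
      exact h (hy3 i h2)
    apply hi
    simp [h1, h2]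

theorem Real_sum (x : EuclideanSpace ℝ (Fin N)) :
    x = ∑ i, x i • EuclideanSpace.single i (1 : ℝ) := by
  ext j
  simp [Finset.sum_apply, Pi.single_apply]

theorem hull_eq (σ : Finset (Fin N)) : convexHull ℝ
    ((fun i : Fin N => EuclideanSpace.single i (1 : ℝ)) '' (↑σ : Set (Fin N))) = Sx (↑σ) := by
  apply Set.Subset.antisymm
  · apply convexHull_min _ (Sx_convex _)
    rintro _ ⟨i, hi, rfl⟩
    refine ⟨?_, ?_, ?_⟩
    · intro j
      simp only [PiLp.single_apply]
      split_ifs <;> norm_num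
    · simp [PiLp.single_apply]
    · intro j hj
      by_contra h
      apply hj
      simp only [PiLp.single_apply]
      rw [if_neg]
      rintro rfl
      exact h hi
  · rintro x ⟨hx1, hx2, hx3⟩
    have h0 : ∀ i, i ∉ σ → x i = 0 := by
      intro i hi
      by_contra h
      exact hi (hx3 i h)
    have e1 : x = ∑ i ∈ σ, x i • EuclideanSpace.single i (1 : ℝ) := by
      conv_lhs => rw [Real_sum x]
      symm
      apply Finset.sum_subset (Finset.subset_univ _)
      intro i _ hi
      rw [h0 i hi, zero_smul]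
    have e2 : ∑ i ∈ σ, x i = 1 := by
      rw [← hx2]
      apply Finset.sum_subset (Finset.subset_univ _)
      intro i _ hi
      exact h0 i hi
    rw [e1]
    apply (convex_convexHull ℝ _).sum_mem (fun i _ => hx1 i) e2
    intro i hi
    apply subset_convexHull
    exact ⟨i, hi, rfl⟩

theorem mem_Re {K : Finset (Finset (Fin N))} {x : EuclideanSpace ℝ (Fin N)} :
    x ∈ Re K ↔ ∃ σ ∈ K, (∀ i, 0 ≤ x i) ∧ ∑ i, x i = 1 ∧ ∀ i, x i ≠ 0 → i ∈ σ := by
  unfold Re
  simp only [Set.mem_iUnion, hull_eq]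
  constructor
  · rintro ⟨σ, hσ, h⟩
    exact ⟨σ, hσ, h⟩
  · rintro ⟨σ, hσ, h⟩
    exact ⟨σ, hσ, h⟩

theorem Re_compact (K : Finset (Finset (Fin N))) : IsCompact (Re K) := by
  unfold Re
  apply K.finite_toSet.isCompact_biUnion
  intro σ _
  exact (σ.finite_toSet.image _).isCompact_convexHull (𝕜 := ℝ)

end H40.VT
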