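import Pool.Agent.H40.VT.Defs

/-!
# Vietoris homology of spheres (Mayer-Vietoris)
-/

namespace H40.VT

variable {R : Type*} [CommRing R]

open RealInnerProductSpace

/-- maps which agree on the points of a chain -/
theorem Sphere_mp_congr {X Y : Type*} {S : Set X} {F : Set (Set X)} (hF : ∀ A ∈ F, A ⊆ S)
    {f g : X → Y} (h : ∀ x ∈ S, f x = g x) {c : Ch R X} (hc : c ∈ In F) : mp f c = mp g c := by
  apply eq_supported _ hc
  intro l hl
  rw [mp_s, mp_s]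
  have h1 : l.map f = l.map g := List.map_congr_left (fun x hx => h x (hF _ hl hx))
  rw [h1]

/-- acyclicity is transported from convex sets -/
theorem Sphere_transport {E F : Type*} [NormedAddCommGroup E] [NormedAddCommGroup F]
    [NormedSpace ℝ F] {A S : Set E} {D : Set F} (hD : Convex ℝ D) {p : F} (hp : p ∈ D)
    {f : E → F} {g : F → E} (hf : UniformContinuousOn f A) (hg : UniformContinuousOn g D)
    (hfA : ∀ x ∈ A, f x ∈ D) (hgD : ∀ y ∈ D, g y ∈ S) (hgf : ∀ x ∈ A, g (f x) = x) {ε : ℝ}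
    (hε : 0 < ε) : ∃ δ > 0, ∀ c : Ch R E, c ∈ In (VS A δ) → bd c = 0 →
      ∃ b ∈ In (VS S ε), bd b = c := by
  obtain ⟨δ', hδ', hg'⟩ := Metric.uniformContinuousOn_iff.1 hg ε hε
  obtain ⟨δ, hδ, hf'⟩ := Metric.uniformContinuousOn_iff.1 hf δ' hδ'
  refine ⟨δ, hδ, fun c hc hb => ?_⟩
  have h1 : mp f c ∈ In (VS D δ') := by
    refine mp_mem ?_ hc
    rintro B ⟨hB1, hB2⟩
    refine ⟨?_, ?_⟩
    · rintro _ ⟨x, hx, rfl⟩
      exact hfA x (hB1 hx)
    · rintro _ ⟨x, hx, rfl⟩ _ ⟨y, hy, rfl⟩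
      exact hf' x (hB1 hx) y (hB1 hy) (hB2 x hx y hy)
  obtain ⟨b, hb1, hb2⟩ := convex_acyclic hD hp hδ' h1 (by rw [bd_mp, hb, map_zero])
  refine ⟨mp g b, ?_, ?_⟩
  · refine mp_mem ?_ hb1
    rintro B ⟨hB1, hB2⟩
    refine ⟨?_, ?_⟩
    · rintro _ ⟨x, hx, rfl⟩
      exact hgD x (hB1 hx)
    · rintro _ ⟨x, hx, rfl⟩ _ ⟨y, hy, rfl⟩
      exact hg' x (hB1 hx) y (hB1 hy) (hB2 x hx y hy)
  · rw [bd_mp, hb2, mp_mp, Sphere_mp_congr (S := A) (g := fun x => x) (fun B hB => hB.1) hgf hc,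
      mp_id]

section cap

variable {E : Type*} [NormedAddCommGroup E] [InnerProductSpace ℝ E]

theorem Sphere_norm_sub {v x : E} (hv : ‖v‖ = 1) (hx : ‖x‖ = 1) :
    ‖x - ⟪v, x⟫ • v‖ ^ 2 = 1 - ⟪v, x⟫ ^ 2 := by
  rw [norm_sub_sq_real, norm_smul, hv, hx, inner_smul_right, real_inner_comm, mul_one,
    Real.norm_eq_abs, sq_abs]
  ring

theorem Sphere_inner_sub {v x : E} (hv : ‖v‖ = 1) : ⟪v, x - ⟪v, x⟫ • v⟫ = 0 := by
  rw [inner_sub_right, inner_smul_right, real_inner_self_eq_norm_sq, hv]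
  ring

/-- the caps have no homology in the sphere -/
theorem Sphere_cap [FiniteDimensional ℝ E] {v : E} (hv : ‖v‖ = 1) {ε : ℝ} (hε : 0 < ε) :
    ∃ δ > 0, ∀ c : Ch R E, c ∈ In (VS {x : E | ‖x‖ = 1 ∧ ⟪v, x⟫ ≤ 1 / 2} δ) → bd c = 0 →
      ∃ b ∈ In (VS {x : E | ‖x‖ = 1} ε), bd b = c := by
  have hpr : ProperSpace E := FiniteDimensional.proper ℝ E
  have hA : IsCompact {x : E | ‖x‖ = 1 ∧ ⟪v, x⟫ ≤ 1 / 2} := by
    have h1 : {x : E | ‖x‖ = 1 ∧ ⟪v, x⟫ ≤ 1 / 2} =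
        Metric.sphere (0 : E) 1 ∩ {x : E | ⟪v, x⟫ ≤ 1 / 2} := by
      ext x
      simp
    rw [h1]
    refine (isCompact_sphere (0 : E) 1).inter_right (isClosed_le (by fun_prop) continuous_const)
  have hD : Convex ℝ {w : E | ⟪v, w⟫ = 0 ∧ ‖w‖ ≤ 2} := by
    have h1 : {w : E | ⟪v, w⟫ = 0 ∧ ‖w‖ ≤ 2} =
        {w : E | ⟪v, w⟫ = 0} ∩ Metric.closedBall (0 : E) 2 := by
      ext x
      simp
    rw [h1]
    refine Convex.inter ?_ (convex_closedBall _ _)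
    intro x hx y hy a b _ _ _
    have hx' : ⟪v, x⟫ = 0 := hx
    have hy' : ⟪v, y⟫ = 0 := hy
    show ⟪v, a • x + b • y⟫ = 0
    rw [inner_add_right, inner_smul_right, inner_smul_right, hx', hy', mul_zero, mul_zero,
      add_zero]
  have hDc : IsCompact {w : E | ⟪v, w⟫ = 0 ∧ ‖w‖ ≤ 2} := by
    have h1 : {w : E | ⟪v, w⟫ = 0 ∧ ‖w‖ ≤ 2} =
        Metric.closedBall (0 : E) 2 ∩ {w : E | ⟪v, w⟫ = 0} := by
      ext x
      simp [and_comm]
    rw [h1]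
    exact (isCompact_closedBall (0 : E) 2).inter_right
      (isClosed_eq (by fun_prop) continuous_const)
  refine Sphere_transport (A := {x : E | ‖x‖ = 1 ∧ ⟪v, x⟫ ≤ 1 / 2}) (S := {x : E | ‖x‖ = 1}) hD
    (p := 0) ⟨inner_zero_right _, by rw [norm_zero]; norm_num⟩
    (f := fun x => (1 - ⟪v, x⟫)⁻¹ • (x - ⟪v, x⟫ • v))
    (g := fun w => (‖w‖ ^ 2 + 1)⁻¹ • ((2 : ℝ) • w + (‖w‖ ^ 2 - 1) • v)) ?_ ?_ ?_ ?_ ?_ hε
  · apply hA.uniformContinuousOn_of_continuous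
    refine ContinuousOn.smul (ContinuousOn.inv₀ (by fun_prop) ?_) (by fun_prop)
    rintro x ⟨_, hx⟩
    have : (0 : ℝ) < 1 - ⟪v, x⟫ := by linarith
    exact this.ne'
  · apply hDc.uniformContinuousOn_of_continuous
    refine ContinuousOn.smul (ContinuousOn.inv₀ (by fun_prop) ?_) (by fun_prop)
    intro x _
    positivity
  · rintro x ⟨hx1, hx2⟩
    have h0 : (0 : ℝ) < 1 - ⟪v, x⟫ := by linarith
    refine ⟨?_, ?_⟩
    · rw [inner_smul_right, Sphere_inner_sub hv, mul_zero]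
    · have h1 := Sphere_norm_sub hv hx1
      have h2 : ‖x - ⟪v, x⟫ • v‖ ≤ 1 := by
        have := norm_nonneg (x - ⟪v, x⟫ • v)
        nlinarith [sq_nonneg ⟪v, x⟫]
      rw [norm_smul, norm_inv, Real.norm_eq_abs, abs_of_pos h0]
      have h3 : (1 - ⟪v, x⟫)⁻¹ ≤ 2 := by
        rw [inv_le_comm₀ h0 (by norm_num)]
        linarith
      have h4 : (0 : ℝ) ≤ (1 - ⟪v, x⟫)⁻¹ := by positivity
      have := norm_nonneg (x - ⟪v, x⟫ • v)
      nlinarith
  · rintro w ⟨hw1, _⟩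
    show ‖(‖w‖ ^ 2 + 1)⁻¹ • ((2 : ℝ) • w + (‖w‖ ^ 2 - 1) • v)‖ = 1
    have h0 : (0 : ℝ) < ‖w‖ ^ 2 + 1 := by positivity
    have h1 : ‖(2 : ℝ) • w + (‖w‖ ^ 2 - 1) • v‖ ^ 2 = (‖w‖ ^ 2 + 1) ^ 2 := by
      rw [norm_add_sq_real, norm_smul, norm_smul, hv, inner_smul_left, inner_smul_right,
        real_inner_comm, hw1, Real.norm_eq_abs, Real.norm_eq_abs, mul_pow, mul_pow, sq_abs, sq_abs]
      ring
    have h2 : ‖(2 : ℝ) • w + (‖w‖ ^ 2 - 1) • v‖ = ‖w‖ ^ 2 + 1 := by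
      have h3 := norm_nonneg ((2 : ℝ) • w + (‖w‖ ^ 2 - 1) • v)
      exact (pow_left_inj₀ h3 h0.le (by norm_num)).1 h1
    rw [norm_smul, h2, norm_inv, Real.norm_eq_abs, abs_of_pos h0]
    exact inv_mul_cancel₀ h0.ne'
  · rintro x ⟨hx1, hx2⟩
    have h0 : (0 : ℝ) < 1 - ⟪v, x⟫ := by linarith
    show (‖(1 - ⟪v, x⟫)⁻¹ • (x - ⟪v, x⟫ • v)‖ ^ 2 + 1)⁻¹ •
      ((2 : ℝ) • ((1 - ⟪v, x⟫)⁻¹ • (x - ⟪v, x⟫ • v)) +
        (‖(1 - ⟪v, x⟫)⁻¹ • (x - ⟪v, x⟫ • v)‖ ^ 2 - 1) • v) = x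
    have h1 : ‖(1 - ⟪v, x⟫)⁻¹ • (x - ⟪v, x⟫ • v)‖ ^ 2 = (1 + ⟪v, x⟫) / (1 - ⟪v, x⟫) := by
      rw [norm_smul, mul_pow, Sphere_norm_sub hv hx1, norm_inv, Real.norm_eq_abs,
        abs_of_pos h0]
      field_simp
      ring
    rw [h1]
    have h2 : ((1 + ⟪v, x⟫) / (1 - ⟪v, x⟫) + 1)⁻¹ = (1 - ⟪v, x⟫) / 2 := by
      have : (1 + ⟪v, x⟫) / (1 - ⟪v, x⟫) + 1 = 2 / (1 - ⟪v, x⟫) := by
        field_simp
        ring
      rw [this, inv_div]
    rw [h2, smul_add, smul_smul, smul_smul, smul_smul]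
    have h3 : (1 - ⟪v, x⟫) / 2 * 2 * (1 - ⟪v, x⟫)⁻¹ = 1 := by
      field_simp
    have h4 : (1 - ⟪v, x⟫) / 2 * ((1 + ⟪v, x⟫) / (1 - ⟪v, x⟫) - 1) = ⟪v, x⟫ := by
      field_simp
      ring
    simp only [h3, h4, one_smul]
    abel

/-- the step from the equator to the sphere -/
theorem Sphere_step [FiniteDimensional ℝ E] {v : E} (hv : ‖v‖ = 1) {m : ℕ}
    (ih : ∀ ε : ℝ, 0 < ε → ∃ δ > 0, ∀ c : Ch R (ℝ ∙ v)ᗮ, c ∈ In (VS {x | ‖x‖ = 1} δ) →
      c ∈ Len m → bd c = 0 → ∃ b ∈ In (VS {x | ‖x‖ = 1} ε), bd b = c) {ε : ℝ} (hε : 0 < ε) :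
    ∃ δ > 0, ∀ c : Ch R E, c ∈ In (VS {x : E | ‖x‖ = 1} δ) → c ∈ Len (m + 1) → bd c = 0 →
      ∃ b ∈ In (VS {x : E | ‖x‖ = 1} ε), bd b = c := by
  classical
  obtain ⟨δ1, hδ1, hcap1⟩ := Sphere_cap (R := R) hv hε
  obtain ⟨δ2, hδ2, hcap2⟩ := Sphere_cap (R := R) (v := -v) (by rw [norm_neg, hv]) hε
  obtain ⟨δ0, hδ0, h01, h02⟩ : ∃ δ0 > 0, δ0 ≤ δ1 ∧ δ0 ≤ δ2 :=
    ⟨min δ1 δ2, lt_min hδ1 hδ2, min_le_left _ _, min_le_right _ _⟩
  obtain ⟨δ3, hδ3, hih⟩ := ih δ0 hδ0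
  obtain ⟨δ, hδ, g1, g2, g3⟩ : ∃ δ > 0, 5 * δ ≤ δ3 ∧ 5 * δ ≤ δ0 ∧ 5 * δ ≤ 1 := by
    refine ⟨min (min δ3 δ0) 1 / 5, by positivity, ?_, ?_, ?_⟩
    · rw [mul_div_cancel₀ _ (by norm_num)]
      exact le_trans (min_le_left _ _) (min_le_left _ _)
    · rw [mul_div_cancel₀ _ (by norm_num)]
      exact le_trans (min_le_left _ _) (min_le_right _ _)
    · rw [mul_div_cancel₀ _ (by norm_num)]
      exact min_le_right _ _
  refine ⟨δ, hδ, fun c hc hcl hbc => ?_⟩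
  -- the retraction to the equator
  obtain ⟨r, hr⟩ : ∃ r : E → E, ∀ x, r x = ‖x - ⟪v, x⟫ • v‖⁻¹ • (x - ⟪v, x⟫ • v) :=
    ⟨_, fun _ => rfl⟩
  have hrv : ∀ x, ⟪v, r x⟫ = 0 := by
    intro x
    rw [hr, inner_smul_right, Sphere_inner_sub hv, mul_zero]
  have hrb : ∀ x, ‖x‖ = 1 → |⟪v, x⟫| < δ → ‖r x‖ = 1 ∧ dist x (r x) < 2 * δ := by
    intro x hx1 hx2
    have e1 : ‖x - (x - ⟪v, x⟫ • v)‖ = |⟪v, x⟫| := by
      rw [sub_sub_cancel, norm_smul, hv, mul_one, Real.norm_eq_abs]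
    have e2 : |‖x‖ - ‖x - ⟪v, x⟫ • v‖| ≤ |⟪v, x⟫| := by
      rw [← e1]
      exact abs_norm_sub_norm_le _ _
    rw [hx1] at e2
    have e3 := abs_le.1 e2
    have e4 : 0 < ‖x - ⟪v, x⟫ • v‖ := by linarith
    refine ⟨?_, ?_⟩
    · rw [hr, norm_smul, norm_inv, norm_norm]
      exact inv_mul_cancel₀ e4.ne'
    · have e5 : ‖(x - ⟪v, x⟫ • v) - r x‖ ≤ |⟪v, x⟫| := by
        have e6 : (x - ⟪v, x⟫ • v) - r x =
            (1 - ‖x - ⟪v, x⟫ • v‖⁻¹) • (x - ⟪v, x⟫ • v) := by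
          rw [hr, sub_smul (1 : ℝ), one_smul]
        rw [e6, norm_smul, Real.norm_eq_abs]
        have e7 : |1 - ‖x - ⟪v, x⟫ • v‖⁻¹| * ‖x - ⟪v, x⟫ • v‖ =
            |1 - ‖x - ⟪v, x⟫ • v‖| := by
          rw [← abs_of_pos e4, ← abs_mul, abs_of_pos e4, sub_mul, inv_mul_cancel₀ e4.ne', one_mul,
            abs_sub_comm]
        rw [e7]
        exact e2
      have e8 : x - r x = (x - (x - ⟪v, x⟫ • v)) + ((x - ⟪v, x⟫ • v) - r x) := by abel
      rw [dist_eq_norm, e8]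
      have e9 := norm_add_le (x - (x - ⟪v, x⟫ • v)) ((x - ⟪v, x⟫ • v) - r x)
      rw [e1] at e9
      linarith
  -- the two parts
  obtain ⟨P, hP⟩ : ∃ P : List E → Prop, P = fun l => ∀ x ∈ l, -δ < ⟪v, x⟫ := ⟨_, rfl⟩
  have ha : prt P c ∈ In (VS {x : E | ‖x‖ = 1 ∧ -δ < ⟪v, x⟫} δ) := by
    intro l hl
    obtain ⟨h1, h2⟩ := (prt_mem (P := P) hc) hl
    rw [hP] at h2
    exact ⟨fun x hx => ⟨h1.1 hx, h2 x hx⟩, h1.2⟩
  have hb : prt (fun l => ¬ P l) c ∈ In (VS {x : E | ‖x‖ = 1 ∧ ⟪v, x⟫ < 0} δ) := by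
    intro l hl
    obtain ⟨h1, h2⟩ := (prt_mem (P := fun l => ¬ P l) hc) hl
    rw [hP] at h2
    refine ⟨fun x hx => ⟨h1.1 hx, ?_⟩, h1.2⟩
    have h3 : ∃ y ∈ l, ⟪v, y⟫ ≤ -δ := by
      by_contra h4
      apply h2
      intro y hy
      by_contra h5
      exact h4 ⟨y, hy, not_lt.1 h5⟩
    obtain ⟨y, hy, hy2⟩ := h3
    have h6 : dist x y < δ := h1.2 x hx y hy
    have h7 : ⟪v, x⟫ - ⟪v, y⟫ ≤ dist x y := by
      rw [← inner_sub_right, dist_eq_norm]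
      have := real_inner_le_norm v (x - y)
      rw [hv, one_mul] at this
      exact this
    linarith
  have hab := prt_add_not (P := P) c
  obtain ⟨a, haa⟩ : ∃ a, a = prt P c := ⟨_, rfl⟩
  obtain ⟨b, hbb⟩ : ∃ b, b = prt (fun l => ¬ P l) c := ⟨_, rfl⟩
  have hal : a ∈ Len (m + 1) := by
    intro l hl
    rw [haa] at hl
    exact ((prt_mem (P := P) hcl) hl).1
  rw [← haa, ← hbb] at hab
  rw [← haa] at ha
  rw [← hbb] at hb
  clear haa hbb
  obtain ⟨z, hz⟩ : ∃ z, z = bd a := ⟨_, rfl⟩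
  have hzb : bd b = -z := by
    rw [← hab, map_add, ← hz] at hbc
    exact eq_neg_of_add_eq_zero_right hbc
  have hz1 : z ∈ In (VS {x : E | ‖x‖ = 1 ∧ -δ < ⟪v, x⟫} δ) := by
    rw [hz]
    exact bd_mem (VS_down _ _) ha
  have hz2 : z ∈ In (VS {x : E | ‖x‖ = 1 ∧ ⟪v, x⟫ < 0} δ) := by
    have h1 : z = -bd b := by rw [hzb, neg_neg]
    rw [h1]
    exact Submodule.neg_mem _ (bd_mem (VS_down _ _) hb)
  have hz3 : z ∈ In (VS {x : E | ‖x‖ = 1 ∧ |⟪v, x⟫| < δ} δ) := by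
    intro l hl
    refine ⟨fun x hx => ?_, (hz1 hl).2⟩
    have h1 := (hz1 hl).1 hx
    have h2 := (hz2 hl).1 hx
    exact ⟨h1.1, abs_lt.2 ⟨h1.2, lt_trans h2.2 hδ⟩⟩
  have hzl : z ∈ Len m := by
    rw [hz]
    exact bd_len hal
  have hzc : bd z = 0 := by
    rw [hz, bd_bd]
  -- the equator
  obtain ⟨ρ, hρ⟩ : ∃ ρ : E → (ℝ ∙ v)ᗮ, ∀ x, ((ρ x : (ℝ ∙ v)ᗮ) : E) = r x :=
    ⟨fun x => ⟨r x, (Submodule.mem_orthogonal_singleton_iff_inner_right).2 (hrv x)⟩, fun _ => rfl⟩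
  obtain ⟨w, hw1, hw2⟩ := hih (mp ρ z) (by
    refine mp_mem ?_ hz3
    rintro B ⟨hB1, hB2⟩
    refine ⟨?_, ?_⟩
    · rintro _ ⟨x, hx, rfl⟩
      have h1 := hB1 hx
      show ‖ρ x‖ = 1
      rw [Submodule.coe_norm, hρ]
      exact (hrb x h1.1 h1.2).1
    · rintro _ ⟨x, hx, rfl⟩ _ ⟨y, hy, rfl⟩
      have h1 := hB1 hx
      have h2 := hB1 hy
      rw [Subtype.dist_eq, hρ, hρ]
      have h3 := (hrb x h1.1 h1.2).2
      have h4 := (hrb y h2.1 h2.2).2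
      have h5 := hB2 x hx y hy
      have h6 := dist_triangle4 (r x) x y (r y)
      rw [dist_comm (r x) x] at h6
      linarith) (mp_len hzl) (by rw [bd_mp, hzc, map_zero])
  obtain ⟨u, hu⟩ : ∃ u, u = mp (fun x : (ℝ ∙ v)ᗮ => (x : E)) w - pr (fun x => x) r z := ⟨_, rfl⟩
  have hu1 : bd u = z := by
    have h1 := bd_pr (fun x => x) r z
    rw [hzc, map_zero, add_zero, mp_id] at h1
    have h2 : (fun x => ((ρ x : (ℝ ∙ v)ᗮ) : E)) = r := funext hρ
    rw [hu, map_sub, h1, bd_mp, hw2, mp_mp, h2]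
    abel
  have hu2 : u ∈ In (VS {x : E | ‖x‖ = 1 ∧ |⟪v, x⟫| ≤ 1 / 2} δ0) := by
    rw [hu]
    apply Submodule.sub_mem
    · refine mp_mem ?_ hw1
      rintro B ⟨hB1, hB2⟩
      refine ⟨?_, ?_⟩
      · rintro _ ⟨x, hx, rfl⟩
        have h1 : ‖x‖ = 1 := hB1 hx
        refine ⟨h1, ?_⟩
        rw [(Submodule.mem_orthogonal_singleton_iff_inner_right).1 x.2, abs_zero]
        norm_num
      · rintro _ ⟨x, hx, rfl⟩ _ ⟨y, hy, rfl⟩
        exact hB2 x hx y hy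
    · refine pr_mem (VS_down _ _) ?_ hz3
      rintro B ⟨hB1, hB2⟩
      have key1 : ∀ x ∈ B, ‖r x‖ = 1 ∧ dist x (r x) < 2 * δ := by
        intro x hx
        have h1 := hB1 hx
        exact hrb x h1.1 h1.2
      have key2 : ∀ x ∈ B, ∀ y ∈ B, dist x (r y) < δ0 := by
        intro x hx y hy
        have h1 := dist_triangle x y (r y)
        have h2 := hB2 x hx y hy
        have h3 := (key1 y hy).2
        linarith
      refine ⟨?_, ?_⟩
      · rintro _ (⟨x, hx, rfl⟩ | ⟨x, hx, rfl⟩)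
        · have h1 := hB1 hx
          refine ⟨h1.1, ?_⟩
          have h2 := h1.2
          linarith
        · refine ⟨(key1 x hx).1, ?_⟩
          rw [hrv, abs_zero]
          norm_num
      · rintro _ (⟨x, hx, rfl⟩ | ⟨x, hx, rfl⟩) _ (⟨y, hy, rfl⟩ | ⟨y, hy, rfl⟩)
        · have := hB2 x hx y hy
          linarith
        · exact key2 x hx y hy
        · rw [dist_comm]
          exact key2 y hy x hx
        · have h3 := (key1 x hx).2
          have h4 := (key1 y hy).2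
          have h5 := hB2 x hx y hy
          have h6 := dist_triangle4 (r x) x y (r y)
          rw [dist_comm (r x) x] at h6
          linarith
  -- the two caps
  obtain ⟨b1, hb1, hb2⟩ := hcap2 (a - u) (by
    apply Submodule.sub_mem
    · refine In_mono ?_ ha
      rintro B ⟨hB1, hB2⟩
      refine ⟨?_, ?_⟩
      · intro x hx
        have h1 := hB1 hx
        refine ⟨h1.1, ?_⟩
        rw [inner_neg_left]
        have h2 := h1.2
        linarith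
      · exact V_mono (by linarith) hB2
    · refine In_mono ?_ hu2
      rintro B ⟨hB1, hB2⟩
      refine ⟨?_, ?_⟩
      · intro x hx
        have h1 := hB1 hx
        refine ⟨h1.1, ?_⟩
        rw [inner_neg_left]
        have h2 := abs_le.1 h1.2
        linarith
      · exact V_mono (by linarith) hB2) (by rw [map_sub, hu1, ← hz, sub_self])
  obtain ⟨b3, hb3, hb4⟩ := hcap1 (b + u) (by
    apply Submodule.add_mem
    · refine In_mono ?_ hb
      rintro B ⟨hB1, hB2⟩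
      refine ⟨?_, ?_⟩
      · intro x hx
        have h1 := hB1 hx
        refine ⟨h1.1, ?_⟩
        have h2 := h1.2
        linarith
      · exact V_mono (by linarith) hB2
    · refine In_mono ?_ hu2
      rintro B ⟨hB1, hB2⟩
      refine ⟨?_, ?_⟩
      · intro x hx
        have h1 := hB1 hx
        refine ⟨h1.1, ?_⟩
        have h2 := abs_le.1 h1.2
        linarith
      · exact V_mono (by linarith) hB2) (by rw [map_add, hu1, hzb, neg_add_cancel])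
  refine ⟨b1 + b3, Submodule.add_mem _ hb1 hb3, ?_⟩
  rw [map_add, hb2, hb4, ← hab]
  abel

end cap

/-- the sphere of dimension `d - 1` (chains of points of the space) -/
theorem Sphere_ind (d : ℕ) : ∀ (E : Type) [NormedAddCommGroup E] [InnerProductSpace ℝ E]
    [FiniteDimensional ℝ E], Module.finrank ℝ E = d → ∀ n : ℕ, n ≠ d → ∀ ε : ℝ, 0 < ε →
    ∃ δ > 0, ∀ c : Ch R E, c ∈ In (VS {x : E | ‖x‖ = 1} δ) → c ∈ Len n → bd c = 0 →
      ∃ b ∈ In (VS {x : E | ‖x‖ = 1} ε), bd b = c := by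
  induction d with
  | zero =>
    intro E _ _ _ hE n hn ε hε
    refine ⟨1, one_pos, fun c hc hcl _ => ?_⟩
    have hsub : Subsingleton E := Module.finrank_zero_iff.1 hE
    have hc0 : c = 0 := by
      rw [← Finsupp.support_eq_empty, Finset.eq_empty_iff_forall_notMem]
      intro l hl
      have h1 := (hc hl).1
      have h2 : l.length = n := hcl hl
      rcases l with _ | ⟨x, l⟩
      · exact hn h2.symm
      · have h3 : ‖x‖ = 1 := h1 List.mem_cons_self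
        rw [hsub.elim x 0, norm_zero] at h3
        exact zero_ne_one h3
    exact ⟨0, Submodule.zero_mem _, by rw [hc0, map_zero]⟩
  | succ d ih =>
    intro E _ _ _ hE n hn ε hε
    have hnt : Nontrivial E := Module.nontrivial_of_finrank_pos (R := ℝ) (by omega)
    obtain ⟨v, hv⟩ := exists_norm_eq E (zero_le_one (α := ℝ))
    rcases n with _ | m
    · refine ⟨1, one_pos, fun c hc hcl hb =>
        ⟨cone v c, ?_, by rw [bd_cone, hb, map_zero, sub_zero]⟩⟩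
      have h1 : c ∈ In {A : Set E | A = ∅} := by
        intro l hl
        have h2 : l.length = 0 := hcl hl
        have h3 : l = [] := List.length_eq_zero_iff.1 h2
        subst h3
        show {x : E | x ∈ ([] : List E)} = ∅
        simp
      refine cone_mem ?_ h1
      intro A hA
      have hA' : A = ∅ := hA
      subst hA'
      refine ⟨?_, ?_⟩
      · rintro x (hx | hx)
        · rw [hx]
          exact hv
        · exact hx.elim
      · rintro x (hx | hx) y (hy | hy)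
        · rw [hx, hy, dist_self]
          exact hε
        · exact hy.elim
        · exact hx.elim
        · exact hx.elim
    · have hfact : Fact (Module.finrank ℝ E = d + 1) := ⟨hE⟩
      have hv0 : v ≠ 0 := by
        intro h
        rw [h, norm_zero] at hv
        exact zero_ne_one hv
      exact Sphere_step hv (fun ε' hε' => ih (ℝ ∙ v)ᗮ
        (Submodule.finrank_orthogonal_span_singleton hv0) m (by omega) ε' hε') hε

/-- the sphere of `E` has no homology in lengths different from `dim E` -/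
theorem sphere_pro {E : Type} [NormedAddCommGroup E] [InnerProductSpace ℝ E]
    [FiniteDimensional ℝ E] {n : ℕ} (hn : n ≠ Module.finrank ℝ E) :
    Pro R (Metric.sphere (0 : E) 1) n := by
  classical
  intro ε hε
  obtain ⟨δ, hδ, h⟩ := Sphere_ind (R := R) (Module.finrank ℝ E) E rfl n hn ε hε
  refine ⟨δ, hδ, fun c hc hcl hb => ?_⟩
  rcases isEmpty_or_nonempty (Metric.sphere (0 : E) 1) with he | ⟨⟨p⟩⟩
  · -- the sphere is empty
    have hsub : Subsingleton E := by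
      by_contra h1
      rw [not_subsingleton_iff_nontrivial] at h1
      obtain ⟨v, hv⟩ := exists_norm_eq E (zero_le_one (α := ℝ))
      exact he.elim ⟨v, by simpa using hv⟩
    have h0 : Module.finrank ℝ E = 0 := Module.finrank_zero_of_subsingleton
    have hc0 : c = 0 := by
      rw [← Finsupp.support_eq_empty, Finset.eq_empty_iff_forall_notMem]
      intro l hl
      have h2 : l.length = n := hcl hl
      rcases l with _ | ⟨x, l⟩
      · exact hn (by rw [h0]; exact h2.symm)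
      · exact he.elim x
    exact ⟨0, Submodule.zero_mem _, by rw [hc0, map_zero]⟩
  · obtain ⟨g, hg⟩ : ∃ g : E → Metric.sphere (0 : E) 1,
        ∀ x (hx : x ∈ Metric.sphere (0 : E) 1), g x = ⟨x, hx⟩ :=
      ⟨fun x => if hx : x ∈ Metric.sphere (0 : E) 1 then ⟨x, hx⟩ else p, fun x hx => dif_pos hx⟩
    obtain ⟨b, hb1, hb2⟩ := h (mp (fun x : Metric.sphere (0 : E) 1 => (x : E)) c) (by
      refine mp_mem ?_ hc
      intro A hA
      refine ⟨?_, ?_⟩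
      · rintro _ ⟨x, _, rfl⟩
        exact mem_sphere_zero_iff_norm.1 x.2
      · rintro _ ⟨x, hx, rfl⟩ _ ⟨y, hy, rfl⟩
        exact hA x hx y hy) (mp_len hcl) (by rw [bd_mp, hb, map_zero])
    refine ⟨mp g b, ?_, ?_⟩
    · refine mp_mem ?_ hb1
      rintro B ⟨hB1, hB2⟩
      rintro _ ⟨x, hx, rfl⟩ _ ⟨y, hy, rfl⟩
      have hx' : x ∈ Metric.sphere (0 : E) 1 := mem_sphere_zero_iff_norm.2 (hB1 hx)
      have hy' : y ∈ Metric.sphere (0 : E) 1 := mem_sphere_zero_iff_norm.2 (hB1 hy)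
      rw [hg x hx', hg y hy']
      exact hB2 x hx y hy
    · rw [bd_mp, hb2, mp_mp]
      have h1 : (fun x : Metric.sphere (0 : E) 1 => g (x : E)) = fun x => x := by
        funext x
        exact hg x x.2
      rw [h1, mp_id]

end H40.VT
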