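import Pool.Agent.H40.VT.Chain

/-!
# Vietoris chains: chains of tuples of close points
-/

namespace H40.VT

open Finsupp

variable {R : Type*} [CommRing R] {X Y Z : Type*}

/-- the sets of points with pairwise distances less than `ε` -/
def V (X : Type*) [PseudoMetricSpace X] (ε : ℝ) : Set (Set X) :=
  {A | ∀ a ∈ A, ∀ b ∈ A, dist a b < ε}

theorem V_down [PseudoMetricSpace X] (ε : ℝ) : Down (V X ε) :=
  fun _ hA _ hB a ha b hb => hA a (hB ha) b (hB hb)

theorem V_mono [PseudoMetricSpace X] {ε ε' : ℝ} (h : ε ≤ ε') : V X ε ⊆ V X ε' :=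
  fun _ hA a ha b hb => lt_of_lt_of_le (hA a ha b hb) h

/-- a sequence of prisms -/
theorem steps {F : Set (Set X)} {G : Set (Set Y)} (hG : Down G) (f : ℕ → X → Y) (m : ℕ)
    (h : ∀ j < m, ∀ A ∈ F, f j '' A ∪ f (j + 1) '' A ∈ G) {c : Ch R X} (hc : c ∈ In F)
    (hb : bd c = 0) : ∃ b ∈ In G, bd b = mp (f 0) c - mp (f m) c := by
  induction m with
  | zero => exact ⟨0, Submodule.zero_mem _, by rw [map_zero, sub_self]⟩
  | succ m ih =>
    obtain ⟨b, hb1, hb2⟩ := ih (fun j hj => h j (by omega))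
    refine ⟨b - pr (f m) (f (m + 1)) c, Submodule.sub_mem _ hb1 (pr_mem hG (h m (by omega)) hc), ?_⟩
    have h1 := bd_pr (f m) (f (m + 1)) c
    rw [hb, map_zero, add_zero] at h1
    rw [map_sub, hb2, h1]
    abel

/-- cycles which are mapped to one point are boundaries -/
theorem to_point {G : Set (Set Y)} (hG : Down G) {p : Y} (hp : {p} ∈ G) {f : X → Y}
    (hf : ∀ x, f x = p) {c : Ch R X} (hb : bd c = 0) : ∃ b ∈ In G, bd b = mp f c := by
  refine ⟨cone p (mp f c), ?_, ?_⟩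
  · have h1 : mp f c ∈ In {A : Set Y | A ⊆ {p}} := by
      have h2 : c ∈ (In (Set.univ : Set (Set X)) : Submodule R (Ch R X)) := fun l _ => Set.mem_univ _
      refine mp_mem ?_ h2
      intro A _
      rintro _ ⟨x, _, rfl⟩
      exact hf x
    refine cone_mem ?_ h1
    intro A hA
    exact hG _ hp _ (Set.insert_subset rfl hA)
  · rw [bd_cone, bd_mp, hb, map_zero, map_zero, sub_zero]

/-- the contraction lemma -/
theorem contr {A : Type*} [MetricSpace A] [CompactSpace A] [MetricSpace Y]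
    {H : unitInterval × A → Y} (hH : Continuous H) {p : Y} (hp : ∀ a, H (1, a) = p) {ε : ℝ}
    (hε : 0 < ε) : ∃ δ > 0, ∀ c : Ch R A, c ∈ In (V A δ) → bd c = 0 →
      ∃ b ∈ In (V Y ε), bd b = mp (fun a => H (0, a)) c := by
  have hu := CompactSpace.uniformContinuous_of_continuous hH
  obtain ⟨δ, hδ, hd⟩ := Metric.uniformContinuous_iff.1 hu ε hε
  refine ⟨δ, hδ, ?_⟩
  intro c hc hb
  obtain ⟨m, hm⟩ := exists_nat_gt (1 / δ)
  have hm0 : (0 : ℝ) < m := lt_trans (by positivity) hm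
  have hm1 : 1 / (m : ℝ) < δ := by
    rw [div_lt_iff₀ hm0]
    rw [div_lt_iff₀ hδ] at hm
    linarith
  -- the intermediate maps
  obtain ⟨t, ht⟩ : ∃ t : ℕ → unitInterval, ∀ j, t j = Set.projIcc 0 1 zero_le_one ((j : ℝ) / m) :=
    ⟨_, fun j => rfl⟩
  have ht0 : t 0 = 0 := by
    rw [ht]
    simp [Set.projIcc_left]
  have htm : t m = 1 := by
    rw [ht, div_self hm0.ne', Set.projIcc_right]
    rfl
  have htd : ∀ j, dist (t j) (t (j + 1)) < δ := by
    intro j
    refine lt_of_le_of_lt ?_ hm1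
    rw [ht, ht]
    have h1 := (LipschitzWith.projIcc (a := (0 : ℝ)) (b := 1) zero_le_one).dist_le_mul
      ((j : ℝ) / m) (((j + 1 : ℕ) : ℝ) / m)
    refine le_trans h1 ?_
    rw [Real.dist_eq]
    have e : (j : ℝ) / m - ((j + 1 : ℕ) : ℝ) / m = -(1 / m) := by
      push_cast
      ring
    rw [e, abs_neg, abs_of_pos (by positivity)]
    simp
  obtain ⟨b1, hb1, hb2⟩ := steps (F := V A δ) (V_down ε) (fun j a => H (t j, a)) m (by
    intro j _ A' hA'
    rintro _ (⟨a, ha, rfl⟩ | ⟨a, ha, rfl⟩) _ (⟨a', ha', rfl⟩ | ⟨a', ha', rfl⟩)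
    · apply hd
      rw [Prod.dist_eq]
      simp only [dist_self]
      exact max_lt hδ (hA' a ha a' ha')
    · apply hd
      rw [Prod.dist_eq]
      exact max_lt (htd j) (hA' a ha a' ha')
    · apply hd
      rw [Prod.dist_eq]
      simp only
      rw [dist_comm (t (j + 1))]
      exact max_lt (htd j) (hA' a ha a' ha')
    · apply hd
      rw [Prod.dist_eq]
      simp only [dist_self]
      exact max_lt hδ (hA' a ha a' ha')) hc hb
  obtain ⟨b2, hb3, hb4⟩ := to_point (G := V Y ε) (V_down ε) (p := p) (by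
    intro a ha b hb
    rw [ha, hb, dist_self]
    exact hε) (f := fun a => H (t m, a)) (by
    intro a
    rw [htm]
    exact hp a) hb
  refine ⟨b1 + b2, Submodule.add_mem _ hb1 hb3, ?_⟩
  rw [map_add, hb2, hb4, sub_add_cancel, ht0]

/-- a finite set of numbers less than `ε` has an upper bound less than `ε` -/
theorem exists_bd (T : Finset ℝ) {ε : ℝ} (h : ∀ q ∈ T, q < ε) : ∃ ε1 < ε, ∀ q ∈ T, q ≤ ε1 := by
  induction T using Finset.induction_on with
  | empty => exact ⟨ε - 1, by linarith, by simp⟩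
  | insert a T _ ih =>
    obtain ⟨ε1, h1, h2⟩ := ih (fun q hq => h q (Finset.mem_insert_of_mem hq))
    refine ⟨max a ε1, max_lt (h a (Finset.mem_insert_self _ _)) h1, ?_⟩
    intro q hq
    rcases Finset.mem_insert.1 hq with rfl | hq
    · exact le_max_left _ _
    · exact le_trans (h2 q hq) (le_max_right _ _)

/-- Vietoris chains in a set -/
def VS [PseudoMetricSpace X] (S : Set X) (ε : ℝ) : Set (Set X) := {A | A ⊆ S ∧ A ∈ V X ε}

theorem VS_down [PseudoMetricSpace X] (S : Set X) (ε : ℝ) : Down (VS S ε) :=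
  fun A hA B hB => ⟨hB.trans hA.1, V_down ε A hA.2 B hB⟩

/-- convex sets are acyclic at every scale -/
theorem convex_acyclic {E : Type*} [NormedAddCommGroup E] [NormedSpace ℝ E] {S : Set E}
    (hS : Convex ℝ S) {p : E} (hp : p ∈ S) {ε : ℝ} (hε : 0 < ε) {c : Ch R E} (hc : c ∈ In (VS S ε))
    (hb : bd c = 0) : ∃ b ∈ In (VS S ε), bd b = c := by
  classical
  -- finiteness
  obtain ⟨ε1, he1, he2⟩ := exists_bd (c.support.biUnion fun l =>
    (l.toFinset ×ˢ l.toFinset).image fun q => dist q.1 q.2) (ε := ε) (by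
      intro q hq
      simp only [Finset.mem_biUnion, Finset.mem_image, Finset.mem_product, List.mem_toFinset] at hq
      obtain ⟨l, hl, ⟨a, b⟩, ⟨ha, hb⟩, rfl⟩ := hq
      exact (hc hl).2 a ha b hb)
  obtain ⟨D, hD⟩ : ∃ D : ℝ, ∀ l ∈ c.support, ∀ a ∈ l, dist a p ≤ D := by
    obtain ⟨D, hD⟩ := (((c.support.biUnion fun l => l.toFinset).image fun a => dist a p) : Finset ℝ).bddAbove
    refine ⟨D, ?_⟩
    intro l hl a ha
    apply hD
    simp only [Finset.coe_image, Set.mem_image, Finset.mem_coe, Finset.mem_biUnion,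
      List.mem_toFinset]
    exact ⟨a, ⟨l, hl, ha⟩, rfl⟩
  have he0 : 0 < ε - ε1 := by linarith
  obtain ⟨m, hm⟩ := exists_nat_gt (max D 0 / (ε - ε1))
  obtain ⟨m', hm'⟩ : ∃ m' : ℕ, m' = m + 1 := ⟨_, rfl⟩
  have hm0 : (0 : ℝ) < m' := by rw [hm']; positivity
  have hm1 : max D 0 / m' < ε - ε1 := by
    rw [div_lt_iff₀ he0] at hm
    rw [div_lt_iff₀ hm0, hm']
    push_cast
    nlinarith
  -- the family of the lists of c
  have hcF : c ∈ In {A : Set E | A ⊆ S ∧ (∀ a ∈ A, ∀ b ∈ A, dist a b ≤ ε1) ∧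
      ∀ a ∈ A, dist a p ≤ max D 0} := by
    intro l hl
    refine ⟨(hc hl).1, ?_, ?_⟩
    · intro a ha b hb
      apply he2
      simp only [Finset.mem_biUnion, Finset.mem_image, Finset.mem_product, List.mem_toFinset]
      exact ⟨l, hl, ⟨a, b⟩, ⟨ha, hb⟩, rfl⟩
    · intro a ha
      exact le_trans (hD l hl a ha) (le_max_left _ _)
  obtain ⟨f, hf⟩ : ∃ f : ℕ → E → E, ∀ j x, f j x = x + (min ((j : ℝ) / m') 1) • (p - x) :=
    ⟨_, fun j x => rfl⟩
  have hτ : ∀ j : ℕ, 0 ≤ min ((j : ℝ) / m') 1 ∧ min ((j : ℝ) / m') 1 ≤ 1 := by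
    intro j
    exact ⟨le_min (by positivity) zero_le_one, min_le_right _ _⟩
  have hmem : ∀ j x, x ∈ S → f j x ∈ S := by
    intro j x hx
    rw [hf]
    exact hS.add_smul_sub_mem hx hp ⟨(hτ j).1, (hτ j).2⟩
  have hdist : ∀ j x y, dist (f j x) (f j y) ≤ dist x y := by
    intro j x y
    rw [hf, hf, dist_eq_norm, dist_eq_norm]
    have e : x + (min ((j : ℝ) / m') 1) • (p - x) - (y + (min ((j : ℝ) / m') 1) • (p - y)) =
        (1 - min ((j : ℝ) / m') 1) • (x - y) := by
      rw [smul_sub, smul_sub, sub_smul, one_smul, smul_sub]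
      abel
    rw [e, norm_smul, Real.norm_eq_abs, abs_of_nonneg (by linarith [(hτ j).2])]
    have := norm_nonneg (x - y)
    nlinarith [(hτ j).1]
  have hstep : ∀ j x, dist (f j x) (f (j + 1) x) ≤ dist x p / m' := by
    intro j x
    rw [hf, hf, dist_add_left, dist_eq_norm, ← sub_smul, norm_smul, dist_comm x p, dist_eq_norm,
      div_eq_inv_mul ‖p - x‖]
    apply mul_le_mul_of_nonneg_right _ (norm_nonneg _)
    rw [Real.norm_eq_abs]
    have h1 := abs_min_sub_min_le_max ((j : ℝ) / m') 1 (((j + 1 : ℕ) : ℝ) / m') 1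
    refine le_trans h1 ?_
    rw [sub_self, abs_zero]
    apply max_le _ (by positivity)
    have e : (j : ℝ) / m' - ((j + 1 : ℕ) : ℝ) / m' = -(m' : ℝ)⁻¹ := by
      push_cast
      field_simp
      ring
    rw [e, abs_neg, abs_of_pos (by positivity)]
  obtain ⟨b1, hb1, hb2⟩ := steps (VS_down S ε) f m' (by
    intro j _ A hA
    obtain ⟨hA1, hA2, hA3⟩ := hA
    have key : ∀ a ∈ A, ∀ b ∈ A, dist (f j a) (f (j + 1) b) < ε := by
      intro a ha b hb
      have h1 := dist_triangle (f j a) (f j b) (f (j + 1) b)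
      have h2 := hdist j a b
      have h3 := hstep j b
      have h4 := hA2 a ha b hb
      have h5 : dist b p / m' ≤ max D 0 / m' := div_le_div_of_nonneg_right (hA3 b hb) hm0.le
      linarith
    constructor
    · rintro _ (⟨a, ha, rfl⟩ | ⟨a, ha, rfl⟩)
      · exact hmem _ _ (hA1 ha)
      · exact hmem _ _ (hA1 ha)
    · rintro _ (⟨a, ha, rfl⟩ | ⟨a, ha, rfl⟩) _ (⟨b, hb, rfl⟩ | ⟨b, hb, rfl⟩)
      · exact lt_of_le_of_lt (hdist _ _ _) (lt_of_le_of_lt (hA2 a ha b hb) he1)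
      · exact key a ha b hb
      · rw [dist_comm]
        exact key b hb a ha
      · exact lt_of_le_of_lt (hdist _ _ _) (lt_of_le_of_lt (hA2 a ha b hb) he1)) hcF hb
  obtain ⟨b2, hb3, hb4⟩ := to_point (G := VS S ε) (VS_down S ε) (p := p) (by
    refine ⟨Set.singleton_subset_iff.2 hp, ?_⟩
    intro a ha b hb
    rw [ha, hb, dist_self]
    exact hε) (f := f m') (by
    intro a
    rw [hf, div_self hm0.ne', min_self, one_smul]
    abel) hb
  refine ⟨b1 + b2, Submodule.add_mem _ hb1 hb3, ?_⟩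
  have e0 : f 0 = fun x => x := by
    funext x
    rw [hf]
    simp
  rw [map_add, hb2, hb4, sub_add_cancel, e0, mp_id]

end H40.VT
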